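import Pool.Agent.Lib.Helper29.HFG.Quot

set_option autoImplicit false

open Finset Filter Topology

namespace Pool.Agent.Lib.Helper29.HFG

/-! ### tensor products -/

section

variable {E F P : Type} [AddCommGroup E] [Module ℂ E] [UniformSpace E]
  [AddCommGroup F] [Module ℂ F] [UniformSpace F]
  [AddCommGroup P] [Module ℂ P] [UniformSpace P]

lemma isCL_coe (L : E →L[ℂ] F) : IsCL fun x => L x := ⟨L.toLinearMap.isLinear, L.continuous⟩

/-- a continuous linear map as a bundled map -/
def IsCL.toCLM {L : E → F} (h : IsCL L) : E →L[ℂ] F := ⟨h.linear.mk', h.continuous⟩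

lemma isTensor_of_isCompletedTensor [CLCS P] {t : E →ₗ[ℂ] F →ₗ[ℂ] P} (ht : IsCompletedTensor t) :
    IsTensor fun x y => t x y where
  clcs := inferInstance
  isCB :=
    { linear_left := fun y => (t.flip y).isLinear
      linear_right := fun x => (t x).isLinear
      continuous := ht.continuous }
  factors := by
    intro G _ _ _ _ b hb
    let b' : E →ₗ[ℂ] F →ₗ[ℂ] G := LinearMap.mk₂ ℂ b
      (fun x x' y => (hb.linear_left y).map_add x x')
      (fun a x y => (hb.linear_left y).map_smul a x)
      (fun x y y' => (hb.linear_right x).map_add y y')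
      (fun a x y => (hb.linear_right x).map_smul a y)
    obtain ⟨L, hL1, hL2⟩ := ht.existsUnique_lift G b' hb.continuous
    refine ⟨fun p => L p, ⟨isCL_coe L, hL1⟩, ?_⟩
    rintro L' ⟨h1, h2⟩
    have h3 := hL2 h1.toCLM h2
    funext p
    exact congrArg (fun T : P →L[ℂ] G => T p) h3

end

/-! ### the Hopf algebra -/

lemma isCL_linear {E F : Type} [AddCommGroup E] [Module ℂ E] [UniformSpace E]
    [AddCommGroup F] [Module ℂ F] [UniformSpace F] (L : E →ₗ[ℂ] F) (h : Continuous L) :
    IsCL fun x => L x := ⟨L.isLinear, h⟩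

theorem isHopf_example : IsHopf (H := RT ℂ) (fun a b => tm (RT ℂ) a b) (fun x y => x * y)
    (fun a b => tm (RT (RT ℂ)) a b) (fun a => split ℂ a) (fun a => a.1 []) (fun a => antiH a) where
  square :=
    { clcs := instCLCSRT
      continuous_mul := continuous_mul
      isTensor := isTensor_of_isCompletedTensor isCompletedTensor_tm
      isCB :=
        { linear_left := fun y => ⟨fun x x' => RT.ext (funext fun m => cvA_add_left m x.1 x'.1 y.1),
            fun a x => RT.ext (funext fun m => cvA_smul_left a m x.1 y.1)⟩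
          linear_right := fun x => ⟨fun y y' => RT.ext (funext fun m =>
            cvA_add_right m x.1 y.1 y'.1), fun a y => RT.ext (funext fun m =>
            cvA_smul_right a m x.1 y.1)⟩
          continuous := continuous_mul }
      mul_tmul := fun a b c d => tm_mul_tm a c b d }
  cube := isTensor_of_isCompletedTensor isCompletedTensor_tm
  algHoms :=
    { comul_isCL := isCL_linear _ continuous_split
      comul_mul := split_mul
      comul_one := by
        rw [split_one]
        exact tm_one_one.symm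
      counit_isCL := isCL_coe (evw [])
      counit_mul := fun _ _ => rfl
      counit_one := rfl }
  coassoc := by
    obtain ⟨L, R, r, h1, h2, h3, h4⟩ := coassoc_H
    exact ⟨fun x => L x, fun x => R x, fun c x => r c x, isCL_coe L, isCL_coe R,
      fun c => isCL_coe (r c), h1, h2, h3, h4⟩
  counital := by
    obtain ⟨L, h1, h2⟩ := counit_left_H
    obtain ⟨L', h3, h4⟩ := counit_right_H
    exact ⟨⟨fun x => L x, isCL_coe L, h1, h2⟩, ⟨fun x => L' x, isCL_coe L', h3, h4⟩⟩
  isCL := isCL_linear _ continuous_antiH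
  antipode := by
    obtain ⟨L, h1, h2⟩ := antipode_left_H
    obtain ⟨L', h3, h4⟩ := antipode_right_H
    exact ⟨⟨fun x => L x, isCL_coe L, h1, h2⟩, ⟨fun x => L' x, isCL_coe L', h3, h4⟩⟩

theorem isHopfAntipode_example : IsHopfAntipode fun a : RT ℂ => antiH a :=
  ⟨RT (RT ℂ), inferInstance, inferInstance, inferInstance, RT (RT (RT ℂ)), inferInstance,
    inferInstance, inferInstance, _, _, _, _, _, isHopf_example⟩

/-! ### free entire functions -/

section

variable {n : ℕ}

/-- comparison of the two forms of the space of free entire functions -/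
def toFE (c : FreeEnt n) : FreeEntire n := ⟨c.coeff, c.summable⟩

lemma toFE_surjective : Function.Surjective (toFE (n := n)) := fun c => ⟨⟨c.1, c.2⟩, rfl⟩

lemma entireNorm_toFE (ρ : {ρ : ℝ // 0 < ρ}) (c d : FreeEnt n) :
    entireNorm n ρ (toFE d - toFE c) = ∑' α, ‖d.coeff α - c.coeff α‖ * (ρ : ℝ) ^ α.length := rfl

lemma isInducing_toFE : IsInducing (toFE (n := n)) := by
  constructor
  apply le_antisymm
  · -- continuity
    rw [← continuous_iff_le_induced]
    refine continuous_def.mpr fun U hU => ?_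
    rw [isOpen_iff_forall_mem_open]
    intro c hc
    obtain ⟨s, r, hr, hs⟩ := (entire_withSeminorms.mem_nhds_iff (toFE c) U).mp (hU.mem_nhds hc)
    obtain ⟨ρ, hρ⟩ : ∃ ρ : {ρ : ℝ // 0 < ρ}, ∀ ρ' ∈ s, ρ'.1 ≤ ρ.1 := by
      refine ⟨⟨1 + ∑ ρ ∈ s, ρ.1, ?_⟩, fun ρ' hρ' => ?_⟩
      · have : 0 ≤ ∑ ρ ∈ s, ρ.1 := Finset.sum_nonneg fun ρ _ => ρ.2.le
        linarith
      · have h1 : ρ'.1 ≤ ∑ ρ ∈ s, ρ.1 :=
          Finset.single_le_sum (f := fun ρ : {ρ : ℝ // 0 < ρ} => ρ.1) (fun ρ _ => ρ.2.le) hρ'
        change ρ'.1 ≤ 1 + ∑ ρ ∈ s, ρ.1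
        linarith
    refine ⟨{d | ∑' α, ‖d.coeff α - c.coeff α‖ * ρ.1 ^ α.length < r}, ?_, ?_, ?_⟩
    · intro d hd
      refine hs ?_
      rw [Seminorm.mem_ball]
      refine lt_of_le_of_lt ?_ (show entireNorm n ρ (toFE d - toFE c) < r from hd)
      exact Finset.sup_le (f := entireNorm n) (fun ρ' hρ' => fun Q =>
        entireNorm_mono (hρ ρ' hρ') Q) _
    · exact TopologicalSpace.isOpen_generateFrom_of_mem ⟨c, ρ.1, r, ρ.2, rfl⟩
    · change ∑' α, ‖c.coeff α - c.coeff α‖ * ρ.1 ^ α.length < r
      simpa using hr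
  · refine le_generateFrom ?_
    rintro B ⟨c, ρ, ε, hρ, rfl⟩
    have h1 : IsOpen {d : FreeEntire n | entireNorm n ⟨ρ, hρ⟩ (d - toFE c) < ε} :=
      isOpen_lt ((continuous_entireNorm ⟨ρ, hρ⟩).comp (continuous_id.sub continuous_const))
        continuous_const
    exact isOpen_induced h1

lemma isQuotientMap_toFE : IsQuotientMap (toFE (n := n)) := by
  rw [isQuotientMap_iff, isCoinducing_iff]
  refine ⟨fun s => ⟨fun h => ?_, fun h => h.preimage isInducing_toFE.continuous⟩, toFE_surjective⟩
  obtain ⟨t, ht, hts⟩ := isInducing_toFE.isOpen_iff.mp h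
  have : t = s := toFE_surjective.preimage_injective hts
  rwa [← this]

end

theorem isHolFG_of_isHFG {A : Type} [Ring A] [Algebra ℂ A] [TopologicalSpace A] (h : IsHFG A) :
    IsHolFG A := by
  obtain ⟨n, φ, hφ⟩ := h
  refine ⟨n, fun c => φ (toFE c), ?_, hφ.comp isQuotientMap_toFE⟩
  exact
    { map_add := fun c d => map_add φ (toFE c) (toFE d)
      map_smul := fun a c => map_smul φ a (toFE c)
      map_mul := fun c d => map_mul φ (toFE c) (toFE d)
      map_one := map_one φ }

theorem isHolFG_example : IsHolFG (RT ℂ) := isHolFG_of_isHFG isHFG_RT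

end Pool.Agent.Lib.Helper29.HFG
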