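import Pool.Agent.Lib.Helper29.HFG.Stmt

/-!
# Auxiliary bundled forms of the definitions
-/

set_option autoImplicit false

open Topology

namespace Pool.Agent.Lib.Helper29.HFG

/-- `P`, with the bilinear map `t : E × F → P`, is a complete projective tensor product of `E` and
`F`: the map `t` is (jointly) continuous, and every continuous bilinear map from `E × F` to a
complete Hausdorff locally convex space `G` is of the form `(x, y) ↦ L (t x y)` for a unique
continuous linear map `L : P → G`. -/
structure IsCompletedTensor {E F P : Type} [AddCommGroup E] [Module ℂ E] [UniformSpace E]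
    [AddCommGroup F] [Module ℂ F] [UniformSpace F] [AddCommGroup P] [Module ℂ P] [UniformSpace P]
    [CLCS P] (t : E →ₗ[ℂ] F →ₗ[ℂ] P) : Prop where
  continuous : Continuous fun x : E × F => t x.1 x.2
  existsUnique_lift : ∀ (G : Type) [AddCommGroup G] [Module ℂ G] [UniformSpace G] [CLCS G]
    (b : E →ₗ[ℂ] F →ₗ[ℂ] G), (Continuous fun x : E × F => b x.1 x.2) →
      ∃! L : P →L[ℂ] G, ∀ x y, L (t x y) = b x y

/-- The topological algebra `A` is holomorphically finitely generated: for some `n` there is an
algebra homomorphism from the algebra `F_n` of free entire functions to `A` that is a topological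
quotient map (it is surjective and `A` has the quotient topology). Equivalently, `A` is
topologically isomorphic to the quotient of `F_n` by a two-sided ideal; the ideal is closed when
`A` is Hausdorff. -/
def IsHFG (A : Type) [Ring A] [Algebra ℂ A] [TopologicalSpace A] : Prop :=
  ∃ (n : ℕ) (φ : FreeEntire n →ₐ[ℂ] A), IsQuotientMap φ

end Pool.Agent.Lib.Helper29.HFG
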