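import Mathlib

set_option autoImplicit false

open Finset

namespace Pool.Agent.Lib.Helper29.HFG

/-- row and column indices -/
abbrev Ix : Type := Fin 9

/-- A letter `(k, i, j)` stands for the matrix entry `x^(k)_{ij}`. -/
abbrev Lt : Type := ℕ × Ix × Ix

/-- first letter of the pair of type `d` (`true`: ascending, `false`: descending) -/
def px (d : Bool) (k : ℕ) (i l : Ix) : Lt := if d then (k, i, l) else (k + 1, l, i)

/-- second letter of the pair of type `d` -/
def py (d : Bool) (k : ℕ) (j l : Ix) : Lt := if d then (k + 1, j, l) else (k, l, j)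

/-- Functions on the words in the letters `x^(k)_{ij}` that respect the relations
`∑_l x^(k)_{il} x^(k+1)_{jl} = δ_{ij}` and `∑_l x^(k+1)_{li} x^(k)_{lj} = δ_{ij}`. -/
def IsRep {G : Type*} [AddCommGroup G] (f : List Lt → G) : Prop :=
  ∀ (u v : List Lt) (d : Bool) (k : ℕ) (i j : Ix),
    ∑ l, f (u ++ px d k i l :: py d k j l :: v) = if i = j then f (u ++ v) else 0

/-- the distinguished index -/
def aa (k : ℕ) : Ix := if k % 2 = 0 then 0 else 1

lemma aa_succ_ne (k : ℕ) : aa (k + 1) ≠ aa k := by
  unfold aa
  rcases Nat.mod_two_eq_zero_or_one k with h | h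
  · have h' : (k + 1) % 2 = 1 := by omega
    simp [h, h']
  · have h' : (k + 1) % 2 = 0 := by omega
    simp [h, h']

lemma aa_add_two (k : ℕ) : aa (k + 2) = aa k := by
  unfold aa
  have : (k + 2) % 2 = k % 2 := by omega
  rw [this]

/-- weight of a letter -/
def lam (x : Lt) : ℕ :=
  1 + (if x.2.1 = aa (x.1 + 1) then x.1 else 0) + (if x.2.2 = aa (x.1 + 1) then x.1 else 0)

/-- weight of a word -/
def wt (m : List Lt) : ℕ := (m.map lam).sum

lemma wt_append (u v : List Lt) : wt (u ++ v) = wt u + wt v := by simp [wt]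
lemma wt_cons (x : Lt) (v : List Lt) : wt (x :: v) = lam x + wt v := by simp [wt]

lemma lam_pos (x : Lt) : 0 < lam x := by unfold lam; omega

lemma lam_lt (d : Bool) (k : ℕ) (i j l : Ix) (hl : l ≠ aa k) :
    lam (px d k i l) + lam (py d k j l) < lam (px d k i (aa k)) + lam (py d k j (aa k)) := by
  have h1 : aa k ≠ aa (k + 1) := (aa_succ_ne k).symm
  have h2 := aa_add_two k
  cases d
  · simp only [px, py, lam, Bool.false_eq_true, if_false]
    rw [show k + 1 + 1 = k + 2 from rfl, h2, if_neg hl, if_pos rfl, if_neg h1]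
    split_ifs <;> omega
  · simp only [px, py, lam, if_true]
    rw [show k + 1 + 1 = k + 2 from rfl, h2, if_neg hl, if_pos rfl, if_neg h1]
    split_ifs <;> omega

/-- occurrences of leading pairs -/
structure Occ where
  u : List Lt
  d : Bool
  k : ℕ
  i : Ix
  j : Ix
  v : List Lt

/-- the word with the pair replaced by the one of index `l` -/
def Occ.rep (o : Occ) (l : Ix) : List Lt := o.u ++ px o.d o.k o.i l :: py o.d o.k o.j l :: o.v

/-- the word with the pair deleted -/
def Occ.del (o : Occ) : List Lt := o.u ++ o.v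

/-- the word itself -/
def Occ.word (o : Occ) : List Lt := o.rep (aa o.k)

lemma Occ.wt_rep_lt (o : Occ) {l : Ix} (hl : l ≠ aa o.k) : wt (o.rep l) < wt o.word := by
  unfold Occ.word Occ.rep
  rw [wt_append, wt_append, wt_cons, wt_cons, wt_cons, wt_cons]
  have := lam_lt o.d o.k o.i o.j l hl
  omega

lemma Occ.wt_del_lt (o : Occ) : wt o.del < wt o.word := by
  unfold Occ.word Occ.rep Occ.del
  rw [wt_append, wt_append, wt_cons, wt_cons]
  have := lam_pos (px o.d o.k o.i (aa o.k))
  omega

section Ext

variable {G : Type*} [AddCommGroup G]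

/-- right hand side of the reduction at an occurrence -/
def rhs (f : List Lt → G) (o : Occ) : G :=
  (if o.i = o.j then f o.del else 0) - ∑ l : {l : Ix // l ≠ aa o.k}, f (o.rep l)

lemma rhs_eq_erase (f : List Lt → G) (o : Occ) :
    rhs f o = (if o.i = o.j then f o.del else 0) - ∑ l ∈ univ.erase (aa o.k), f (o.rep l) := by
  unfold rhs
  congr 1
  rw [← Finset.sum_subtype (univ.erase (aa o.k)) (p := fun l => l ≠ aa o.k)
    (fun x => by simp) (fun l => f (o.rep l))]

lemma IsRep.eq_rhs {f : List Lt → G} (hf : IsRep f) (o : Occ) : f o.word = rhs f o := by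
  have h := hf o.u o.v o.d o.k o.i o.j
  rw [← Finset.add_sum_erase univ _ (Finset.mem_univ (aa o.k))] at h
  rw [rhs_eq_erase, eq_sub_iff_add_eq]
  exact h

open Classical in
/-- extension of a function on normal words -/
noncomputable def ext (f₀ : List Lt → G) : List Lt → G :=
  WellFounded.fix (measure wt).wf fun m rec =>
    if h : ∃ o : Occ, o.word = m then
      (if h.choose.i = h.choose.j then rec h.choose.del
          (by have := h.choose.wt_del_lt; rw [h.choose_spec] at this; exact this) else 0) -
        ∑ l : {l : Ix // l ≠ aa h.choose.k}, rec (h.choose.rep l)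
          (by have := h.choose.wt_rep_lt l.2; rw [h.choose_spec] at this; exact this)
    else f₀ m

lemma ext_normal (f₀ : List Lt → G) {m : List Lt} (h : ¬ ∃ o : Occ, o.word = m) :
    ext f₀ m = f₀ m := by
  unfold ext
  rw [WellFounded.fix_eq, dif_neg h]

lemma ext_occ (f₀ : List Lt → G) {m : List Lt} (h : ∃ o : Occ, o.word = m) :
    ext f₀ m = rhs (ext f₀) h.choose := by
  conv_lhs => unfold ext
  rw [WellFounded.fix_eq, dif_pos h]
  rfl

lemma px_py_inj {d d' : Bool} {k k' : ℕ} {i i' j j' : Ix}
    (h1 : px d k i (aa k) = px d' k' i' (aa k')) (h2 : py d k j (aa k) = py d' k' j' (aa k')) :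
    d = d' ∧ k = k' ∧ i = i' ∧ j = j' := by
  cases d <;> cases d' <;> simp only [px, py, Bool.false_eq_true, if_false, if_true,
    Prod.mk.injEq] at h1 h2
  · obtain ⟨h3, _, h4⟩ := h1
    obtain ⟨_, _, h5⟩ := h2
    exact ⟨rfl, by omega, h4, h5⟩
  · omega
  · omega
  · obtain ⟨h3, h4, _⟩ := h1
    obtain ⟨_, h5, _⟩ := h2
    exact ⟨rfl, h3, h4, h5⟩

/-- the two summation identities behind the overlaps -/
lemma overlap_sum (a i : Ix) (F : Ix → G) :
    (if i = a then F a else 0) + ∑ l ∈ univ.erase a, (if i = l then F l else 0) = F i := by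
  have h := Finset.add_sum_erase univ (fun l => if i = l then F l else 0) (Finset.mem_univ a)
  rw [h, Finset.sum_ite_eq]
  simp

/-- confluence at overlaps -/
lemma overlap_core (a i j : Ix) (F K : Ix → G) (M : Ix → Ix → G) (hFK : F i = K j) :
    (if i = a then F a else 0) -
        ∑ l ∈ univ.erase a, ((if l = j then K l else 0) - ∑ l' ∈ univ.erase a, M l l') =
      (if a = j then K a else 0) -
        ∑ l' ∈ univ.erase a, ((if i = l' then F l' else 0) - ∑ l ∈ univ.erase a, M l l') := by
  rw [Finset.sum_sub_distrib, Finset.sum_sub_distrib, Finset.sum_comm (f := fun l' l => M l l')]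
  have h1 := overlap_sum a i F
  have h2 := overlap_sum a j K
  have h3 : ∀ l, (if l = j then K l else 0) = (if j = l then K l else 0) := fun l => by
    simp only [eq_comm]
  have h4 : (if a = j then K a else 0) = (if j = a then K a else 0) := h3 a
  simp only [h3] at *
  rw [hFK] at h1
  have h5 := h1.trans h2.symm
  rw [sub_sub_eq_add_sub, sub_sub_eq_add_sub, sub_eq_sub_iff_add_eq_add]
  calc (if i = a then F a else 0) + ∑ l ∈ univ.erase a, ∑ l' ∈ univ.erase a, M l l' +
        ∑ l' ∈ univ.erase a, (if i = l' then F l' else 0)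
      = ((if i = a then F a else 0) + ∑ l' ∈ univ.erase a, (if i = l' then F l' else 0)) +
        ∑ l ∈ univ.erase a, ∑ l' ∈ univ.erase a, M l l' := by abel
    _ = ((if j = a then K a else 0) + ∑ l' ∈ univ.erase a, (if j = l' then K l' else 0)) +
        ∑ l ∈ univ.erase a, ∑ l' ∈ univ.erase a, M l l' := by rw [h5]
    _ = _ := by abel

/-- confluence -/
lemma confluence_aux (f : List Lt → G) (B : ℕ) (hB : ∀ o : Occ, wt o.word < B → f o.word = rhs f o)
    (o o' : Occ) (ho : wt o.word = B) (heq : o.word = o'.word) (hle : o.u.length ≤ o'.u.length) :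
    rhs f o = rhs f o' := by
  obtain ⟨u, d, k, i, j, v⟩ := o
  obtain ⟨u', d', k', i', j', v'⟩ := o'
  simp only [Occ.word, Occ.rep] at heq ho hle
  -- compare prefixes
  obtain ⟨t, rfl⟩ : ∃ t, u' = u ++ t := by
    have h1 := List.prefix_of_prefix_length_le (l₁ := u) (l₂ := u')
      (l₃ := u ++ px d k i (aa k) :: py d k j (aa k) :: v) (List.prefix_append _ _)
      (by rw [heq]; exact List.prefix_append _ _) hle
    obtain ⟨t, ht⟩ := h1
    exact ⟨t, ht.symm⟩
  rw [List.append_assoc, List.append_cancel_left_eq] at heq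
  rcases t with _ | ⟨z, _ | ⟨z', s⟩⟩
  · -- same occurrence
    simp only [List.nil_append, List.cons.injEq] at heq
    obtain ⟨h1, h2, h3⟩ := heq
    obtain ⟨rfl, rfl, rfl, rfl⟩ := px_py_inj h1 h2
    subst h3
    simp
  · -- overlap
    simp only [List.cons_append, List.nil_append, List.cons.injEq] at heq
    obtain ⟨h1, h2, h3⟩ := heq
    subst h1 h3
    cases d <;> cases d' <;> simp only [px, py, Bool.false_eq_true, if_false, if_true,
      Prod.mk.injEq] at h2
    · -- descending, descending
      obtain ⟨h4, h5, _⟩ := h2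
      subst h4
      exact absurd h5 (aa_succ_ne k')
    · -- descending, ascending
      obtain ⟨rfl, rfl, rfl⟩ := h2
      rw [rhs_eq_erase, rhs_eq_erase]
      have e1 : ∀ l ∈ univ.erase (aa k), f ((⟨u, false, k, i, aa k,
          py true k j' (aa k) :: v'⟩ : Occ).rep l) =
          (if l = j' then f (u ++ (k + 1, l, i) :: v') else 0) -
            ∑ l' ∈ univ.erase (aa k), f (u ++ (k + 1, l, i) :: (k, l, l') :: (k + 1, j', l') :: v') := by
        intro l hl
        have hl' : l ≠ aa k := Finset.ne_of_mem_erase hl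
        have h6 := hB ⟨u ++ [(k + 1, l, i)], true, k, l, j', v'⟩ (by
          have := Occ.wt_rep_lt ⟨u, false, k, i, aa k, py true k j' (aa k) :: v'⟩ hl'
          rw [← ho]
          simpa [Occ.word, Occ.rep, px, py] using this)
        rw [rhs_eq_erase] at h6
        simpa [Occ.word, Occ.rep, Occ.del, px, py] using h6
      have e2 : ∀ l' ∈ univ.erase (aa k), f ((⟨u ++ [px false k i (aa k)], true, k, aa k, j',
          v'⟩ : Occ).rep l') =
          (if i = l' then f (u ++ (k + 1, j', l') :: v') else 0) -
            ∑ l ∈ univ.erase (aa k), f (u ++ (k + 1, l, i) :: (k, l, l') :: (k + 1, j', l') :: v') := by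
        intro l' hl
        have hl' : l' ≠ aa k := Finset.ne_of_mem_erase hl
        have h6 := hB ⟨u, false, k, i, l', (k + 1, j', l') :: v'⟩ (by
          have := Occ.wt_rep_lt ⟨u ++ [px false k i (aa k)], true, k, aa k, j', v'⟩ hl'
          rw [← ho]
          simpa [Occ.word, Occ.rep, px, py] using this)
        rw [rhs_eq_erase] at h6
        simpa [Occ.word, Occ.rep, Occ.del, px, py] using h6
      rw [Finset.sum_congr rfl e1, Finset.sum_congr rfl e2]
      have h7 := overlap_core (aa k) i j' (fun l => f (u ++ (k + 1, j', l) :: v'))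
        (fun l => f (u ++ (k + 1, l, i) :: v'))
        (fun l l' => f (u ++ (k + 1, l, i) :: (k, l, l') :: (k + 1, j', l') :: v')) rfl
      simpa [Occ.del, px, py] using h7
    · -- ascending, descending
      obtain ⟨h4, h5, h6⟩ := h2
      obtain rfl : k = k' := by omega
      subst h5 h6
      rw [rhs_eq_erase, rhs_eq_erase]
      have e1 : ∀ l ∈ univ.erase (aa k), f ((⟨u, true, k, i, aa k,
          py false k j' (aa k) :: v'⟩ : Occ).rep l) =
          (if l = j' then f (u ++ (k, i, l) :: v') else 0) -
            ∑ l' ∈ univ.erase (aa k), f (u ++ (k, i, l) :: (k + 1, l', l) :: (k, l', j') :: v') := by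
        intro l hl
        have hl' : l ≠ aa k := Finset.ne_of_mem_erase hl
        have h6 := hB ⟨u ++ [(k, i, l)], false, k, l, j', v'⟩ (by
          have := Occ.wt_rep_lt ⟨u, true, k, i, aa k, py false k j' (aa k) :: v'⟩ hl'
          rw [← ho]
          simpa [Occ.word, Occ.rep, px, py] using this)
        rw [rhs_eq_erase] at h6
        simpa [Occ.word, Occ.rep, Occ.del, px, py] using h6
      have e2 : ∀ l' ∈ univ.erase (aa k), f ((⟨u ++ [px true k i (aa k)], false, k, aa k, j',
          v'⟩ : Occ).rep l') =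
          (if i = l' then f (u ++ (k, l', j') :: v') else 0) -
            ∑ l ∈ univ.erase (aa k), f (u ++ (k, i, l) :: (k + 1, l', l) :: (k, l', j') :: v') := by
        intro l' hl
        have hl' : l' ≠ aa k := Finset.ne_of_mem_erase hl
        have h6 := hB ⟨u, true, k, i, l', (k, l', j') :: v'⟩ (by
          have := Occ.wt_rep_lt ⟨u ++ [px true k i (aa k)], false, k, aa k, j', v'⟩ hl'
          rw [← ho]
          simpa [Occ.word, Occ.rep, px, py] using this)
        rw [rhs_eq_erase] at h6
        simpa [Occ.word, Occ.rep, Occ.del, px, py] using h6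
      rw [Finset.sum_congr rfl e1, Finset.sum_congr rfl e2]
      have h7 := overlap_core (aa k) i j' (fun l => f (u ++ (k, l, j') :: v'))
        (fun l => f (u ++ (k, i, l) :: v'))
        (fun l l' => f (u ++ (k, i, l) :: (k + 1, l', l) :: (k, l', j') :: v')) rfl
      simpa [Occ.del, px, py] using h7
    · -- ascending, ascending
      obtain ⟨h4, _, h5⟩ := h2
      subst h4
      exact absurd h5.symm (aa_succ_ne k)
  · -- disjoint
    simp only [List.cons_append, List.cons.injEq] at heq
    obtain ⟨h1, h2, h3⟩ := heq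
    subst h1 h2 h3
    rw [rhs_eq_erase, rhs_eq_erase]
    have hword : (⟨u, d, k, i, j, s ++ px d' k' i' (aa k') :: py d' k' j' (aa k') :: v'⟩ : Occ).word =
      u ++ px d k i (aa k) :: py d k j (aa k) ::
        (s ++ px d' k' i' (aa k') :: py d' k' j' (aa k') :: v') := rfl
    have hword' : (⟨u ++ px d k i (aa k) :: py d k j (aa k) :: s, d', k', i', j', v'⟩ : Occ).word =
      u ++ px d k i (aa k) :: py d k j (aa k) ::
        (s ++ px d' k' i' (aa k') :: py d' k' j' (aa k') :: v') := by
      simp [Occ.word, Occ.rep]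
    -- first expansion
    have e0 : f (u ++ (s ++ px d' k' i' (aa k') :: py d' k' j' (aa k') :: v')) =
        (if i' = j' then f (u ++ (s ++ v')) else 0) -
          ∑ l' ∈ univ.erase (aa k'), f (u ++ (s ++ px d' k' i' l' :: py d' k' j' l' :: v')) := by
      have h6 := hB ⟨u ++ s, d', k', i', j', v'⟩ (by
        have := Occ.wt_del_lt ⟨u, d, k, i, j, s ++ px d' k' i' (aa k') :: py d' k' j' (aa k') :: v'⟩
        rw [← ho]
        simpa [Occ.word, Occ.rep, Occ.del] using this)
      rw [rhs_eq_erase] at h6
      simpa [Occ.word, Occ.rep, Occ.del] using h6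
    have e1 : ∀ l ∈ univ.erase (aa k), f (u ++ px d k i l :: py d k j l ::
        (s ++ px d' k' i' (aa k') :: py d' k' j' (aa k') :: v')) =
        (if i' = j' then f (u ++ px d k i l :: py d k j l :: (s ++ v')) else 0) -
          ∑ l' ∈ univ.erase (aa k'), f (u ++ px d k i l :: py d k j l ::
            (s ++ px d' k' i' l' :: py d' k' j' l' :: v')) := by
      intro l hl
      have hl' : l ≠ aa k := Finset.ne_of_mem_erase hl
      have h6 := hB ⟨u ++ px d k i l :: py d k j l :: s, d', k', i', j', v'⟩ (by
        have := Occ.wt_rep_lt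
          ⟨u, d, k, i, j, s ++ px d' k' i' (aa k') :: py d' k' j' (aa k') :: v'⟩ hl'
        rw [← ho]
        simpa [Occ.word, Occ.rep, Occ.del] using this)
      rw [rhs_eq_erase] at h6
      simpa [Occ.word, Occ.rep, Occ.del] using h6
    have e0' : f (u ++ px d k i (aa k) :: py d k j (aa k) :: (s ++ v')) =
        (if i = j then f (u ++ (s ++ v')) else 0) -
          ∑ l ∈ univ.erase (aa k), f (u ++ px d k i l :: py d k j l :: (s ++ v')) := by
      have h6 := hB ⟨u, d, k, i, j, s ++ v'⟩ (by
        have := Occ.wt_del_lt ⟨u ++ px d k i (aa k) :: py d k j (aa k) :: s, d', k', i', j', v'⟩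
        rw [← ho, ← hword, hword, ← hword']
        simpa [Occ.word, Occ.rep, Occ.del] using this)
      rw [rhs_eq_erase] at h6
      simpa [Occ.word, Occ.rep, Occ.del] using h6
    have e1' : ∀ l' ∈ univ.erase (aa k'), f (u ++ px d k i (aa k) :: py d k j (aa k) ::
        (s ++ px d' k' i' l' :: py d' k' j' l' :: v')) =
        (if i = j then f (u ++ (s ++ px d' k' i' l' :: py d' k' j' l' :: v')) else 0) -
          ∑ l ∈ univ.erase (aa k), f (u ++ px d k i l :: py d k j l ::
            (s ++ px d' k' i' l' :: py d' k' j' l' :: v')) := by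
      intro l' hl
      have hl' : l' ≠ aa k' := Finset.ne_of_mem_erase hl
      have h6 := hB ⟨u, d, k, i, j, s ++ px d' k' i' l' :: py d' k' j' l' :: v'⟩ (by
        have := Occ.wt_rep_lt
          ⟨u ++ px d k i (aa k) :: py d k j (aa k) :: s, d', k', i', j', v'⟩ hl'
        rw [← ho, ← hword, hword, ← hword']
        simpa [Occ.word, Occ.rep, Occ.del] using this)
      rw [rhs_eq_erase] at h6
      simpa [Occ.word, Occ.rep, Occ.del] using h6
    have g1 : (if i = j then f (Occ.del ⟨u, d, k, i, j,
        s ++ px d' k' i' (aa k') :: py d' k' j' (aa k') :: v'⟩) else 0) =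
        (if i = j then ((if i' = j' then f (u ++ (s ++ v')) else 0) -
          ∑ l' ∈ univ.erase (aa k'), f (u ++ (s ++ px d' k' i' l' :: py d' k' j' l' :: v'))) else 0) := by
      rw [← e0]; rfl
    have g2 : (if i' = j' then f (Occ.del
        ⟨u ++ px d k i (aa k) :: py d k j (aa k) :: s, d', k', i', j', v'⟩) else 0) =
        (if i' = j' then ((if i = j then f (u ++ (s ++ v')) else 0) -
          ∑ l ∈ univ.erase (aa k), f (u ++ px d k i l :: py d k j l :: (s ++ v'))) else 0) := by
      rw [← e0']; simp [Occ.del]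
    have g3 : ∑ l ∈ univ.erase (aa k), f (Occ.rep ⟨u, d, k, i, j,
        s ++ px d' k' i' (aa k') :: py d' k' j' (aa k') :: v'⟩ l) =
        ∑ l ∈ univ.erase (aa k), ((if i' = j' then f (u ++ px d k i l :: py d k j l :: (s ++ v'))
          else 0) - ∑ l' ∈ univ.erase (aa k'), f (u ++ px d k i l :: py d k j l ::
            (s ++ px d' k' i' l' :: py d' k' j' l' :: v'))) :=
      Finset.sum_congr rfl e1
    have g4 : ∑ l' ∈ univ.erase (aa k'), f (Occ.rep
        ⟨u ++ px d k i (aa k) :: py d k j (aa k) :: s, d', k', i', j', v'⟩ l') =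
        ∑ l' ∈ univ.erase (aa k'), ((if i = j then f (u ++ (s ++ px d' k' i' l' ::
          py d' k' j' l' :: v')) else 0) - ∑ l ∈ univ.erase (aa k), f (u ++ px d k i l ::
            py d k j l :: (s ++ px d' k' i' l' :: py d' k' j' l' :: v'))) := by
      refine Finset.sum_congr rfl fun l' hl => ?_
      rw [← e1' l' hl]
      simp [Occ.rep]
    simp only at *
    rw [g1, g2, g3, g4, Finset.sum_sub_distrib, Finset.sum_sub_distrib,
      Finset.sum_comm (f := fun l l' => f (u ++ px d k i l :: py d k j l ::
            (s ++ px d' k' i' l' :: py d' k' j' l' :: v')))]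
    split_ifs <;> simp <;> abel

end Ext

end Pool.Agent.Lib.Helper29.HFG
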