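import Pool.Agent.Lib.Helper29.HFG.Diamond

set_option autoImplicit false

open Finset

namespace Pool.Agent.Lib.Helper29.HFG

section Ext

variable {G : Type*} [AddCommGroup G]

lemma ext_eq_rhs (f₀ : List Lt → G) : ∀ (B : ℕ) (o : Occ), wt o.word = B →
    ext f₀ o.word = rhs (ext f₀) o := by
  intro B
  induction B using Nat.strong_induction_on with
  | _ B ih =>
    intro o ho
    have h : ∃ o' : Occ, o'.word = o.word := ⟨o, rfl⟩
    have hB : ∀ o' : Occ, wt o'.word < B → ext f₀ o'.word = rhs (ext f₀) o' :=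
      fun o' ho' => ih _ ho' o' rfl
    rw [ext_occ f₀ h]
    set o' := h.choose with ho'
    have hs : o'.word = o.word := h.choose_spec
    rcases le_total o'.u.length o.u.length with hle | hle
    · exact confluence_aux (ext f₀) B hB o' o (by rw [hs, ho]) hs hle
    · exact (confluence_aux (ext f₀) B hB o o' ho hs.symm hle).symm

/-- The extension satisfies the relations. -/
theorem isRep_ext (f₀ : List Lt → G) : IsRep (ext f₀) := by
  intro u v d k i j
  have h := ext_eq_rhs f₀ _ ⟨u, d, k, i, j, v⟩ rfl
  rw [rhs_eq_erase, eq_sub_iff_add_eq] at h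
  rw [← Finset.add_sum_erase univ _ (Finset.mem_univ (aa k))]
  exact h

/-- normal words -/
def Normal (m : List Lt) : Prop := ¬ ∃ o : Occ, o.word = m

/-- induction principle -/
lemma rep_unique {f g : List Lt → G} (S : Set (List Lt))
    (hdel : ∀ o : Occ, o.word ∈ S → o.del ∈ S) (hrep : ∀ o : Occ, o.word ∈ S → ∀ l, o.rep l ∈ S)
    (hf : ∀ o : Occ, o.word ∈ S → f o.word = rhs f o)
    (hg : ∀ o : Occ, o.word ∈ S → g o.word = rhs g o)
    (h : ∀ m ∈ S, Normal m → f m = g m) : ∀ m ∈ S, f m = g m := by
  intro m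
  induction hm : wt m using Nat.strong_induction_on generalizing m with
  | _ B ih =>
    intro hmS
    by_cases hn : Normal m
    · exact h m hmS hn
    · unfold Normal at hn
      push Not at hn
      obtain ⟨o, rfl⟩ := hn
      rw [hf o hmS, hg o hmS, rhs, rhs]
      congr 1
      · split_ifs
        · exact ih _ (by rw [← hm]; exact o.wt_del_lt) _ rfl (hdel o hmS)
        · rfl
      · refine Finset.sum_congr rfl fun l _ => ?_
        exact ih _ (by rw [← hm]; exact o.wt_rep_lt l.2) _ rfl (hrep o hmS l)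

lemma IsRep.unique {f g : List Lt → G} (hf : IsRep f) (hg : IsRep g)
    (h : ∀ m, Normal m → f m = g m) : f = g :=
  funext fun m => rep_unique Set.univ (fun _ _ => trivial) (fun _ _ _ => trivial)
    (fun o _ => hf.eq_rhs o) (fun o _ => hg.eq_rhs o) (fun m _ hn => h m hn) m trivial

lemma ext_eq_self {f : List Lt → G} (hf : IsRep f) : ext f = f :=
  (isRep_ext f).unique hf fun _ hn => ext_normal f hn

lemma ext_eq_of_isRep {f f₀ : List Lt → G} (hf : IsRep f) (h : ∀ m, Normal m → f m = f₀ m) :
    ext f₀ = f :=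
  (isRep_ext f₀).unique hf fun m hn => by rw [ext_normal f₀ hn, h m hn]

end Ext

end Pool.Agent.Lib.Helper29.HFG
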