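import Mathlib

set_option autoImplicit false

open Finset Filter Topology

namespace Pool.Agent.Lib.Helper29.HFG

/-- The convolution product of two functions on the set of words (lists) in the letters
`0, …, n - 1`: the coefficient of the word `α` of the product is the sum of `c β * d γ` over the
decompositions `α = β ++ γ`. -/
def conv {n : ℕ} (c d : List (Fin n) → ℂ) (α : List (Fin n)) : ℂ :=
  ∑ i ∈ range (α.length + 1), c (α.take i) * d (α.drop i)

/-- The space `F_n` of free entire functions: families of coefficients `c α`, indexed by the words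
`α` in the letters `0, …, n - 1`, with `∑ |c α| ρ ^ |α| < ∞` for every `ρ > 0`. -/
def FreeEntire (n : ℕ) : Submodule ℂ (List (Fin n) → ℂ) where
  carrier := {c | ∀ ρ : ℝ, 0 < ρ → Summable fun α => ‖c α‖ * ρ ^ α.length}
  zero_mem' := fun ρ _ => by simp
  add_mem' := by
    intro c d hc hd ρ hρ
    refine Summable.of_nonneg_of_le (fun α => by positivity) (fun α => ?_)
      ((hc ρ hρ).add (hd ρ hρ))
    rw [← add_mul]
    exact mul_le_mul_of_nonneg_right (norm_add_le _ _) (by positivity)
  smul_mem' := by
    intro a c hc ρ hρ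
    refine ((hc ρ hρ).mul_left ‖a‖).congr fun α => ?_
    simp [mul_assoc]

variable {n : ℕ}

section Conv

variable (c d e : List (Fin n) → ℂ)

lemma conv_nil : conv c d [] = c [] * d [] := by simp [conv]

lemma conv_cons (x : Fin n) (α : List (Fin n)) :
    conv c d (x :: α) = c [] * d (x :: α) + conv (fun β => c (x :: β)) d α := by
  unfold conv
  rw [List.length_cons, Finset.sum_range_succ', add_comm]
  simp

lemma conv_add_left : conv (c + d) e = conv c e + conv d e := by
  ext α; simp [conv, add_mul, Finset.sum_add_distrib]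

lemma conv_add_right : conv c (d + e) = conv c d + conv c e := by
  ext α; simp [conv, mul_add, Finset.sum_add_distrib]

lemma conv_smul_left (a : ℂ) : conv (a • c) d = a • conv c d := by
  ext α; simp [conv, Finset.mul_sum, mul_assoc]

lemma conv_smul_right (a : ℂ) : conv c (a • d) = a • conv c d := by
  ext α; simp [conv, Finset.mul_sum, mul_left_comm]

lemma conv_assoc : conv (conv c d) e = conv c (conv d e) := by
  funext α
  induction α generalizing c d e with
  | nil => simp [conv_nil, mul_assoc]
  | cons x α ih =>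
    rw [conv_cons, conv_cons, conv_nil, conv_cons]
    have h : (fun β => conv c d (x :: β)) =
        c [] • (fun β => d (x :: β)) + conv (fun β => c (x :: β)) d := by
      funext β; rw [conv_cons]; rfl
    rw [h, conv_add_left, conv_smul_left, Pi.add_apply, ih]
    simp only [Pi.smul_apply, smul_eq_mul]
    ring

/-- the unit -/
def oneFn : List (Fin n) → ℂ := fun α => if α = [] then 1 else 0

lemma one_conv : conv oneFn c = c := by
  funext α
  cases α with
  | nil => simp [conv_nil, oneFn]
  | cons x α =>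
    rw [conv_cons]
    have : conv (fun β => (oneFn : List (Fin n) → ℂ) (x :: β)) c α = 0 := by
      simp [conv, oneFn]
    rw [this]; simp [oneFn]

lemma conv_one : conv c oneFn = c := by
  funext α
  induction α generalizing c with
  | nil => simp [conv_nil, oneFn]
  | cons x α ih => rw [conv_cons, ih]; simp [oneFn]

end Conv

/-- decompositions of words -/
def splitEquiv (n : ℕ) :
    (Σ α : List (Fin n), Fin (α.length + 1)) ≃ List (Fin n) × List (Fin n) where
  toFun x := (x.1.take x.2, x.1.drop x.2)
  invFun y := ⟨y.1 ++ y.2, ⟨y.1.length, by simp⟩⟩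
  left_inv x := by
    obtain ⟨α, i, hi⟩ := x
    have h1 : α.take i ++ α.drop i = α := List.take_append_drop i α
    have h2 : (α.take i).length = i := by simp; omega
    refine Sigma.ext h1 ?_
    refine (Fin.heq_ext_iff (by simp)).mpr h2
  right_inv y := by simp

lemma summable_split {f : List (Fin n) × List (Fin n) → ℝ} (hf : Summable f) :
    Summable (fun x : (Σ α : List (Fin n), Fin (α.length + 1)) => f (x.1.take x.2, x.1.drop x.2)) :=
  (splitEquiv n).summable_iff.mpr hf

lemma conv_eq_sum_fin (c d : List (Fin n) → ℂ) (α : List (Fin n)) :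
    conv c d α = ∑ i : Fin (α.length + 1), c (α.take i) * d (α.drop i) := by
  rw [conv, Finset.sum_range]

/-- the weighted norm -/
noncomputable def wnorm (ρ : ℝ) (c : List (Fin n) → ℂ) : ℝ := ∑' α, ‖c α‖ * ρ ^ α.length

lemma summable_conv_aux {ρ : ℝ} (hρ : 0 < ρ) {c d : List (Fin n) → ℂ}
    (hc : Summable fun α => ‖c α‖ * ρ ^ α.length) (hd : Summable fun α => ‖d α‖ * ρ ^ α.length) :
    Summable (fun x : (Σ α : List (Fin n), Fin (α.length + 1)) =>
      (‖c (x.1.take x.2)‖ * ρ ^ (x.1.take x.2).length) *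
        (‖d (x.1.drop x.2)‖ * ρ ^ (x.1.drop x.2).length)) :=
  summable_split (f := fun y => (‖c y.1‖ * ρ ^ y.1.length) * (‖d y.2‖ * ρ ^ y.2.length))
    (hc.mul_of_nonneg hd (fun α => by positivity) (fun α => by positivity))

lemma norm_conv_le {ρ : ℝ} (hρ : 0 < ρ) (c d : List (Fin n) → ℂ) (α : List (Fin n)) :
    ‖conv c d α‖ * ρ ^ α.length ≤ ∑ i : Fin (α.length + 1),
      (‖c (α.take i)‖ * ρ ^ (α.take i).length) * (‖d (α.drop i)‖ * ρ ^ (α.drop i).length) := by
  rw [conv_eq_sum_fin]
  refine (mul_le_mul_of_nonneg_right (norm_sum_le _ _) (by positivity)).trans (le_of_eq ?_)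
  rw [Finset.sum_mul]
  refine Finset.sum_congr rfl fun i _ => ?_
  have h : ρ ^ α.length = ρ ^ (α.take i).length * ρ ^ (α.drop i).length := by
    rw [← pow_add, ← List.length_append, List.take_append_drop]
  rw [norm_mul, h]; ring

lemma summable_conv {ρ : ℝ} (hρ : 0 < ρ) {c d : List (Fin n) → ℂ}
    (hc : Summable fun α => ‖c α‖ * ρ ^ α.length) (hd : Summable fun α => ‖d α‖ * ρ ^ α.length) :
    Summable (fun α => ‖conv c d α‖ * ρ ^ α.length) := by
  have h := (summable_conv_aux hρ hc hd).sigma
  refine Summable.of_nonneg_of_le (fun α => by positivity) (fun α => ?_) h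
  rw [tsum_fintype]
  exact norm_conv_le hρ c d α

lemma wnorm_conv_le {ρ : ℝ} (hρ : 0 < ρ) {c d : List (Fin n) → ℂ}
    (hc : Summable fun α => ‖c α‖ * ρ ^ α.length) (hd : Summable fun α => ‖d α‖ * ρ ^ α.length) :
    wnorm ρ (conv c d) ≤ wnorm ρ c * wnorm ρ d := by
  have h := summable_conv_aux hρ hc hd
  have h1 : wnorm ρ c * wnorm ρ d = ∑' y : List (Fin n) × List (Fin n),
      (‖c y.1‖ * ρ ^ y.1.length) * (‖d y.2‖ * ρ ^ y.2.length) :=
    hc.tsum_mul_tsum hd (hc.mul_of_nonneg hd (fun α => by positivity) (fun α => by positivity))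
  rw [h1, ← (splitEquiv n).tsum_eq]
  have h2 : ∑' x : (Σ α : List (Fin n), Fin (α.length + 1)),
      (fun y : List (Fin n) × List (Fin n) =>
        (‖c y.1‖ * ρ ^ y.1.length) * (‖d y.2‖ * ρ ^ y.2.length)) (splitEquiv n x) =
      ∑' α : List (Fin n), ∑' i : Fin (α.length + 1),
      (‖c (α.take i)‖ * ρ ^ (α.take i).length) * (‖d (α.drop i)‖ * ρ ^ (α.drop i).length) :=
    h.tsum_sigma
  rw [h2]
  refine (summable_conv hρ hc hd).tsum_le_tsum (fun α => ?_) h.sigma
  rw [tsum_fintype]
  exact norm_conv_le hρ c d α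

instance : Mul (FreeEntire n) where
  mul c d := ⟨conv c.1 d.1, fun ρ hρ => summable_conv hρ (c.2 ρ hρ) (d.2 ρ hρ)⟩

lemma oneFn_mem : (oneFn : List (Fin n) → ℂ) ∈ FreeEntire n := by
  intro ρ _
  refine summable_of_ne_finset_zero (s := {[]}) fun α hα => ?_
  simp only [Finset.mem_singleton] at hα
  simp [oneFn, hα]

instance : One (FreeEntire n) where
  one := ⟨oneFn, oneFn_mem⟩

@[simp] lemma coe_mul (c d : FreeEntire n) :
    ((c * d : FreeEntire n) : List (Fin n) → ℂ) = conv c.1 d.1 := rfl
@[simp] lemma coe_one : ((1 : FreeEntire n) : List (Fin n) → ℂ) = oneFn := rfl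

instance : Ring (FreeEntire n) :=
  { (inferInstance : AddCommGroup (FreeEntire n)) with
    mul := (· * ·)
    one := 1
    left_distrib := fun c d e => Subtype.ext (conv_add_right _ _ _)
    right_distrib := fun c d e => Subtype.ext (conv_add_left _ _ _)
    zero_mul := fun c => Subtype.ext (by
      have := conv_smul_left (0 : List (Fin n) → ℂ) c.1 0
      simpa using this)
    mul_zero := fun c => Subtype.ext (by
      have := conv_smul_right c.1 (0 : List (Fin n) → ℂ) 0
      simpa using this)
    mul_assoc := fun c d e => Subtype.ext (conv_assoc _ _ _)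
    one_mul := fun c => Subtype.ext (one_conv _)
    mul_one := fun c => Subtype.ext (conv_one _) }

instance : Algebra ℂ (FreeEntire n) :=
  Algebra.ofModule (fun _ _ _ => Subtype.ext (conv_smul_left _ _ _))
    (fun _ _ _ => Subtype.ext (conv_smul_right _ _ _))

/-- The norms `‖c‖_ρ = ∑ |c α| ρ ^ |α|` on `F_n`, for `ρ > 0`. -/
noncomputable def entireNorm (n : ℕ) (ρ : {ρ : ℝ // 0 < ρ}) : Seminorm ℂ (FreeEntire n) where
  toFun c := ∑' α, ‖c.1 α‖ * (ρ : ℝ) ^ α.length
  map_zero' := by simp
  add_le' c d := by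
    rw [← (c.2 ρ ρ.2).tsum_add (d.2 ρ ρ.2)]
    refine ((c + d).2 ρ ρ.2).tsum_le_tsum (fun α => ?_) ((c.2 ρ ρ.2).add (d.2 ρ ρ.2))
    rw [← add_mul]
    exact mul_le_mul_of_nonneg_right (norm_add_le _ _) (pow_nonneg ρ.2.le _)
  neg' c := by simp
  smul' a c := by
    rw [← tsum_mul_left]
    refine tsum_congr fun α => ?_
    simp [mul_assoc]

/-- The topology of `F_n` is the one defined by the norms `‖·‖_ρ`. -/
noncomputable instance : TopologicalSpace (FreeEntire n) :=
  SeminormFamily.moduleFilterBasis (𝕜 := ℂ) (entireNorm n) |>.topology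

lemma entire_withSeminorms : WithSeminorms (𝕜 := ℂ) (entireNorm n) := ⟨rfl⟩

end Pool.Agent.Lib.Helper29.HFG
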