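import Pool.Agent.Lib.Helper29.HFG.Entire

set_option autoImplicit false

open Finset Filter Topology

namespace Pool.Agent.Lib.Helper29.HFG

variable {n : ℕ}

lemma entireNorm_apply (ρ : {ρ : ℝ // 0 < ρ}) (c : FreeEntire n) :
    entireNorm n ρ c = ∑' α, ‖c.1 α‖ * (ρ : ℝ) ^ α.length := rfl

lemma entireNorm_mul_le (ρ : {ρ : ℝ // 0 < ρ}) (c d : FreeEntire n) :
    entireNorm n ρ (c * d) ≤ entireNorm n ρ c * entireNorm n ρ d :=
  wnorm_conv_le ρ.2 (c.2 ρ ρ.2) (d.2 ρ ρ.2)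

lemma entireNorm_mono {ρ ρ' : {ρ : ℝ // 0 < ρ}} (h : ρ.1 ≤ ρ'.1) (c : FreeEntire n) :
    entireNorm n ρ c ≤ entireNorm n ρ' c := by
  refine (c.2 ρ ρ.2).tsum_le_tsum (fun α => ?_) (c.2 ρ' ρ'.2)
  exact mul_le_mul_of_nonneg_left (pow_le_pow_left₀ ρ.2.le h _) (norm_nonneg _)

lemma entireNorm_one (ρ : {ρ : ℝ // 0 < ρ}) : entireNorm n ρ 1 = 1 := by
  rw [entireNorm_apply, tsum_eq_single []]
  · simp [oneFn]
  · intro α hα; simp [oneFn, hα]

lemma entireNorm_pow_le (ρ : {ρ : ℝ // 0 < ρ}) (c : FreeEntire n) (k : ℕ) :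
    entireNorm n ρ (c ^ k) ≤ entireNorm n ρ c ^ k := by
  induction k with
  | zero => simp [entireNorm_one]
  | succ k ih =>
    rw [pow_succ, pow_succ]
    exact (entireNorm_mul_le ρ _ _).trans (mul_le_mul_of_nonneg_right ih (apply_nonneg _ _))

lemma norm_coeff_le (ρ : {ρ : ℝ // 0 < ρ}) (c : FreeEntire n) (α : List (Fin n)) :
    ‖c.1 α‖ * (ρ : ℝ) ^ α.length ≤ entireNorm n ρ c :=
  (c.2 ρ ρ.2).le_tsum α fun _ _ => mul_nonneg (norm_nonneg _) (pow_nonneg ρ.2.le _)

/-- the generators `ζ_i` -/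
def gen (i : Fin n) : FreeEntire n :=
  ⟨fun α => if α = [i] then 1 else 0, by
    intro ρ _
    refine summable_of_ne_finset_zero (s := {[i]}) fun α hα => ?_
    simp only [Finset.mem_singleton] at hα
    simp [hα]⟩

lemma entireNorm_gen (ρ : {ρ : ℝ // 0 < ρ}) (i : Fin n) : entireNorm n ρ (gen i) = ρ := by
  rw [entireNorm_apply, tsum_eq_single [i]]
  · simp [gen]
  · intro α hα; simp [gen, hα]

section Eval

variable {B : Type*} [NormedRing B] [NormedAlgebra ℂ B] [CompleteSpace B]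

/-- value of a word -/
def wd (a : Fin n → B) (α : List (Fin n)) : B := (α.map a).prod

/-- a radius -/
noncomputable def rad (a : Fin n → B) : ℝ := 1 + ∑ i, ‖a i‖

lemma rad_pos (a : Fin n → B) : 0 < rad a := by unfold rad; positivity

lemma norm_le_rad (a : Fin n → B) (i : Fin n) : ‖a i‖ ≤ rad a := by
  unfold rad
  have : ‖a i‖ ≤ ∑ i, ‖a i‖ := Finset.single_le_sum (f := fun i => ‖a i‖) (fun _ _ => norm_nonneg _)
    (Finset.mem_univ i)
  linarith

lemma norm_wd_le (a : Fin n → B) (α : List (Fin n)) : ‖wd a α‖ ≤ ‖(1 : B)‖ * rad a ^ α.length := by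
  unfold wd
  induction α with
  | nil => simp
  | cons x α ih =>
    rw [List.map_cons, List.prod_cons, List.length_cons, pow_succ]
    calc ‖a x * (α.map a).prod‖ ≤ ‖a x‖ * ‖(α.map a).prod‖ := norm_mul_le _ _
      _ ≤ rad a * (‖(1 : B)‖ * rad a ^ α.length) :=
        mul_le_mul (norm_le_rad a x) ih (norm_nonneg _) (rad_pos a).le
      _ = _ := by ring

lemma wd_append (a : Fin n → B) (α β : List (Fin n)) : wd a (α ++ β) = wd a α * wd a β := by
  simp [wd]

lemma summable_norm_eval (a : Fin n → B) (c : FreeEntire n) :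
    Summable (fun α => ‖c.1 α • wd a α‖) := by
  refine Summable.of_nonneg_of_le (fun _ => norm_nonneg _) (fun α => ?_)
    ((c.2 (rad a) (rad_pos a)).mul_left ‖(1 : B)‖)
  rw [norm_smul]
  calc ‖c.1 α‖ * ‖wd a α‖ ≤ ‖c.1 α‖ * (‖(1 : B)‖ * rad a ^ α.length) :=
        mul_le_mul_of_nonneg_left (norm_wd_le a α) (norm_nonneg _)
    _ = _ := by ring

lemma summable_eval (a : Fin n → B) (c : FreeEntire n) : Summable (fun α => c.1 α • wd a α) :=
  (summable_norm_eval a c).of_norm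

/-- evaluation -/
noncomputable def evalFn (a : Fin n → B) (c : FreeEntire n) : B := ∑' α, c.1 α • wd a α

lemma evalFn_mul (a : Fin n → B) (c d : FreeEntire n) :
    evalFn a (c * d) = evalFn a c * evalFn a d := by
  have h1 := tsum_mul_tsum_of_summable_norm (summable_norm_eval a c) (summable_norm_eval a d)
  have hs := summable_mul_of_summable_norm (summable_norm_eval a c) (summable_norm_eval a d)
  unfold evalFn
  rw [h1, ← (splitEquiv n).tsum_eq]
  have hs' := (splitEquiv n).summable_iff.mpr hs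
  have h2 := hs'.tsum_sigma
  rw [show (∑' x, (fun z : List (Fin n) × List (Fin n) => c.1 z.1 • wd a z.1 * d.1 z.2 • wd a z.2)
      (splitEquiv n x)) = ∑' x, ((fun z : List (Fin n) × List (Fin n) =>
        c.1 z.1 • wd a z.1 * d.1 z.2 • wd a z.2) ∘ (splitEquiv n)) x from rfl, h2]
  refine tsum_congr fun α => ?_
  rw [tsum_fintype, coe_mul, conv_eq_sum_fin, Finset.sum_smul]
  refine Finset.sum_congr rfl fun i _ => ?_
  have h3 : wd a α = wd a (α.take i) * wd a (α.drop i) := by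
    rw [← wd_append, List.take_append_drop]
  rw [h3]
  simp only [Function.comp, splitEquiv, Equiv.coe_fn_mk]
  rw [smul_mul_smul_comm]

/-- evaluation of free entire functions in a Banach algebra -/
noncomputable def evalHom (a : Fin n → B) : FreeEntire n →ₐ[ℂ] B :=
  AlgHom.ofLinearMap
    { toFun := evalFn a
      map_add' := fun c d => by
        unfold evalFn
        rw [← (summable_eval a c).tsum_add (summable_eval a d)]
        refine tsum_congr fun α => ?_
        rw [← add_smul]; rfl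
      map_smul' := fun r c => by
        unfold evalFn
        rw [RingHom.id_apply, ← (summable_eval a c).tsum_const_smul]
        refine tsum_congr fun α => ?_
        rw [smul_smul]; rfl }
    (by
      change evalFn a 1 = 1
      unfold evalFn
      rw [tsum_eq_single []]
      · simp [oneFn, wd]
      · intro α hα; simp [oneFn, hα])
    (fun c d => evalFn_mul a c d)

lemma evalHom_apply (a : Fin n → B) (c : FreeEntire n) : evalHom a c = ∑' α, c.1 α • wd a α := rfl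

lemma evalHom_gen (a : Fin n → B) (i : Fin n) : evalHom a (gen i) = a i := by
  rw [evalHom_apply, tsum_eq_single [i]]
  · simp [gen, wd]
  · intro α hα; simp [gen, hα]

lemma norm_evalHom_le (a : Fin n → B) (c : FreeEntire n) :
    ‖evalHom a c‖ ≤ ‖(1 : B)‖ * entireNorm n ⟨rad a, rad_pos a⟩ c := by
  rw [evalHom_apply, entireNorm_apply, ← tsum_mul_left]
  refine (norm_tsum_le_tsum_norm (summable_norm_eval a c)).trans ?_
  refine (summable_norm_eval a c).tsum_le_tsum (fun α => ?_)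
    ((c.2 (rad a) (rad_pos a)).mul_left ‖(1 : B)‖)
  rw [norm_smul]
  calc ‖c.1 α‖ * ‖wd a α‖ ≤ ‖c.1 α‖ * (‖(1 : B)‖ * rad a ^ α.length) :=
        mul_le_mul_of_nonneg_left (norm_wd_le a α) (norm_nonneg _)
    _ = _ := by ring

end Eval

/-- convergent series in `F_n` -/
lemma exists_entire_tsum {P : ℕ → FreeEntire n}
    (hP : ∀ ρ : {ρ : ℝ // 0 < ρ}, Summable fun k => entireNorm n ρ (P k)) :
    ∃ Q : FreeEntire n, (∀ ρ, entireNorm n ρ Q ≤ ∑' k, entireNorm n ρ (P k)) ∧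
      (∀ α, HasSum (fun k => (P k).1 α) (Q.1 α)) ∧
      ∀ ρ, Tendsto (fun N => entireNorm n ρ (Q - ∑ k ∈ range N, P k)) atTop (𝓝 0) := by
  have hsum : ∀ α, Summable fun k => (P k).1 α := by
    intro α
    refine Summable.of_norm_bounded (hP ⟨1, one_pos⟩) fun k => ?_
    simpa using norm_coeff_le ⟨1, one_pos⟩ (P k) α
  -- double summability
  have hdbl : ∀ ρ : {ρ : ℝ // 0 < ρ}, Summable fun x : ℕ × List (Fin n) =>
      ‖(P x.1).1 x.2‖ * (ρ : ℝ) ^ x.2.length := by
    intro ρ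
    refine (summable_prod_of_nonneg (fun x => ?_)).mpr ⟨fun k => (P k).2 ρ ρ.2, ?_⟩
    · exact mul_nonneg (norm_nonneg _) (pow_nonneg ρ.2.le _)
    · exact hP ρ
  have hdbl' : ∀ ρ : {ρ : ℝ // 0 < ρ}, Summable fun x : List (Fin n) × ℕ =>
      ‖(P x.2).1 x.1‖ * (ρ : ℝ) ^ x.1.length := fun ρ => (hdbl ρ).prod_symm
  have key : ∀ (ρ : {ρ : ℝ // 0 < ρ}), Summable (fun α => ‖∑' k, (P k).1 α‖ * (ρ : ℝ) ^ α.length) ∧
      (∑' α, ‖∑' k, (P k).1 α‖ * (ρ : ℝ) ^ α.length) ≤ ∑' k, entireNorm n ρ (P k) := by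
    intro ρ
    have h1 : Summable fun α => ∑' k, ‖(P k).1 α‖ * (ρ : ℝ) ^ α.length :=
      (hdbl' ρ).prod
    have h2 : ∀ α, ‖∑' k, (P k).1 α‖ * (ρ : ℝ) ^ α.length ≤
        ∑' k, ‖(P k).1 α‖ * (ρ : ℝ) ^ α.length := by
      intro α
      rw [tsum_mul_right]
      refine mul_le_mul_of_nonneg_right ?_ (pow_nonneg ρ.2.le _)
      refine norm_tsum_le_tsum_norm ?_
      refine Summable.of_nonneg_of_le (fun _ => norm_nonneg _) (fun k => ?_) (hP ⟨1, one_pos⟩)
      simpa using norm_coeff_le ⟨1, one_pos⟩ (P k) α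
    have h3 : Summable (fun α => ‖∑' k, (P k).1 α‖ * (ρ : ℝ) ^ α.length) :=
      Summable.of_nonneg_of_le (fun α => mul_nonneg (norm_nonneg _) (pow_nonneg ρ.2.le _)) h2 h1
    refine ⟨h3, (h3.tsum_le_tsum h2 h1).trans (le_of_eq ?_)⟩
    rw [← (hdbl' ρ).tsum_prod]
    rw [← (Equiv.prodComm ℕ (List (Fin n))).tsum_eq]
    exact (hdbl ρ).tsum_prod
  refine ⟨⟨fun α => ∑' k, (P k).1 α, fun ρ hρ => (key ⟨ρ, hρ⟩).1⟩, fun ρ => (key ρ).2,
    fun α => (hsum α).hasSum, fun ρ => ?_⟩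
  have htail : Tendsto (fun N => ∑' k, entireNorm n ρ (P (k + N))) atTop (𝓝 0) :=
    tendsto_sum_nat_add (fun k => entireNorm n ρ (P k))
  refine squeeze_zero (fun N => apply_nonneg _ _) (fun N => ?_) htail
  -- apply the key estimate to the shifted sequence
  have hP' : Summable fun k => entireNorm n ρ (P (k + N)) :=
    (summable_nat_add_iff (f := fun k => entireNorm n ρ (P k)) N).mpr (hP ρ)
  have hcoe : ∀ α, ((⟨fun α => ∑' k, (P k).1 α, fun ρ hρ => (key ⟨ρ, hρ⟩).1⟩ -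
      ∑ k ∈ range N, P k : FreeEntire n)).1 α = ∑' k, (P (k + N)).1 α := by
    intro α
    have h1 := (hsum α).sum_add_tsum_nat_add N
    have h2 : (∑ k ∈ range N, P k : FreeEntire n).1 α = ∑ k ∈ range N, (P k).1 α := by
      rw [show (∑ k ∈ range N, P k : FreeEntire n).1 = ∑ k ∈ range N, (P k).1 from
        Submodule.coe_sum _ _ _, Finset.sum_apply]
    change (∑' k, (P k).1 α) - (∑ k ∈ range N, P k : FreeEntire n).1 α = _
    rw [h2, ← h1]; ring
  rw [entireNorm_apply]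
  simp only [hcoe]
  -- double sum again
  have hdb2 : Summable fun x : ℕ × List (Fin n) =>
      ‖(P (x.1 + N)).1 x.2‖ * (ρ : ℝ) ^ x.2.length := by
    refine (summable_prod_of_nonneg (fun x => ?_)).mpr ⟨fun k => (P (k + N)).2 ρ ρ.2, ?_⟩
    · exact mul_nonneg (norm_nonneg _) (pow_nonneg ρ.2.le _)
    · exact hP'
  have hdb3 : Summable fun x : List (Fin n) × ℕ =>
      ‖(P (x.2 + N)).1 x.1‖ * (ρ : ℝ) ^ x.1.length := hdb2.prod_symm
  have h1 : Summable fun α => ∑' k, ‖(P (k + N)).1 α‖ * (ρ : ℝ) ^ α.length := hdb3.prod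
  have h2 : ∀ α, ‖∑' k, (P (k + N)).1 α‖ * (ρ : ℝ) ^ α.length ≤
      ∑' k, ‖(P (k + N)).1 α‖ * (ρ : ℝ) ^ α.length := by
    intro α
    rw [tsum_mul_right]
    refine mul_le_mul_of_nonneg_right ?_ (pow_nonneg ρ.2.le _)
    refine norm_tsum_le_tsum_norm ?_
    refine Summable.of_nonneg_of_le (fun _ => norm_nonneg _) (fun k => ?_)
      ((summable_nat_add_iff (f := fun k => entireNorm n ⟨1, one_pos⟩ (P k)) N).mpr
        (hP ⟨1, one_pos⟩))
    simpa using norm_coeff_le ⟨1, one_pos⟩ (P (k + N)) α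
  have h3 : Summable (fun α => ‖∑' k, (P (k + N)).1 α‖ * (ρ : ℝ) ^ α.length) :=
    Summable.of_nonneg_of_le (fun α => mul_nonneg (norm_nonneg _) (pow_nonneg ρ.2.le _)) h2 h1
  refine (h3.tsum_le_tsum h2 h1).trans (le_of_eq ?_)
  rw [← hdb3.tsum_prod, ← (Equiv.prodComm ℕ (List (Fin n))).tsum_eq]
  exact hdb2.tsum_prod

end Pool.Agent.Lib.Helper29.HFG
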