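import Pool.Agent.Lib.Helper29.HFG.Tensor2

set_option autoImplicit false

open Finset Filter Topology

namespace Pool.Agent.Lib.Helper29.HFG

/-! ### continuity of the multiplication -/

section

variable {G : Type} [Ring G] [UniformSpace G] [ContinuousAdd G] [ContinuousMul G]

lemma continuous_lt {G : Type} [TopologicalSpace G] (x : Lt) :
    Continuous (lt x : (List Lt → G) → (List Lt → G)) :=
  continuous_pi fun _ => continuous_apply _

lemma continuous_cvA (m : List Lt) :
    Continuous fun x : (List Lt → G) × (List Lt → G) => cvA m x.1 x.2 := by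
  induction m with
  | nil =>
    exact ((continuous_apply _).comp continuous_fst).mul ((continuous_apply _).comp continuous_snd)
  | cons x m ih =>
    simp only [cvA_cons]
    refine continuous_finsetSum _ fun l _ => ?_
    exact ih.comp (((continuous_lt _).comp continuous_fst).prodMk
      ((continuous_lt _).comp continuous_snd))

instance instContinuousMulRT [Algebra ℂ G] : ContinuousMul (RT G) := ⟨by
  refine continuous_mk fun m => ?_
  exact (continuous_cvA m).comp ((continuous_val.comp continuous_fst).prodMk
    (continuous_val.comp continuous_snd))⟩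

end

/-! ### tensor products of elements -/

section

variable {G : Type} [Ring G] [Algebra ℂ G]

lemma cvA_smul_smul (m : List Lt) (a c : List Lt → ℂ) (b d : G) :
    cvA m (fun p => a p • b) (fun p => c p • d) = cvA m a c • (b * d) := by
  induction m generalizing a c with
  | nil => exact smul_mul_smul_comm _ _ _ _
  | cons x m ih =>
    rw [cvA_cons, cvA_cons, Finset.sum_smul]
    exact Finset.sum_congr rfl fun l _ => ih _ _

lemma tm_mul_tm (a c : RT ℂ) (b d : G) : tm G a b * tm G c d = tm G (a * c) (b * d) :=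
  RT.ext (funext fun m => cvA_smul_smul m a.1 c.1 b d)

lemma oneR_smul_one (m : List Lt) : (oneR m : ℂ) • (1 : G) = oneR m := by
  induction m with
  | nil => exact one_smul _ _
  | cons x m ih =>
    change (if x.2.1 = x.2.2 then oneR m else 0 : ℂ) • (1 : G) = if x.2.1 = x.2.2 then oneR m else 0
    split_ifs
    · exact ih
    · exact zero_smul _ _

lemma tm_one_one : tm G 1 1 = 1 := RT.ext (funext fun m => oneR_smul_one m)

end

/-! ### splitting of words -/

section

variable {G : Type} [AddCommGroup G] [Module ℂ G]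

lemma isRep_split_inner {f : List Lt → G} (hf : IsRep f) (m : List Lt) :
    IsRep fun m' => f (m ++ m') := by
  intro u v d k i j
  have := hf (m ++ u) v d k i j
  simp only [List.append_assoc] at this
  exact this

lemma isRep_split {f : List Lt → G} (hf : IsRep f) :
    IsRep fun m => (⟨fun m' => f (m ++ m'), isRep_split_inner hf m⟩ : RT G) := by
  intro u v d k i j
  apply RT.ext
  funext m'
  rw [rep_sum_coe]
  have := hf u (v ++ m') d k i j
  split_ifs with h
  · rw [if_pos h] at this
    simpa only [List.append_assoc, List.cons_append] using this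
  · rw [if_neg h] at this
    change _ = (0 : G)
    simpa only [List.append_assoc, List.cons_append] using this

/-- splitting of words -/
def split (G : Type) [AddCommGroup G] [Module ℂ G] : RT G →ₗ[ℂ] RT (RT G) where
  toFun f := ⟨fun m => ⟨fun m' => f.1 (m ++ m'), isRep_split_inner f.2 m⟩, isRep_split f.2⟩
  map_add' _ _ := rfl
  map_smul' _ _ := rfl

lemma split_apply (f : RT G) (m m' : List Lt) : ((split G f).1 m).1 m' = f.1 (m ++ m') := rfl

/-- composition with a linear map -/
def postc {G' : Type} [AddCommGroup G'] [Module ℂ G'] (T : G →ₗ[ℂ] G') : RT G →ₗ[ℂ] RT G' where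
  toFun f := ⟨fun m => T (f.1 m), fun u v d k i j => by
    rw [← map_sum, f.2 u v d k i j]
    split_ifs
    · rfl
    · exact map_zero T⟩
  map_add' _ _ := RT.ext (funext fun _ => map_add T _ _)
  map_smul' _ _ := RT.ext (funext fun _ => map_smul T _ _)

lemma postc_apply {G' : Type} [AddCommGroup G'] [Module ℂ G'] (T : G →ₗ[ℂ] G') (f : RT G)
    (m : List Lt) : (postc T f).1 m = T (f.1 m) := rfl

variable [UniformSpace G]

lemma continuous_split : Continuous (split G) := by
  refine continuous_mk fun m => continuous_mk fun m' => ?_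
  exact continuous_coord (m ++ m')

lemma continuous_postc {G' : Type} [AddCommGroup G'] [Module ℂ G'] [UniformSpace G']
    (T : G →ₗ[ℂ] G') (hT : Continuous T) : Continuous (postc T) := by
  refine continuous_mk fun m => ?_
  exact hT.comp (continuous_coord m)

end

/-! ### comultiplication -/

lemma split_mul (f g : RT ℂ) : split ℂ (f * g) = split ℂ f * split ℂ g := by
  have key : ∀ (m : List Lt) (f g : RT ℂ) (m' : List Lt),
      cvA (m ++ m') f.1 g.1 = (cvA m (split ℂ f).1 (split ℂ g).1).1 m' := by
    intro m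
    induction m with
    | nil => intro f g m'; rfl
    | cons x m ih =>
      intro f g m'
      rw [List.cons_append, cvA_cons, cvA_cons, rep_sum_coe]
      exact Finset.sum_congr rfl fun l _ =>
        ih ⟨lt (x.1, x.2.1, l) f.1, f.2.lt _⟩ ⟨lt (x.1, l, x.2.2) g.1, g.2.lt _⟩ m'
  exact RT.ext (funext fun m => RT.ext (funext fun m' => key m f g m'))

lemma split_one : split ℂ 1 = 1 := by
  have key : ∀ (m m' : List Lt), (oneR (m ++ m') : ℂ) = ((oneR m : RT ℂ)).1 m' := by
    intro m
    induction m with
    | nil => intro m'; rfl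
    | cons x m ih =>
      intro m'
      change (if x.2.1 = x.2.2 then oneR (m ++ m') else 0 : ℂ) =
        ((if x.2.1 = x.2.2 then oneR m else 0 : RT ℂ)).1 m'
      split_ifs
      · exact ih m'
      · rfl
  exact RT.ext (funext fun m => RT.ext (funext fun m' => key m m'))

/-- comultiplication -/
def comulH : RT ℂ →ₐ[ℂ] RT (RT ℂ) := AlgHom.ofLinearMap (split ℂ) split_one split_mul

/-- counit -/
def counitH : RT ℂ →ₐ[ℂ] ℂ := AlgHom.ofLinearMap
  { toFun := fun f => f.1 []
    map_add' := fun _ _ => rfl
    map_smul' := fun _ _ => rfl } rfl fun _ _ => rfl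

/-! ### antipode -/

/-- the antipode on letters -/
def sg (x : Lt) : Lt := (x.1 + 1, x.2.2, x.2.1)

/-- the antipode on words -/
def sgw (m : List Lt) : List Lt := (m.map sg).reverse

lemma sgw_append (u v : List Lt) : sgw (u ++ v) = sgw v ++ sgw u := by
  simp [sgw]

lemma sgw_cons (x : Lt) (v : List Lt) : sgw (x :: v) = sgw v ++ [sg x] := by
  simp [sgw]

lemma sgw_nil : sgw [] = [] := rfl

lemma sg_px (d : Bool) (k : ℕ) (i l : Ix) : sg (px d k i l) = py (!d) (k + 1) i l := by
  cases d <;> rfl

lemma sg_py (d : Bool) (k : ℕ) (j l : Ix) : sg (py d k j l) = px (!d) (k + 1) j l := by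
  cases d <;> rfl

/-- the antipode as a linear map -/
def antiH : RT ℂ →ₗ[ℂ] RT ℂ where
  toFun f := ⟨fun m => f.1 (sgw m), fun u v d k i j => by
    have := f.2 (sgw v) (sgw u) (!d) (k + 1) j i
    simp only [sgw_append, sgw_cons, sg_px, sg_py, List.append_assoc, List.cons_append,
      List.nil_append]
    rw [this]
    simp only [eq_comm]⟩
  map_add' _ _ := rfl
  map_smul' _ _ := rfl

lemma antiH_apply (f : RT ℂ) (m : List Lt) : (antiH f).1 m = f.1 (sgw m) := rfl

lemma continuous_antiH : Continuous antiH := by
  refine continuous_mk fun m => ?_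
  exact continuous_coord (sgw m)

/-- evaluation of `m (S ⊗ id)` -/
def Lw : List Lt → (List Lt → List Lt → ℂ) → ℂ
  | [], F => F [] []
  | (x :: m), F => ∑ l, Lw m fun p q => F (p ++ [(x.1 + 1, l, x.2.1)]) ((x.1, l, x.2.2) :: q)

lemma Lw_cons (x : Lt) (m : List Lt) (F : List Lt → List Lt → ℂ) : Lw (x :: m) F =
    ∑ l, Lw m fun p q => F (p ++ [(x.1 + 1, l, x.2.1)]) ((x.1, l, x.2.2) :: q) := rfl

/-- evaluation of `m (id ⊗ S)` -/
def Rw : List Lt → (List Lt → List Lt → ℂ) → ℂ
  | [], F => F [] []
  | (x :: m), F => ∑ l, Rw m fun p q => F ((x.1, x.2.1, l) :: p) (q ++ [(x.1 + 1, x.2.2, l)])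

lemma Rw_cons (x : Lt) (m : List Lt) (F : List Lt → List Lt → ℂ) : Rw (x :: m) F =
    ∑ l, Rw m fun p q => F ((x.1, x.2.1, l) :: p) (q ++ [(x.1 + 1, x.2.2, l)]) := rfl

lemma Lw_pure (m : List Lt) (a b : List Lt → ℂ) :
    Lw m (fun p q => a p * b q) = cvA m (fun p => a (sgw p)) b := by
  induction m generalizing a b with
  | nil => rfl
  | cons x m ih =>
    rw [Lw_cons, cvA_cons]
    refine Finset.sum_congr rfl fun l _ => ?_
    rw [ih (fun p => a (p ++ [(x.1 + 1, l, x.2.1)])) (fun q => b ((x.1, l, x.2.2) :: q))]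
    congr 1
    funext p
    change a (sgw p ++ [sg (x.1, x.2.1, l)]) = a (sgw ((x.1, x.2.1, l) :: p))
    rw [sgw_cons]

lemma Rw_pure (m : List Lt) (a b : List Lt → ℂ) :
    Rw m (fun p q => a p * b q) = cvA m a (fun q => b (sgw q)) := by
  induction m generalizing a b with
  | nil => rfl
  | cons x m ih =>
    rw [Rw_cons, cvA_cons]
    refine Finset.sum_congr rfl fun l _ => ?_
    rw [ih (fun p => a ((x.1, x.2.1, l) :: p)) (fun q => b (q ++ [(x.1 + 1, x.2.2, l)]))]
    congr 1
    funext p
    change b (sgw p ++ [sg (x.1, l, x.2.2)]) = b (sgw ((x.1, l, x.2.2) :: p))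
    rw [sgw_cons]

lemma Lw_add (m : List Lt) (F F' : List Lt → List Lt → ℂ) : Lw m (F + F') = Lw m F + Lw m F' := by
  induction m generalizing F F' with
  | nil => rfl
  | cons x m ih =>
    simp only [Lw_cons]
    rw [← Finset.sum_add_distrib]
    exact Finset.sum_congr rfl fun l _ => ih _ _

lemma Rw_add (m : List Lt) (F F' : List Lt → List Lt → ℂ) : Rw m (F + F') = Rw m F + Rw m F' := by
  induction m generalizing F F' with
  | nil => rfl
  | cons x m ih =>
    simp only [Rw_cons]
    rw [← Finset.sum_add_distrib]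
    exact Finset.sum_congr rfl fun l _ => ih _ _

lemma Lw_smul (a : ℂ) (m : List Lt) (F : List Lt → List Lt → ℂ) : Lw m (a • F) = a • Lw m F := by
  induction m generalizing F with
  | nil => rfl
  | cons x m ih =>
    simp only [Lw_cons]
    rw [Finset.smul_sum]
    exact Finset.sum_congr rfl fun l _ => ih _

lemma Rw_smul (a : ℂ) (m : List Lt) (F : List Lt → List Lt → ℂ) : Rw m (a • F) = a • Rw m F := by
  induction m generalizing F with
  | nil => rfl
  | cons x m ih =>
    simp only [Rw_cons]
    rw [Finset.smul_sum]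
    exact Finset.sum_congr rfl fun l _ => ih _

lemma Lw_zero (m : List Lt) : Lw m 0 = 0 := by
  have := Lw_add m 0 0
  simpa using this

lemma Lw_sum {ι : Type*} (s : Finset ι) (m : List Lt) (F : ι → List Lt → List Lt → ℂ) :
    ∑ l ∈ s, Lw m (F l) = Lw m (fun p q => ∑ l ∈ s, F l p q) := by
  classical
  induction s using Finset.induction_on with
  | empty => simp only [Finset.sum_empty]; exact (Lw_zero m).symm
  | insert a s ha ih =>
    rw [Finset.sum_insert ha, ih, ← Lw_add]
    congr 1
    funext p q
    rw [Finset.sum_insert ha]; rfl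

lemma continuous_Lw (m : List Lt) : Continuous (Lw m) := by
  induction m with
  | nil => exact (continuous_apply _).comp (continuous_apply _)
  | cons x m ih =>
    refine continuous_finsetSum _ fun l _ => ih.comp ?_
    exact continuous_pi fun p => continuous_pi fun q => (continuous_apply _).comp (continuous_apply _)

lemma continuous_Rw (m : List Lt) : Continuous (Rw m) := by
  induction m with
  | nil => exact (continuous_apply _).comp (continuous_apply _)
  | cons x m ih =>
    refine continuous_finsetSum _ fun l _ => ih.comp ?_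
    exact continuous_pi fun p => continuous_pi fun q => (continuous_apply _).comp (continuous_apply _)

lemma Lw_comul (m : List Lt) (h : RT ℂ) : Lw m (fun p q => h.1 (p ++ q)) = h.1 [] * oneR m := by
  induction m with
  | nil => exact (mul_one _).symm
  | cons x m ih =>
    rw [Lw_cons, Lw_sum]
    have e1 : (fun p q => ∑ l, h.1 ((p ++ [(x.1 + 1, l, x.2.1)]) ++ (x.1, l, x.2.2) :: q)) =
        fun p q => if x.2.1 = x.2.2 then h.1 (p ++ q) else 0 := by
      funext p q
      have := h.2 p q false x.1 x.2.1 x.2.2
      simpa [px, py] using this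
    rw [e1]
    change _ = h.1 [] * (if x.2.1 = x.2.2 then oneR m else 0)
    split_ifs
    · exact ih
    · rw [mul_zero]; exact Lw_zero m

lemma Rw_comul (m : List Lt) (h : RT ℂ) (u v : List Lt) :
    Rw m (fun p q => h.1 (u ++ (p ++ q) ++ v)) = h.1 (u ++ v) * oneR m := by
  induction m generalizing u v with
  | nil => simp [Rw, oneR]
  | cons x m ih =>
    rw [Rw_cons]
    have e1 : ∀ l, (Rw m fun p q => h.1 (u ++ ((x.1, x.2.1, l) :: p ++
        (q ++ [(x.1 + 1, x.2.2, l)])) ++ v)) =
        h.1 (u ++ (x.1, x.2.1, l) :: (x.1 + 1, x.2.2, l) :: v) * oneR m := by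
      intro l
      have := ih (u ++ [(x.1, x.2.1, l)]) ((x.1 + 1, x.2.2, l) :: v)
      simpa using this
    simp only [e1]
    rw [← Finset.sum_mul]
    have e2 := h.2 u v true x.1 x.2.1 x.2.2
    have e3 : ∑ l, h.1 (u ++ (x.1, x.2.1, l) :: (x.1 + 1, x.2.2, l) :: v) =
        if x.2.1 = x.2.2 then h.1 (u ++ v) else 0 := by
      simpa [px, py] using e2
    rw [e3]
    change _ = h.1 (u ++ v) * (if x.2.1 = x.2.2 then oneR m else 0)
    split_ifs <;> simp

end Pool.Agent.Lib.Helper29.HFG
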