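import Pool.Agent.Lib.Helper29.HFG.Hopf

set_option autoImplicit false

open Finset Filter Topology

namespace Pool.Agent.Lib.Helper29.HFG

instance instSTRep {G : Type} [Ring G] [Algebra ℂ G] : IsScalarTower ℂ (RT G) (RT G) :=
  ⟨fun a x y => RT.ext (funext fun m => cvA_smul_left a m x.1 y.1)⟩

instance instSCRep {G : Type} [Ring G] [Algebra ℂ G] : SMulCommClass ℂ (RT G) (RT G) :=
  ⟨fun a x y => RT.ext (funext fun m => (cvA_smul_right a m x.1 y.1).symm)⟩

/-- `(a, b) ↦ S a * b` -/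
def bilL : RT ℂ →ₗ[ℂ] RT ℂ →ₗ[ℂ] RT ℂ :=
  LinearMap.mk₂ ℂ (fun a b => antiH a * b)
    (fun a a' b => by rw [map_add, add_mul])
    (fun c a b => by rw [map_smul, smul_mul_assoc])
    (fun a b b' => by rw [mul_add])
    (fun c a b => by rw [mul_smul_comm])

/-- `(a, b) ↦ a * S b` -/
def bilR : RT ℂ →ₗ[ℂ] RT ℂ →ₗ[ℂ] RT ℂ :=
  LinearMap.mk₂ ℂ (fun a b => a * antiH b)
    (fun a a' b => by rw [add_mul])
    (fun c a b => by rw [smul_mul_assoc])
    (fun a b b' => by rw [map_add, mul_add])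
    (fun c a b => by rw [map_smul, mul_smul_comm])

lemma continuous_bilL : Continuous fun x : RT ℂ × RT ℂ => bilL x.1 x.2 := by
  change Continuous fun x : RT ℂ × RT ℂ => antiH x.1 * x.2
  exact (continuous_antiH.comp continuous_fst).mul continuous_snd

lemma continuous_bilR : Continuous fun x : RT ℂ × RT ℂ => bilR x.1 x.2 := by
  change Continuous fun x : RT ℂ × RT ℂ => x.1 * antiH x.2
  exact continuous_fst.mul (continuous_antiH.comp continuous_snd)

lemma continuous_unfold : Continuous fun F : RT (RT ℂ) => fun p q : List Lt => (F.1 p).1 q :=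
  continuous_pi fun p => continuous_pi fun q => (continuous_coord q).comp (continuous_coord p)

/-- the functional `Lw m` on the tensor square -/
def LwC (m : List Lt) : RT (RT ℂ) →L[ℂ] ℂ where
  toFun F := Lw m fun p q => (F.1 p).1 q
  map_add' _ _ := Lw_add m _ _
  map_smul' a _ := Lw_smul a m _
  cont := (continuous_Lw m).comp continuous_unfold

/-- the functional `Rw m` on the tensor square -/
def RwC (m : List Lt) : RT (RT ℂ) →L[ℂ] ℂ where
  toFun F := Rw m fun p q => (F.1 p).1 q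
  map_add' _ _ := Rw_add m _ _
  map_smul' a _ := Rw_smul a m _
  cont := (continuous_Rw m).comp continuous_unfold

/-- evaluation at a word -/
def evw (m : List Lt) : RT ℂ →L[ℂ] ℂ where
  toFun f := f.1 m
  map_add' _ _ := rfl
  map_smul' _ _ := rfl
  cont := continuous_coord m

/-- two continuous functionals on the tensor square that agree on pure tensors are equal -/
lemma functional_ext {L L' : RT (RT ℂ) →L[ℂ] ℂ}
    (h : ∀ a b, L (tm (RT ℂ) a b) = L' (tm (RT ℂ) a b)) : L = L' := by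
  apply ContinuousLinearMap.ext
  intro F
  have h1 := L.hasSum (hasSum_dl F)
  have h2 := L'.hasSum (hasSum_dl F)
  have h3 : (fun n : List Lt => L (tm (RT ℂ) (dl n) (F.1 n))) =
      fun n : List Lt => L' (tm (RT ℂ) (dl n) (F.1 n)) := funext fun n => h _ _
  rw [h3] at h1
  exact h1.unique h2

lemma antipode_left_H : ∃ L : RT (RT ℂ) →L[ℂ] RT ℂ,
    (∀ a b, L (tm (RT ℂ) a b) = antiH a * b) ∧ ∀ h, L (comulH h) = counitH h • 1 := by
  obtain ⟨L, hL, -⟩ := isCompletedTensor_tm.existsUnique_lift (RT ℂ) bilL continuous_bilL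
  refine ⟨L, hL, fun h => ?_⟩
  apply RT.ext
  funext m
  have h1 : (evw m).comp L = LwC m := functional_ext fun a b => by
    change (L (tm (RT ℂ) a b)).1 m = Lw m fun p q => a.1 p * b.1 q
    rw [hL, Lw_pure]
    rfl
  have h2 := congrArg (fun T => T (comulH h)) h1
  change (L (comulH h)).1 m = Lw m fun p q => h.1 (p ++ q) at h2
  rw [h2, Lw_comul]
  rfl

lemma antipode_right_H : ∃ L : RT (RT ℂ) →L[ℂ] RT ℂ,
    (∀ a b, L (tm (RT ℂ) a b) = a * antiH b) ∧ ∀ h, L (comulH h) = counitH h • 1 := by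
  obtain ⟨L, hL, -⟩ := isCompletedTensor_tm.existsUnique_lift (RT ℂ) bilR continuous_bilR
  refine ⟨L, hL, fun h => ?_⟩
  apply RT.ext
  funext m
  have h1 : (evw m).comp L = RwC m := functional_ext fun a b => by
    change (L (tm (RT ℂ) a b)).1 m = Rw m fun p q => a.1 p * b.1 q
    rw [hL, Rw_pure]
    rfl
  have h2 := congrArg (fun T => T (comulH h)) h1
  change (L (comulH h)).1 m = Rw m fun p q => h.1 (p ++ q) at h2
  have h3 := Rw_comul m h [] []
  simp only [List.nil_append, List.append_nil] at h3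
  rw [h2, h3]
  rfl

/-- the linear map `a ⊗ b ↦ a ⊗ (b ⊗ c)` -/
noncomputable def rightH (c : RT ℂ) : RT (RT ℂ) →L[ℂ] RT (RT (RT ℂ)) :=
  ⟨postc ((tm (RT ℂ)).flip c), continuous_postc _ (by
    change Continuous fun a => tm (RT ℂ) a c
    exact continuous_tm.comp (continuous_id.prodMk continuous_const))⟩

lemma coassoc_H : ∃ (idComul comulId : RT (RT ℂ) →L[ℂ] RT (RT (RT ℂ)))
    (right : RT ℂ → RT (RT ℂ) →L[ℂ] RT (RT (RT ℂ))),
    (∀ a b, idComul (tm (RT ℂ) a b) = tm (RT (RT ℂ)) a (comulH b)) ∧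
    (∀ a b c, right c (tm (RT ℂ) a b) = tm (RT (RT ℂ)) a (tm (RT ℂ) b c)) ∧
    (∀ a b, comulId (tm (RT ℂ) a b) = right b (comulH a)) ∧
    ∀ h, idComul (comulH h) = comulId (comulH h) := by
  refine ⟨⟨postc (split ℂ), continuous_postc _ continuous_split⟩,
    ⟨split (RT ℂ), continuous_split⟩, rightH, ?_, ?_, ?_, ?_⟩
  · intro a b
    exact RT.ext (funext fun m => map_smul (split ℂ) _ _)
  · intro a b c
    exact RT.ext (funext fun m => LinearMap.map_smul₂ (tm (RT ℂ)) _ _ _)
  · intro a b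
    rfl
  · intro h
    refine RT.ext (funext fun m => RT.ext (funext fun m' => RT.ext
      (funext fun m'' => ?_)))
    change h.1 (m ++ (m' ++ m'')) = h.1 ((m ++ m') ++ m'')
    rw [List.append_assoc]

lemma counit_left_H : ∃ L : RT (RT ℂ) →L[ℂ] RT ℂ,
    (∀ a b, L (tm (RT ℂ) a b) = counitH a • b) ∧ ∀ h, L (comulH h) = h := by
  refine ⟨⟨{ toFun := fun F => F.1 []
             map_add' := fun _ _ => rfl
             map_smul' := fun _ _ => rfl }, ?_⟩, ?_, ?_⟩
  · exact continuous_coord []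
  · intro a b
    rfl
  · intro h
    exact RT.ext (funext fun m => rfl)

lemma counit_right_H : ∃ L : RT (RT ℂ) →L[ℂ] RT ℂ,
    (∀ a b, L (tm (RT ℂ) a b) = counitH b • a) ∧ ∀ h, L (comulH h) = h := by
  refine ⟨⟨postc (evw []).toLinearMap, continuous_postc _ (evw []).continuous⟩, ?_, ?_⟩
  · intro a b
    refine RT.ext (funext fun m => ?_)
    change a.1 m • b.1 [] = b.1 [] • a.1 m
    rw [smul_eq_mul, smul_eq_mul, mul_comm]
  · intro h
    refine RT.ext (funext fun m => ?_)
    change h.1 (m ++ []) = h.1 m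
    rw [List.append_nil]

end Pool.Agent.Lib.Helper29.HFG
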