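import Mathlib

set_option autoImplicit false

open Finset Matrix

namespace Pool.Agent.Lib.Helper29.HFG

variable {X : Type*} [Fintype X]

/-- projection to a colour class -/
def colProj {κ : Type*} [DecidableEq κ] (c : X → κ) (γ : κ) (v : X → ℂ) : X → ℂ :=
  fun I => if c I = γ then v I else 0

lemma finrank_color_le {κ : Type*} [DecidableEq κ] (c : X → κ) (γ : κ) (R : Submodule ℂ (X → ℂ))
    (hR : ∀ v ∈ R, ∀ I, c I ≠ γ → v I = 0) :
    Module.finrank ℂ R ≤ (univ.filter (fun I => c I = γ)).card := by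
  let L : R →ₗ[ℂ] ({I // c I = γ} → ℂ) :=
    { toFun := fun v I => v.1 I.1
      map_add' := fun _ _ => rfl
      map_smul' := fun _ _ => rfl }
  have hL : Function.Injective L := by
    rw [injective_iff_map_eq_zero]
    intro v hv
    refine Subtype.ext (funext fun I => ?_)
    by_cases h : c I = γ
    · exact congrFun hv ⟨I, h⟩
    · exact hR v.1 v.2 I h
  have h1 := LinearMap.finrank_le_finrank_of_injective hL
  rw [Module.finrank_fintype_fun_eq_card, Fintype.card_subtype] at h1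
  exact h1

lemma exists_family {D : ℕ} (R : Submodule ℂ (X → ℂ)) (hR : Module.finrank ℂ R ≤ D) :
    ∃ r : Fin D → (X → ℂ), (∀ i, r i ∈ R) ∧ R ≤ Submodule.span ℂ (Set.range r) := by
  classical
  let bs := Module.finBasis ℂ R
  refine ⟨fun i => if h : (i : ℕ) < Module.finrank ℂ R then (bs ⟨i, h⟩ : R).1 else 0, ?_, ?_⟩
  · intro i
    by_cases h : (i : ℕ) < Module.finrank ℂ R
    · simp only [h, dif_pos]; exact (bs ⟨i, h⟩).2
    · simp only [h, dif_neg, not_false_eq_true]; exact R.zero_mem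
  · intro v hv
    have h1 := bs.sum_repr ⟨v, hv⟩
    have h2 : v = ∑ i, bs.repr ⟨v, hv⟩ i • (bs i : R).1 := by
      have h3 := congrArg Subtype.val h1
      rw [Submodule.coe_sum] at h3
      exact h3.symm
    rw [h2]
    refine Submodule.sum_mem _ fun i _ => Submodule.smul_mem _ _ (Submodule.subset_span ?_)
    refine ⟨⟨i, lt_of_lt_of_le i.2 hR⟩, ?_⟩
    simp

/-- If a subspace is stable under the projections to colour classes and each colour class has at most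
`D` elements, then it is generated by `D` vectors, up to colour projections. -/
lemma exists_color_gens {κ : Type*} [DecidableEq κ] (c : X → κ) (D : ℕ)
    (hD : ∀ γ, (univ.filter (fun I => c I = γ)).card ≤ D) (R : Submodule ℂ (X → ℂ))
    (hR : ∀ γ, ∀ v ∈ R, colProj c γ v ∈ R) :
    ∃ r : Fin D → (X → ℂ), (∀ i, r i ∈ R) ∧
      R ≤ Submodule.span ℂ {w | ∃ γ i, w = colProj c γ (r i)} := by
  classical
  let S : κ → Submodule ℂ (X → ℂ) := fun γ =>
    { carrier := {v | v ∈ R ∧ ∀ I, c I ≠ γ → v I = 0}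
      zero_mem' := ⟨R.zero_mem, fun _ _ => rfl⟩
      add_mem' := fun {v w} hv hw => ⟨R.add_mem hv.1 hw.1, fun I h => by
        rw [Pi.add_apply, hv.2 I h, hw.2 I h, add_zero]⟩
      smul_mem' := fun a v hv => ⟨R.smul_mem a hv.1, fun I h => by
        rw [Pi.smul_apply, hv.2 I h, smul_zero]⟩ }
  have hS : ∀ γ, ∃ r : Fin D → (X → ℂ), (∀ i, r i ∈ S γ) ∧
      S γ ≤ Submodule.span ℂ (Set.range r) := fun γ =>
    exists_family (S γ) ((finrank_color_le c γ (S γ) (fun v hv => hv.2)).trans (hD γ))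
  choose rr hrr1 hrr2 using hS
  set K := univ.image c with hK
  have hproj : ∀ γ ∈ K, ∀ i, colProj c γ (∑ γ' ∈ K, rr γ' i) = rr γ i := by
    intro γ hγ i
    funext I
    unfold colProj
    by_cases h : c I = γ
    · rw [if_pos h, Finset.sum_apply, Finset.sum_eq_single γ]
      · intro γ' _ hne
        exact (hrr1 γ' i).2 I (by rw [h]; exact hne.symm)
      · intro h'; exact absurd hγ h'
    · rw [if_neg h, (hrr1 γ i).2 I h]
  refine ⟨fun i => ∑ γ ∈ K, rr γ i, fun i => R.sum_mem fun γ _ => (hrr1 γ i).1, ?_⟩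
  intro v hv
  have hv' : v = ∑ γ ∈ K, colProj c γ v := by
    funext I
    rw [Finset.sum_apply, Finset.sum_eq_single (c I)]
    · simp [colProj]
    · intro γ _ hne; simp [colProj, hne.symm]
    · intro h; exact absurd (Finset.mem_image_of_mem c (mem_univ I)) h
  rw [hv']
  refine Submodule.sum_mem _ fun γ hγ => ?_
  have h1 : colProj c γ v ∈ S γ := ⟨hR γ v hv, fun I h => by simp [colProj, h]⟩
  have h2 := hrr2 γ h1
  refine Submodule.span_mono ?_ h2
  rintro _ ⟨i, rfl⟩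
  exact ⟨γ, i, (hproj γ hγ i).symm⟩

/-- dual families -/
def IsDualFam (Δ N : Submodule ℂ (X → ℂ)) {d : ℕ} (b φ : Fin d → X → ℂ) : Prop :=
  (∀ i, b i ∈ Δ) ∧ (∀ i, φ i ∈ N) ∧ ∀ i j, φ i ⬝ᵥ b j = if i = j then 1 else 0

lemma IsDualFam.card_le {Δ N : Submodule ℂ (X → ℂ)} {d : ℕ} {b φ : Fin d → X → ℂ}
    (h : IsDualFam Δ N b φ) : d ≤ Fintype.card X := by
  have hlin : LinearIndependent ℂ b := by
    rw [Fintype.linearIndependent_iff]
    intro g hg i
    have h1 := congrArg (fun v => φ i ⬝ᵥ v) hg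
    simp only [dotProduct_zero, dotProduct_sum, dotProduct_smul, h.2.2, smul_eq_mul, mul_ite, mul_one,
      mul_zero, Finset.sum_ite_eq, Finset.mem_univ, if_true] at h1
    exact h1
  have := hlin.fintype_card_le_finrank
  simpa using this

/-- extension to a maximal dual family -/
lemma exists_max_dualFam (Δ N : Submodule ℂ (X → ℂ)) {D : ℕ} {b₀ φ₀ : Fin D → X → ℂ}
    (h₀ : IsDualFam Δ N b₀ φ₀) :
    ∃ d, D ≤ d ∧ ∃ b φ : Fin d → X → ℂ, IsDualFam Δ N b φ ∧
      ∀ v ∈ Δ, ∀ ψ ∈ N, ψ ⬝ᵥ v = ∑ i, (ψ ⬝ᵥ b i) * (φ i ⬝ᵥ v) := by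
  classical
  let P : ℕ → Prop := fun d => ∃ b φ : Fin d → X → ℂ, IsDualFam Δ N b φ
  have hP : ∀ d, P d → d ≤ Fintype.card X := fun d ⟨b, φ, h⟩ => h.card_le
  set d := Nat.findGreatest P (Fintype.card X) with hd
  have hPd : P d := Nat.findGreatest_spec (P := P) (hP D ⟨b₀, φ₀, h₀⟩) ⟨b₀, φ₀, h₀⟩
  have hDd : D ≤ d := Nat.le_findGreatest (hP D ⟨b₀, φ₀, h₀⟩) ⟨b₀, φ₀, h₀⟩
  obtain ⟨b, φ, h⟩ := hPd
  refine ⟨d, hDd, b, φ, h, ?_⟩
  intro v hv ψ hψ
  by_contra hne
  set v' := v - ∑ i, (φ i ⬝ᵥ v) • b i with hv'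
  set ψ' := ψ - ∑ i, (ψ ⬝ᵥ b i) • φ i with hψ'
  have hv'Δ : v' ∈ Δ := Δ.sub_mem hv (Δ.sum_mem fun i _ => Δ.smul_mem _ (h.1 i))
  have hψ'N : ψ' ∈ N := N.sub_mem hψ (N.sum_mem fun i _ => N.smul_mem _ (h.2.1 i))
  have h1 : ∀ j, φ j ⬝ᵥ v' = 0 := by
    intro j
    rw [hv', dotProduct_sub, dotProduct_sum]
    simp only [dotProduct_smul, h.2.2, smul_eq_mul, mul_ite, mul_one, mul_zero,
      Finset.sum_ite_eq, Finset.mem_univ, if_true, sub_self]
  have h2 : ∀ j, ψ' ⬝ᵥ b j = 0 := by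
    intro j
    rw [hψ', sub_dotProduct, sum_dotProduct]
    simp only [smul_dotProduct, h.2.2, smul_eq_mul, mul_ite, mul_one, mul_zero,
      Finset.sum_ite_eq', Finset.mem_univ, if_true, sub_self]
  have h3 : ψ' ⬝ᵥ v' = ψ ⬝ᵥ v - ∑ i, (ψ ⬝ᵥ b i) * (φ i ⬝ᵥ v) := by
    have e1 : ψ' ⬝ᵥ v' = ψ ⬝ᵥ v' := by
      conv_lhs => rw [hψ']
      rw [sub_dotProduct, sum_dotProduct]
      simp only [smul_dotProduct, h1, smul_zero, Finset.sum_const_zero, sub_zero]
    rw [e1, hv', dotProduct_sub, dotProduct_sum]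
    simp only [dotProduct_smul, smul_eq_mul]
    congr 1
    exact Finset.sum_congr rfl fun i _ => mul_comm _ _
  have h4 : ψ' ⬝ᵥ v' ≠ 0 := by rw [h3]; exact sub_ne_zero.mpr hne
  have hnew : P (d + 1) := by
    refine ⟨Fin.snoc b ((ψ' ⬝ᵥ v')⁻¹ • v'), Fin.snoc φ ψ', ?_, ?_, ?_⟩
    · intro i
      refine Fin.lastCases ?_ (fun i => ?_) i
      · rw [Fin.snoc_last]; exact Δ.smul_mem _ hv'Δ
      · rw [Fin.snoc_castSucc]; exact h.1 i
    · intro i
      refine Fin.lastCases ?_ (fun i => ?_) i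
      · rw [Fin.snoc_last]; exact hψ'N
      · rw [Fin.snoc_castSucc]; exact h.2.1 i
    · intro i j
      refine Fin.lastCases ?_ (fun i => ?_) i <;> refine Fin.lastCases ?_ (fun j => ?_) j
      · rw [Fin.snoc_last, Fin.snoc_last, dotProduct_smul, smul_eq_mul, inv_mul_cancel₀ h4]; simp
      · rw [Fin.snoc_last, Fin.snoc_castSucc, h2]
        rw [if_neg (Fin.castSucc_lt_last j).ne']
      · rw [Fin.snoc_last, Fin.snoc_castSucc, dotProduct_smul, h1, smul_zero]
        rw [if_neg (Fin.castSucc_lt_last i).ne]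
      · rw [Fin.snoc_castSucc, Fin.snoc_castSucc, h.2.2]
        simp
  have h5 := Nat.le_findGreatest (hP (d + 1) hnew) hnew
  rw [← hd] at h5
  omega

end Pool.Agent.Lib.Helper29.HFG
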