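import Pool.Agent.Lib.Helper29.HFG.Words3

set_option autoImplicit false

open Finset Filter Topology Matrix

namespace Pool.Agent.Lib.Helper29.HFG

section

attribute [local instance] Matrix.linftyOpNormedAddCommGroup Matrix.linftyOpNormedSpace
  Matrix.linftyOpNormedRing Matrix.linftyOpNormedAlgebra

lemma norm_entry_le' {Y : Type*} [Fintype Y] (M : Matrix Y Y ℂ) (I J : Y) : ‖M I J‖ ≤ ‖M‖ := by
  rw [← coe_nnnorm, ← coe_nnnorm, NNReal.coe_le_coe, Matrix.linfty_opNNNorm_def]
  exact (Finset.single_le_sum (f := fun j => ‖M I j‖₊) (fun _ _ => zero_le) (mem_univ J)).trans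
    (Finset.le_sup (f := fun i => ∑ j, ‖M i j‖₊) (mem_univ I))

/-- matrix entries of evaluations are continuous -/
lemma continuous_ev_entry {n : ℕ} (g : Fin n → Fam XX) (m : ℕ) (I J : XX m) :
    Continuous fun P : FreeEntire n => ev g P m I J := by
  let L : FreeEntire n →ₗ[ℂ] ℂ :=
    { toFun := fun P => ev g P m I J
      map_add' := fun P Q => by rw [map_add]; rfl
      map_smul' := fun a P => by rw [map_smul]; rfl }
  change Continuous L
  let ρ : {ρ : ℝ // 0 < ρ} := ⟨rad (fun k => g k m), rad_pos _⟩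
  refine WithSeminorms.continuous_normedSpace_rng ℂ (entire_withSeminorms (n := n)) L
    ⟨{ρ}, ‖(1 : Matrix (XX m) (XX m) ℂ)‖₊, ?_⟩
  rw [Finset.sup_singleton]
  intro P
  change ‖ev g P m I J‖ ≤ ‖(1 : Matrix (XX m) (XX m) ℂ)‖ * entireNorm n ρ P
  exact (norm_entry_le' _ _ _).trans (norm_evalHom_le _ _)

end

/-- The algebra `RT ℂ` is a topological quotient of the algebra of free entire functions. -/
theorem isHFG_RT : IsHFG (RT ℂ) := by
  obtain ⟨g, hg, hmain⟩ := good_AA.main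
  let e : RT ℂ ≃ₐ[ℂ] AA := AlgEquiv.ofInjective toFam toFam_injective
  let ψ : FreeEntire 5 →ₐ[ℂ] AA := (ev g).codRestrict AA (fun P => ev_mem good_AA hg P)
  let φ : FreeEntire 5 →ₐ[ℂ] RT ℂ := (e.symm : AA →ₐ[ℂ] RT ℂ).comp ψ
  have hφ : ∀ P, toFam (φ P) = ev g P := by
    intro P
    have h1 : e (φ P) = ψ P := e.apply_symm_apply _
    exact congrArg Subtype.val h1
  have hφ' : ∀ P (h : RT ℂ), ev g P = toFam h → φ P = h := by
    intro P h hh
    apply toFam_injective
    rw [hφ, hh]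
  have hval : ∀ P q, (φ P).1 q = valF (ev g P) q := by
    intro P q
    rw [← valF_toFam, hφ]
  have hcont : Continuous φ := by
    refine continuous_mk fun q => ?_
    simp only [hval]
    exact continuous_ev_entry g _ _ _
  have hsurj : Function.Surjective φ := by
    intro h
    obtain ⟨P, hP, _⟩ := hmain 0 (toFam h) ⟨h, rfl⟩ (fun i hi => absurd hi (Nat.not_lt_zero i)) 1
      one_pos
    exact ⟨P, hφ' P h hP⟩
  refine ⟨5, φ, IsOpenMap.isQuotientMap ?_ hcont hsurj⟩
  have hadd : IsTopologicalAddGroup (RT ℂ) := inferInstance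
  rw [IsTopologicalAddGroup.isOpenMap_iff_nhds_zero]
  intro U' hU'
  rw [Filter.mem_map] at hU'
  obtain ⟨s, r, hr, hs⟩ := (entire_withSeminorms.mem_nhds_iff 0 _).mp hU'
  -- a level that dominates all the radii
  obtain ⟨m₀, hm₀⟩ : ∃ m₀ : ℕ, ∀ ρ ∈ s, ρ.1 ≤ (rho m₀).1 := by
    obtain ⟨m₀, hm₀⟩ := exists_nat_ge (∑ ρ ∈ s, ρ.1)
    refine ⟨m₀, fun ρ hρ => ?_⟩
    have h1 : ρ.1 ≤ ∑ ρ ∈ s, ρ.1 :=
      Finset.single_le_sum (f := fun ρ : {ρ : ℝ // 0 < ρ} => ρ.1) (fun ρ _ => ρ.2.le) hρ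
    change ρ.1 ≤ (m₀ : ℝ) + 1
    linarith
  have hball : ∀ P, entireNorm 5 (rho m₀) P < r → φ P ∈ U' := by
    intro P hP
    refine hs ?_
    rw [Seminorm.mem_ball_zero]
    refine lt_of_le_of_lt ?_ hP
    exact Finset.sup_le (f := entireNorm 5) (fun ρ hρ => fun Q => entireNorm_mono (hm₀ ρ hρ) Q) P
  -- the finite dimensional part
  let V₀ : Type := ∀ i : Fin m₀, XX i → XX i → ℂ
  let π : RT ℂ →ₗ[ℂ] V₀ :=
    { toFun := fun h i I J => h.1 (z3 (sh i) I.1 J.1)
      map_add' := fun _ _ => rfl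
      map_smul' := fun _ _ => rfl }
  have hπ : Continuous π :=
    continuous_pi fun i => continuous_pi fun I => continuous_pi fun J => continuous_coord _
  let W := LinearMap.range π
  let πW : RT ℂ →ₗ[ℂ] W := π.rangeRestrict
  have hπW : Continuous πW := hπ.subtype_mk _
  let T : FreeEntire 5 →ₗ[ℂ] W := πW.comp φ.toLinearMap
  have hT : Function.Surjective T := π.surjective_rangeRestrict.comp hsurj
  obtain ⟨S, hS⟩ := T.exists_rightInverse_of_surjective (LinearMap.range_eq_top.mpr hT)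
  have hScont : Continuous S := S.continuous_of_finiteDimensional
  let σ : RT ℂ → FreeEntire 5 := fun h => S (πW h)
  have hσ : Continuous σ := hScont.comp hπW
  have hσ0 : σ 0 = 0 := by
    change S (πW 0) = 0
    rw [map_zero, map_zero]
  have hnhds : {h : RT ℂ | entireNorm 5 (rho m₀) (σ h) < r / 2} ∈ 𝓝 (0 : RT ℂ) := by
    have h1 : Continuous fun h => entireNorm 5 (rho m₀) (σ h) :=
      (continuous_entireNorm (rho m₀)).comp hσ
    refine (isOpen_lt h1 continuous_const).mem_nhds ?_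
    change entireNorm 5 (rho m₀) (σ 0) < r / 2
    rw [hσ0, map_zero]
    exact half_pos hr
  refine Filter.mem_of_superset hnhds fun h hh => ?_
  have hdiff : toFam h - ev g (σ h) ∈ AA := AA.sub_mem ⟨h, rfl⟩ (ev_mem good_AA hg _)
  have hlow : ∀ i < m₀, (toFam h - ev g (σ h)) i = 0 := by
    intro i hi
    ext I J
    have h1 : T (σ h) = πW h := by
      have := congrArg (fun f => f (πW h)) hS
      exact this
    have h2 : π (φ (σ h)) = π h := congrArg Subtype.val h1
    have h3 := congrFun (congrFun (congrFun h2 ⟨i, hi⟩) I) J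
    change (φ (σ h)).1 (z3 (sh i) I.1 J.1) = h.1 (z3 (sh i) I.1 J.1) at h3
    rw [← toFam_apply, ← toFam_apply, hφ] at h3
    change toFam h i I J - ev g (σ h) i I J = 0
    rw [← h3, sub_self]
  obtain ⟨Q, hQ1, hQ2⟩ := hmain m₀ _ hdiff hlow (r / 4) (by positivity)
  have h4 : φ (σ h + Q) = h := by
    apply hφ'
    rw [map_add, hQ1]
    abel
  rw [← h4]
  apply hball
  calc entireNorm 5 (rho m₀) (σ h + Q) ≤ entireNorm 5 (rho m₀) (σ h) + entireNorm 5 (rho m₀) Q :=
        map_add_le_add _ _ _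
    _ < r / 2 + r / 2 := by
        have : entireNorm 5 (rho m₀) (σ h) < r / 2 := hh
        linarith
    _ = r := by ring

end Pool.Agent.Lib.Helper29.HFG
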