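import Pool.Agent.Lib.Helper29.HFG.Diamond2

set_option autoImplicit false

open Finset

namespace Pool.Agent.Lib.Helper29.HFG

/-- left translation -/
def lt {G : Type*} (x : Lt) (f : List Lt → G) : List Lt → G := fun p => f (x :: p)

lemma IsRep.lt {G : Type*} [AddCommGroup G] {f : List Lt → G} (hf : IsRep f) (x : Lt) :
    IsRep (lt x f) := fun u v d k i j => hf (x :: u) v d k i j

/-- The matrix product of two families of matrix coefficients: the value at the word
`(k_1, i_1, j_1) … (k_r, i_r, j_r)` is the sum over `(l_1, …, l_r)` of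
`f ((k_1, i_1, l_1) …) * g ((k_1, l_1, j_1) …)`. -/
def cvA {G : Type*} [NonUnitalNonAssocRing G] : List Lt → (List Lt → G) → (List Lt → G) → G
  | [], f, g => f [] * g []
  | (x :: m), f, g => ∑ l, cvA m (lt (x.1, x.2.1, l) f) (lt (x.1, l, x.2.2) g)

section

variable {G : Type*} [Ring G]

lemma cvA_cons (x : Lt) (m : List Lt) (f g : List Lt → G) :
    cvA (x :: m) f g = ∑ l, cvA m (lt (x.1, x.2.1, l) f) (lt (x.1, l, x.2.2) g) := rfl

lemma cvA_add_left (m : List Lt) (f f' g : List Lt → G) :
    cvA m (f + f') g = cvA m f g + cvA m f' g := by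
  induction m generalizing f f' g with
  | nil => simp [cvA, add_mul]
  | cons x m ih =>
    simp only [cvA_cons]
    rw [← Finset.sum_add_distrib]
    exact Finset.sum_congr rfl fun l _ => ih _ _ _

lemma cvA_add_right (m : List Lt) (f g g' : List Lt → G) :
    cvA m f (g + g') = cvA m f g + cvA m f g' := by
  induction m generalizing f g g' with
  | nil => simp [cvA, mul_add]
  | cons x m ih =>
    simp only [cvA_cons]
    rw [← Finset.sum_add_distrib]
    exact Finset.sum_congr rfl fun l _ => ih _ _ _

lemma cvA_zero_left (m : List Lt) (g : List Lt → G) : cvA m (0 : List Lt → G) g = 0 := by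
  have := cvA_add_left m 0 0 g
  simpa using this

lemma cvA_zero_right (m : List Lt) (f : List Lt → G) : cvA m f (0 : List Lt → G) = 0 := by
  have := cvA_add_right m f 0 0
  simpa using this

lemma cvA_sum_left {ι : Type*} (s : Finset ι) (m : List Lt) (F : ι → List Lt → G)
    (g : List Lt → G) : cvA m (fun p => ∑ l ∈ s, F l p) g = ∑ l ∈ s, cvA m (F l) g := by
  classical
  induction s using Finset.induction_on with
  | empty => simp only [Finset.sum_empty]; exact cvA_zero_left m g
  | insert a s ha ih =>
    rw [Finset.sum_insert ha, ← ih, ← cvA_add_left]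
    congr 1
    funext p
    rw [Finset.sum_insert ha]; rfl

lemma cvA_sum_right {ι : Type*} (s : Finset ι) (m : List Lt) (f : List Lt → G)
    (F : ι → List Lt → G) : cvA m f (fun p => ∑ l ∈ s, F l p) = ∑ l ∈ s, cvA m f (F l) := by
  classical
  induction s using Finset.induction_on with
  | empty => simp only [Finset.sum_empty]; exact cvA_zero_right m f
  | insert a s ha ih =>
    rw [Finset.sum_insert ha, ← ih, ← cvA_add_right]
    congr 1
    funext p
    rw [Finset.sum_insert ha]; rfl

lemma cvA_ite_left (m : List Lt) (p : Prop) [Decidable p] (f g : List Lt → G) :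
    cvA m (fun q => if p then f q else 0) g = if p then cvA m f g else 0 := by
  split_ifs
  · rfl
  · exact cvA_zero_left m g

lemma cvA_ite_right (m : List Lt) (p : Prop) [Decidable p] (f g : List Lt → G) :
    cvA m f (fun q => if p then g q else 0) = if p then cvA m f g else 0 := by
  split_ifs
  · rfl
  · exact cvA_zero_right m f

/-- the product as a function -/
def cv (f g : List Lt → G) : List Lt → G := fun m => cvA m f g

lemma isRep_cv {f g : List Lt → G} (hf : IsRep f) (hg : IsRep g) : IsRep (cv f g) := by
  intro u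
  induction u generalizing f g with
  | nil =>
    intro v d k i j
    simp only [List.nil_append, cv]
    cases d
    · have e1 : ∀ l, cvA (px false k i l :: py false k j l :: v) f g =
          ∑ a, ∑ b, cvA v (fun p => f ((k + 1, l, a) :: (k, l, b) :: p))
            (fun p => g ((k + 1, a, i) :: (k, b, j) :: p)) := fun l => rfl
      simp only [e1]
      rw [Finset.sum_comm]
      have e2 : ∀ a, ∑ l, ∑ b, cvA v (fun p => f ((k + 1, l, a) :: (k, l, b) :: p))
            (fun p => g ((k + 1, a, i) :: (k, b, j) :: p)) =
            cvA v f (fun p => g ((k + 1, a, i) :: (k, a, j) :: p)) := by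
        intro a
        rw [Finset.sum_comm]
        have e3 : ∀ b, ∑ l, cvA v (fun p => f ((k + 1, l, a) :: (k, l, b) :: p))
            (fun p => g ((k + 1, a, i) :: (k, b, j) :: p)) =
            if a = b then cvA v f (fun p => g ((k + 1, a, i) :: (k, b, j) :: p)) else 0 := by
          intro b
          rw [← cvA_sum_left, ← cvA_ite_left]
          congr 1
          funext p
          exact hf [] p false k a b
        simp only [e3]
        rw [Finset.sum_ite_eq]
        simp
      simp only [e2]
      rw [← cvA_sum_right, ← cvA_ite_right]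
      congr 1
      funext p
      exact hg [] p false k i j
    · have e1 : ∀ l, cvA (px true k i l :: py true k j l :: v) f g =
          ∑ a, ∑ b, cvA v (fun p => f ((k, i, a) :: (k + 1, j, b) :: p))
            (fun p => g ((k, a, l) :: (k + 1, b, l) :: p)) := fun l => rfl
      simp only [e1]
      rw [Finset.sum_comm]
      have e2 : ∀ a, ∑ l, ∑ b, cvA v (fun p => f ((k, i, a) :: (k + 1, j, b) :: p))
            (fun p => g ((k, a, l) :: (k + 1, b, l) :: p)) =
            cvA v (fun p => f ((k, i, a) :: (k + 1, j, a) :: p)) g := by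
        intro a
        rw [Finset.sum_comm]
        have e3 : ∀ b, ∑ l, cvA v (fun p => f ((k, i, a) :: (k + 1, j, b) :: p))
            (fun p => g ((k, a, l) :: (k + 1, b, l) :: p)) =
            if a = b then cvA v (fun p => f ((k, i, a) :: (k + 1, j, b) :: p)) g else 0 := by
          intro b
          rw [← cvA_sum_right, ← cvA_ite_right]
          congr 1
          funext p
          exact hg [] p true k a b
        simp only [e3]
        rw [Finset.sum_ite_eq]
        simp
      simp only [e2]
      rw [← cvA_sum_left, ← cvA_ite_left]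
      congr 1
      funext p
      exact hf [] p true k i j
  | cons x u ih =>
    intro v d k i j
    simp only [cv, List.cons_append, cvA_cons]
    rw [Finset.sum_comm]
    have e1 : ∀ l, ∑ l', cvA (u ++ px d k i l' :: py d k j l' :: v) (lt (x.1, x.2.1, l) f)
        (lt (x.1, l, x.2.2) g) = if i = j then cvA (u ++ v) (lt (x.1, x.2.1, l) f)
        (lt (x.1, l, x.2.2) g) else 0 := fun l => ih (hf.lt _) (hg.lt _) v d k i j
    simp only [e1]
    split_ifs
    · rfl
    · simp

lemma lt_cv (x : Lt) (f g : List Lt → G) : lt x (cv f g) =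
    fun p => ∑ l, cv (lt (x.1, x.2.1, l) f) (lt (x.1, l, x.2.2) g) p := rfl

lemma cvA_assoc (m : List Lt) (f g h : List Lt → G) :
    cvA m (cv f g) h = cvA m f (cv g h) := by
  induction m generalizing f g h with
  | nil => simp [cvA, cv, mul_assoc]
  | cons x m ih =>
    rw [cvA_cons, cvA_cons]
    have e1 : ∀ l, cvA m (lt (x.1, x.2.1, l) (cv f g)) (lt (x.1, l, x.2.2) h) =
        ∑ l', cvA m (lt (x.1, x.2.1, l') f) (cv (lt (x.1, l', l) g) (lt (x.1, l, x.2.2) h)) := by
      intro l
      rw [lt_cv, cvA_sum_left]
      exact Finset.sum_congr rfl fun l' _ => ih _ _ _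
    have e2 : ∀ l', cvA m (lt (x.1, x.2.1, l') f) (lt (x.1, l', x.2.2) (cv g h)) =
        ∑ l, cvA m (lt (x.1, x.2.1, l') f) (cv (lt (x.1, l', l) g) (lt (x.1, l, x.2.2) h)) := by
      intro l'
      rw [lt_cv, cvA_sum_right]
    simp only [e1, e2]
    exact Finset.sum_comm

/-- the unit: the value at `(k_1, i_1, j_1) …` is `∏ δ_{i_p j_p}` -/
def oneR {G : Type*} [Ring G] : List Lt → G
  | [] => 1
  | (x :: m) => if x.2.1 = x.2.2 then oneR m else 0

lemma lt_oneR (x : Lt) : lt x (oneR : List Lt → G) =
    fun p => if x.2.1 = x.2.2 then oneR p else 0 := rfl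

lemma isRep_oneR : IsRep (oneR : List Lt → G) := by
  intro u
  induction u with
  | nil =>
    intro v d k i j
    simp only [List.nil_append]
    have e1 : ∀ l, (oneR (px d k i l :: py d k j l :: v) : G) =
        if i = l then (if j = l then oneR v else 0) else 0 := by
      intro l
      cases d
      · change (if l = i then (if l = j then oneR v else 0) else 0) = _
        simp only [eq_comm]
      · rfl
    simp only [e1]
    rw [Finset.sum_ite_eq]
    simp [eq_comm]
  | cons x u ih =>
    intro v d k i j
    have e1 : ∀ l, (oneR ((x :: u) ++ px d k i l :: py d k j l :: v) : G) =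
        if x.2.1 = x.2.2 then oneR (u ++ px d k i l :: py d k j l :: v) else 0 := fun l => rfl
    have e2 : (oneR ((x :: u) ++ v) : G) = if x.2.1 = x.2.2 then oneR (u ++ v) else 0 := rfl
    simp only [e1, e2]
    have := ih v d k i j
    split_ifs with h1 h2
    · rw [this, if_pos h2]
    · rw [this, if_neg h2]
    · simp
    · simp

lemma cvA_oneR_left (m : List Lt) (g : List Lt → G) : cvA m oneR g = g m := by
  induction m generalizing g with
  | nil => simp [cvA, oneR]
  | cons x m ih =>
    rw [cvA_cons]
    simp only [lt_oneR, cvA_ite_left, ih]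
    rw [Finset.sum_ite_eq]
    simp [lt]

lemma cvA_oneR_right (m : List Lt) (f : List Lt → G) : cvA m f oneR = f m := by
  induction m generalizing f with
  | nil => simp [cvA, oneR]
  | cons x m ih =>
    rw [cvA_cons]
    simp only [lt_oneR, cvA_ite_right, ih]
    rw [Finset.sum_ite_eq']
    simp [lt]

end

/-- The space of all functions on words that respect the relations. -/
@[ext] structure RT (G : Type) [AddCommGroup G] : Type where
  /-- the function -/
  val : List Lt → G
  /-- it respects the relations -/
  property : IsRep val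

section

variable {G : Type} [AddCommGroup G]

instance : Zero (RT G) := ⟨⟨0, fun u v d k i j => by simp⟩⟩

instance : Add (RT G) := ⟨fun f g => ⟨f.1 + g.1, fun u v d k i j => by
  simp only [Pi.add_apply, Finset.sum_add_distrib]
  rw [f.2 u v d k i j, g.2 u v d k i j]
  split_ifs <;> simp⟩⟩

instance : Neg (RT G) := ⟨fun f => ⟨-f.1, fun u v d k i j => by
  simp only [Pi.neg_apply, Finset.sum_neg_distrib]
  rw [f.2 u v d k i j]
  split_ifs <;> simp⟩⟩

instance : Sub (RT G) := ⟨fun f g => ⟨f.1 - g.1, fun u v d k i j => by
  simp only [Pi.sub_apply, Finset.sum_sub_distrib]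
  rw [f.2 u v d k i j, g.2 u v d k i j]
  split_ifs <;> simp⟩⟩

instance : SMul ℕ (RT G) := ⟨fun n f => ⟨n • f.1, fun u v d k i j => by
  simp only [Pi.smul_apply, ← Finset.smul_sum]
  rw [f.2 u v d k i j]
  split_ifs <;> simp⟩⟩

instance : SMul ℤ (RT G) := ⟨fun n f => ⟨n • f.1, fun u v d k i j => by
  simp only [Pi.smul_apply, ← Finset.smul_sum]
  rw [f.2 u v d k i j]
  split_ifs <;> simp⟩⟩

instance instAddCommGroupRT : AddCommGroup (RT G) :=
  Function.Injective.addCommGroup (fun f : RT G => f.1) (fun _ _ h => RT.ext h) rfl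
    (fun _ _ => rfl) (fun _ => rfl) (fun _ _ => rfl) (fun _ _ => rfl) (fun _ _ => rfl)

end

lemma isRep_smul {G : Type} [AddCommGroup G] [Module ℂ G] (a : ℂ) {f : List Lt → G}
    (hf : IsRep f) : IsRep (a • f) := by
  intro u v d k i j
  simp only [Pi.smul_apply, ← Finset.smul_sum]
  rw [hf u v d k i j]
  split_ifs <;> simp

instance instModuleRT {G : Type} [AddCommGroup G] [Module ℂ G] : Module ℂ (RT G) where
  smul a f := ⟨a • f.1, isRep_smul a f.2⟩
  one_smul _ := RT.ext (one_smul ℂ _)
  mul_smul _ _ _ := RT.ext (mul_smul _ _ _)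
  smul_zero _ := RT.ext (smul_zero _)
  smul_add _ _ _ := RT.ext (smul_add _ _ _)
  add_smul _ _ _ := RT.ext (add_smul _ _ _)
  zero_smul _ := RT.ext (zero_smul ℂ _)

section

variable {G : Type}

lemma cvA_smul_left [Ring G] [Algebra ℂ G] (a : ℂ) (m : List Lt) (f g : List Lt → G) :
    cvA m (a • f) g = a • cvA m f g := by
  induction m generalizing f g with
  | nil => simp [cvA]
  | cons x m ih =>
    simp only [cvA_cons]
    rw [Finset.smul_sum]
    exact Finset.sum_congr rfl fun l _ => ih _ _

lemma cvA_smul_right [Ring G] [Algebra ℂ G] (a : ℂ) (m : List Lt) (f g : List Lt → G) :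
    cvA m f (a • g) = a • cvA m f g := by
  induction m generalizing f g with
  | nil => simp [cvA]
  | cons x m ih =>
    simp only [cvA_cons]
    rw [Finset.smul_sum]
    exact Finset.sum_congr rfl fun l _ => ih _ _

instance instMulRT [Ring G] : Mul (RT G) where
  mul f g := ⟨cv f.1 g.1, isRep_cv f.2 g.2⟩

instance instOneRT [Ring G] : One (RT G) where
  one := ⟨oneR, isRep_oneR⟩

lemma rep_coe_mul [Ring G] (f g : RT G) : (f * g).1 = cv f.1 g.1 := rfl
lemma rep_coe_one [Ring G] : (1 : RT G).1 = oneR := rfl

instance instRingRT [Ring G] : Ring (RT G) :=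
  { (instAddCommGroupRT : AddCommGroup (RT G)) with
    mul := (· * ·)
    one := 1
    left_distrib := fun _ _ _ => RT.ext (funext fun _ => cvA_add_right _ _ _ _)
    right_distrib := fun _ _ _ => RT.ext (funext fun _ => cvA_add_left _ _ _ _)
    zero_mul := fun _ => RT.ext (funext fun _ => cvA_zero_left _ _)
    mul_zero := fun _ => RT.ext (funext fun _ => cvA_zero_right _ _)
    mul_assoc := fun _ _ _ => RT.ext (funext fun _ => cvA_assoc _ _ _ _)
    one_mul := fun _ => RT.ext (funext fun _ => cvA_oneR_left _ _)
    mul_one := fun _ => RT.ext (funext fun _ => cvA_oneR_right _ _) }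

instance instAlgebraRT [Ring G] [Algebra ℂ G] : Algebra ℂ (RT G) :=
  Algebra.ofModule (fun _ _ _ => RT.ext (funext fun _ => cvA_smul_left _ _ _ _))
    (fun _ _ _ => RT.ext (funext fun _ => cvA_smul_right _ _ _ _))

end

end Pool.Agent.Lib.Helper29.HFG
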