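import Pool.Agent.Lib.Helper29.HFG.Eval
import Pool.Agent.Lib.Helper29.HFG.Lin

set_option autoImplicit false

open Finset Filter Topology Matrix

namespace Pool.Agent.Lib.Helper29.HFG

attribute [local instance] Matrix.linftyOpNormedAddCommGroup Matrix.linftyOpNormedSpace
  Matrix.linftyOpNormedRing Matrix.linftyOpNormedAlgebra

/-- families of matrices -/
abbrev Fam (X : ℕ → Type) : Type := ∀ m, Matrix (X m) (X m) ℂ

variable {X : ℕ → Type} [∀ m, Fintype (X m)] [∀ m, DecidableEq (X m)]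

/-- hypotheses on an algebra of families of matrices -/
structure Good (A : Subalgebra ℂ (Fam X)) (Δ N : ∀ m, Submodule ℂ (X m → ℂ)) : Prop where
  closed : ∀ x : Fam X, (∀ m, ∃ a ∈ A, ∀ i < m, a i = x i) → x ∈ A
  rank_one : ∀ m, ∀ v ∈ Δ m, ∀ φ ∈ N m, ∃ j ∈ A, (∀ i < m, j i = 0) ∧ j m = vecMulVec v φ
  col_mem : ∀ m, ∀ j ∈ A, (∀ i < m, j i = 0) → ∀ J, (fun I => j m I J) ∈ Δ m
  row_mem : ∀ m, ∀ j ∈ A, (∀ i < m, j i = 0) → ∀ I, (fun J => j m I J) ∈ N m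
  color : ∀ m, ∃ D, 0 < D ∧ (∃ b φ : Fin D → X m → ℂ, IsDualFam (Δ m) (N m) b φ) ∧
    ∃ (κ : Type) (_ : DecidableEq κ) (c : X m → κ),
      (∀ γ, (univ.filter (fun I => c I = γ)).card ≤ D) ∧
      ∀ γ, ∃ a ∈ A, a m = diagonal (fun I => if c I = γ then 1 else 0)

/-- evaluation at a tuple of families -/
noncomputable def ev {n : ℕ} (g : Fin n → Fam X) : FreeEntire n →ₐ[ℂ] Fam X :=
  AlgHom.pi fun m => evalHom (fun k => g k m)

lemma ev_apply {n : ℕ} (g : Fin n → Fam X) (P : FreeEntire n) (m : ℕ) :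
    ev g P m = evalHom (fun k => g k m) P := rfl

lemma ev_gen {n : ℕ} (g : Fin n → Fam X) (i : Fin n) : ev g (gen i) = g i := by
  funext m
  rw [ev_apply, evalHom_gen]

lemma ev_congr {n : ℕ} {g g' : Fin n → Fam X} {m : ℕ} (h : ∀ k, g k m = g' k m)
    (P : FreeEntire n) : ev g P m = ev g' P m := by
  rw [ev_apply, ev_apply]
  congr 2
  funext k; exact h k

lemma wd_fam {n : ℕ} (g : Fin n → Fam X) (α : List (Fin n)) (m : ℕ) :
    (α.map g).prod m = wd (fun k => g k m) α := by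
  induction α with
  | nil => rfl
  | cons x α ih => rw [List.map_cons, List.prod_cons, Pi.mul_apply, ih]; rfl

variable {A : Subalgebra ℂ (Fam X)} {Δ N : ∀ m, Submodule ℂ (X m → ℂ)}

lemma ev_mem (hA : Good A Δ N) {n : ℕ} {g : Fin n → Fam X} (hg : ∀ k, g k ∈ A)
    (P : FreeEntire n) : ev g P ∈ A := by
  refine hA.closed _ fun m => ?_
  let π : Fam X →ₗ[ℂ] (∀ i : Fin m, Matrix (X i) (X i) ℂ) :=
    LinearMap.pi fun i => LinearMap.proj (i : ℕ)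
  let W := (Subalgebra.toSubmodule A).map π
  have hW : IsClosed (W : Set (∀ i : Fin m, Matrix (X i) (X i) ℂ)) :=
    W.closed_of_finiteDimensional
  have hs : HasSum (fun α => P.1 α • π (α.map g).prod) (π (ev g P)) := by
    rw [Pi.hasSum]
    intro i
    have h1 := (summable_eval (fun k => g k (i : ℕ)) P).hasSum
    have h2 : (fun α => (P.1 α • π (α.map g).prod) i) =
        fun α => P.1 α • wd (fun k => g k (i : ℕ)) α := by
      funext α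
      rw [Pi.smul_apply, ← wd_fam]; rfl
    rw [h2]
    exact h1
  have hmem : π (ev g P) ∈ W := by
    refine hW.mem_of_tendsto hs (Eventually.of_forall fun s => ?_)
    refine W.sum_mem fun α _ => W.smul_mem _ ?_
    refine Submodule.mem_map_of_mem ?_
    refine A.list_prod_mem fun x hx => ?_
    obtain ⟨k, _, rfl⟩ := List.mem_map.mp hx
    exact hg k
  obtain ⟨a, ha, hae⟩ := hmem
  exact ⟨a, ha, fun i hi => congrFun hae ⟨i, hi⟩⟩

/-! ### stability -/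

lemma Good.exists_ne (hA : Good A Δ N) (m : ℕ) : ∃ v ∈ Δ m, ∃ φ ∈ N m, φ ⬝ᵥ v = 1 := by
  obtain ⟨D, hD, ⟨b, φ, h⟩, _⟩ := hA.color m
  exact ⟨b ⟨0, hD⟩, h.1 _, φ ⟨0, hD⟩, h.2.1 _, by rw [h.2.2, if_pos rfl]⟩

lemma Good.mulVec_mem (hA : Good A Δ N) {m : ℕ} {x : Fam X} (hx : x ∈ A) {v : X m → ℂ}
    (hv : v ∈ Δ m) : x m *ᵥ v ∈ Δ m := by
  obtain ⟨v₀, _, φ, hφ, h1⟩ := hA.exists_ne m
  obtain ⟨j, hj, hj0, hjm⟩ := hA.rank_one m v hv φ hφ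
  have hφ0 : ∃ J, φ J ≠ 0 := by
    by_contra h
    push Not at h
    have : φ = 0 := funext h
    rw [this, zero_dotProduct] at h1
    exact zero_ne_one h1
  obtain ⟨J, hJ⟩ := hφ0
  have h2 := hA.col_mem m (x * j) (A.mul_mem hx hj) (fun i hi => by
    rw [Pi.mul_apply, hj0 i hi, mul_zero]) J
  have h3 : (fun I => (x * j) m I J) = φ J • (x m *ᵥ v) := by
    funext I
    rw [Pi.mul_apply, hjm, Matrix.mul_vecMulVec, vecMulVec_apply, Pi.smul_apply, smul_eq_mul,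
      mul_comm]
  rw [h3] at h2
  have h4 := (Δ m).smul_mem (φ J)⁻¹ h2
  rwa [smul_smul, inv_mul_cancel₀ hJ, one_smul] at h4

lemma Good.vecMul_mem (hA : Good A Δ N) {m : ℕ} {x : Fam X} (hx : x ∈ A) {φ : X m → ℂ}
    (hφ : φ ∈ N m) : φ ᵥ* x m ∈ N m := by
  obtain ⟨v, hv, φ₀, _, h1⟩ := hA.exists_ne m
  obtain ⟨j, hj, hj0, hjm⟩ := hA.rank_one m v hv φ hφ
  have hv0 : ∃ J, v J ≠ 0 := by
    by_contra h
    push Not at h
    have : v = 0 := funext h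
    rw [this, dotProduct_zero] at h1
    exact zero_ne_one h1
  obtain ⟨I, hI⟩ := hv0
  have h2 := hA.row_mem m (j * x) (A.mul_mem hj hx) (fun i hi => by
    rw [Pi.mul_apply, hj0 i hi, zero_mul]) I
  have h3 : (fun J => (j * x) m I J) = v I • (φ ᵥ* x m) := by
    funext J
    rw [Pi.mul_apply, hjm, Matrix.vecMulVec_mul, vecMulVec_apply, Pi.smul_apply, smul_eq_mul]
  rw [h3] at h2
  have h4 := (N m).smul_mem (v I)⁻¹ h2
  rwa [smul_smul, inv_mul_cancel₀ hI, one_smul] at h4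

/-- left radical -/
def radL (Δ N : ∀ m, Submodule ℂ (X m → ℂ)) (m : ℕ) : Submodule ℂ (X m → ℂ) where
  carrier := {v | v ∈ Δ m ∧ ∀ φ ∈ N m, φ ⬝ᵥ v = 0}
  zero_mem' := ⟨(Δ m).zero_mem, fun _ _ => dotProduct_zero _⟩
  add_mem' := fun {v w} hv hw => ⟨(Δ m).add_mem hv.1 hw.1, fun φ hφ => by
    rw [dotProduct_add, hv.2 φ hφ, hw.2 φ hφ, add_zero]⟩
  smul_mem' := fun a v hv => ⟨(Δ m).smul_mem a hv.1, fun φ hφ => by
    rw [dotProduct_smul, hv.2 φ hφ, smul_zero]⟩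

/-- right radical -/
def radR (Δ N : ∀ m, Submodule ℂ (X m → ℂ)) (m : ℕ) : Submodule ℂ (X m → ℂ) where
  carrier := {φ | φ ∈ N m ∧ ∀ v ∈ Δ m, φ ⬝ᵥ v = 0}
  zero_mem' := ⟨(N m).zero_mem, fun _ _ => zero_dotProduct _⟩
  add_mem' := fun {v w} hv hw => ⟨(N m).add_mem hv.1 hw.1, fun φ hφ => by
    rw [add_dotProduct, hv.2 φ hφ, hw.2 φ hφ, add_zero]⟩
  smul_mem' := fun a v hv => ⟨(N m).smul_mem a hv.1, fun φ hφ => by
    rw [smul_dotProduct, hv.2 φ hφ, smul_zero]⟩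

lemma Good.mulVec_rad (hA : Good A Δ N) {m : ℕ} {x : Fam X} (hx : x ∈ A) {v : X m → ℂ}
    (hv : v ∈ radL Δ N m) : x m *ᵥ v ∈ radL Δ N m :=
  ⟨hA.mulVec_mem hx hv.1, fun φ hφ => by
    rw [dotProduct_mulVec]; exact hv.2 _ (hA.vecMul_mem hx hφ)⟩

lemma Good.vecMul_rad (hA : Good A Δ N) {m : ℕ} {x : Fam X} (hx : x ∈ A) {φ : X m → ℂ}
    (hφ : φ ∈ radR Δ N m) : φ ᵥ* x m ∈ radR Δ N m :=
  ⟨hA.vecMul_mem hx hφ.1, fun v hv => by
    rw [← dotProduct_mulVec]; exact hφ.2 _ (hA.mulVec_mem hx hv)⟩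

lemma Good.kill_radL (hA : Good A Δ N) {m : ℕ} {j : Fam X} (hj : j ∈ A) (hj0 : ∀ i < m, j i = 0)
    {v : X m → ℂ} (hv : v ∈ radL Δ N m) : j m *ᵥ v = 0 := by
  funext I
  exact hv.2 _ (hA.row_mem m j hj hj0 I)

lemma Good.kill_radR (hA : Good A Δ N) {m : ℕ} {j : Fam X} (hj : j ∈ A) (hj0 : ∀ i < m, j i = 0)
    {φ : X m → ℂ} (hφ : φ ∈ radR Δ N m) : φ ᵥ* j m = 0 := by
  funext J
  exact hφ.2 _ (hA.col_mem m j hj hj0 J)

/-- data at level `m` -/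
lemma Good.exists_data (hA : Good A Δ N) (m : ℕ) :
    ∃ d, 0 < d ∧ ∃ b φ : Fin d → X m → ℂ, IsDualFam (Δ m) (N m) b φ ∧
      (∀ v ∈ Δ m, ∀ ψ ∈ N m, ψ ⬝ᵥ v = ∑ i, (ψ ⬝ᵥ b i) * (φ i ⬝ᵥ v)) ∧
      (∃ r : Fin d → X m → ℂ, (∀ i, r i ∈ radL Δ N m) ∧
        radL Δ N m ≤ Submodule.span ℂ {w | ∃ a ∈ A, ∃ i, w = a m *ᵥ r i}) ∧
      (∃ r : Fin d → X m → ℂ, (∀ i, r i ∈ radR Δ N m) ∧
        radR Δ N m ≤ Submodule.span ℂ {w | ∃ a ∈ A, ∃ i, w = r i ᵥ* a m}) := by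
  obtain ⟨D, hD, ⟨b₀, φ₀, h₀⟩, κ, _, c, hc, hcA⟩ := hA.color m
  obtain ⟨d, hDd, b, φ, h, hmax⟩ := exists_max_dualFam _ _ h₀
  have hc' : ∀ γ, (univ.filter (fun I => c I = γ)).card ≤ d := fun γ => (hc γ).trans hDd
  refine ⟨d, lt_of_lt_of_le hD hDd, b, φ, h, hmax, ?_, ?_⟩
  · have hdiag : ∀ γ, ∀ v : X m → ℂ, ∃ a ∈ A, colProj c γ v = a m *ᵥ v := by
      intro γ v
      obtain ⟨a, ha, hae⟩ := hcA γ
      refine ⟨a, ha, ?_⟩
      funext I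
      rw [hae, mulVec_diagonal]
      simp [colProj]
    obtain ⟨r, hr1, hr2⟩ := exists_color_gens c d hc' (radL Δ N m) (fun γ v hv => by
      obtain ⟨a, ha, hae⟩ := hdiag γ v
      rw [hae]; exact hA.mulVec_rad ha hv)
    refine ⟨r, hr1, hr2.trans (Submodule.span_mono ?_)⟩
    rintro _ ⟨γ, i, rfl⟩
    obtain ⟨a, ha, hae⟩ := hdiag γ (r i)
    exact ⟨a, ha, i, hae⟩
  · have hdiag : ∀ γ, ∀ v : X m → ℂ, ∃ a ∈ A, colProj c γ v = v ᵥ* a m := by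
      intro γ v
      obtain ⟨a, ha, hae⟩ := hcA γ
      refine ⟨a, ha, ?_⟩
      funext I
      rw [hae, vecMul_diagonal]
      simp [colProj]
    obtain ⟨r, hr1, hr2⟩ := exists_color_gens c d hc' (radR Δ N m) (fun γ v hv => by
      obtain ⟨a, ha, hae⟩ := hdiag γ v
      rw [hae]; exact hA.vecMul_rad ha hv)
    refine ⟨r, hr1, hr2.trans (Submodule.span_mono ?_)⟩
    rintro _ ⟨γ, i, rfl⟩
    obtain ⟨a, ha, hae⟩ := hdiag γ (r i)
    exact ⟨a, ha, i, hae⟩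

end Pool.Agent.Lib.Helper29.HFG
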