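import Pool.Agent.Lib.Helper29.HFG.Stage

set_option autoImplicit false

open Finset Filter Topology Matrix

namespace Pool.Agent.Lib.Helper29.HFG

attribute [local instance] Matrix.linftyOpNormedAddCommGroup Matrix.linftyOpNormedSpace
  Matrix.linftyOpNormedRing Matrix.linftyOpNormedAlgebra

instance {n : ℕ} : IsTopologicalAddGroup (FreeEntire n) := entire_withSeminorms.topologicalAddGroup
instance {n : ℕ} : ContinuousSMul ℂ (FreeEntire n) := entire_withSeminorms.continuousSMul

lemma continuous_entireNorm {n : ℕ} (ρ : {ρ : ℝ // 0 < ρ}) : Continuous (entireNorm n ρ) :=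
  entire_withSeminorms.continuous_seminorm ρ

/-- a matrix is a sum of rank one matrices with columns and rows in given subspaces -/
lemma mem_span_rank_one {Y : Type*} [Fintype Y] [DecidableEq Y] (Δ N : Submodule ℂ (Y → ℂ))
    (x : Matrix Y Y ℂ) (hc : ∀ J, (fun I => x I J) ∈ Δ) (hr : ∀ I, (fun J => x I J) ∈ N) :
    x ∈ Submodule.span ℂ {z | ∃ v ∈ Δ, ∃ φ ∈ N, z = vecMulVec v φ} := by
  obtain ⟨p, hp⟩ := LinearMap.exists_leftInverse_of_injective Δ.subtype
    (LinearMap.ker_eq_bot.mpr Subtype.val_injective)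
  have hx : x = ∑ K, vecMulVec (p (Pi.single K 1) : Y → ℂ) (fun J => x K J) := by
    ext I J
    have h1 : (fun I => x I J) = ((p (fun I => x I J) : Δ) : Y → ℂ) := by
      have := congrArg (fun f => f ⟨_, hc J⟩) hp
      simp only [LinearMap.comp_apply, Submodule.subtype_apply, LinearMap.id_apply] at this
      rw [this]
    have h2 : (fun I => x I J) = ∑ K, x K J • (Pi.single K (1 : ℂ) : Y → ℂ) := by
      funext I
      simp [Finset.sum_apply, Pi.single_apply]
    have h3 := congrFun h1 I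
    rw [h2, map_sum, Submodule.coe_sum, Finset.sum_apply] at h3
    rw [Matrix.sum_apply]
    rw [h3]
    refine Finset.sum_congr rfl fun K _ => ?_
    rw [map_smul, Submodule.coe_smul, Pi.smul_apply, smul_eq_mul, vecMulVec_apply, mul_comm]
  rw [hx]
  refine Submodule.sum_mem _ fun K _ => Submodule.subset_span ?_
  exact ⟨_, (p (Pi.single K 1)).2, _, hr K, rfl⟩

lemma aeval_mul_eq {B : Type*} [Ring B] [Algebra ℂ B] {Y Z f : B} (h : Y * f = Z * f)
    (hc : Commute Z f) (p : Polynomial ℂ) :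
    Polynomial.aeval Y p * f = Polynomial.aeval Z p * f := by
  have hpow : ∀ k : ℕ, Y ^ k * f = Z ^ k * f := by
    intro k
    induction k with
    | zero => simp
    | succ k ih =>
      calc Y ^ (k + 1) * f = Y ^ k * (Y * f) := by rw [pow_succ, mul_assoc]
        _ = Y ^ k * (Z * f) := by rw [h]
        _ = Y ^ k * (f * Z) := by rw [hc.eq]
        _ = Y ^ k * f * Z := by rw [mul_assoc]
        _ = Z ^ k * f * Z := by rw [ih]
        _ = Z ^ k * (f * Z) := by rw [mul_assoc]
        _ = Z ^ k * (Z * f) := by rw [hc.eq]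
        _ = Z ^ (k + 1) * f := by rw [pow_succ, mul_assoc]
  induction p using Polynomial.induction_on' with
  | add p q hp hq => rw [map_add, map_add, add_mul, add_mul, hp, hq]
  | monomial k a =>
    rw [Polynomial.aeval_monomial, Polynomial.aeval_monomial, mul_assoc, mul_assoc, hpow]

/-- spectral separation: high powers converge to the idempotent -/
lemma tendsto_idem {B : Type*} [NormedRing B] [NormedAlgebra ℂ B] {e z : B} (he : e * e = e)
    (hez : e * z = 0) (hze : z * e = 0) {c : ℂ} (hc : ‖z‖ < ‖c‖) {q : Polynomial ℂ}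
    (hq : q.eval c ≠ 0) :
    Tendsto (fun k : ℕ => (c ^ (k + 1) * q.eval c)⁻¹ •
      ((z + c • e) ^ (k + 1) * Polynomial.aeval (z + c • e) q)) atTop (𝓝 e) := by
  have hc0 : 0 < ‖c‖ := lt_of_le_of_lt (norm_nonneg _) hc
  have hc0' : c ≠ 0 := norm_pos_iff.mp hc0
  set Y := z + c • e with hY
  have h1 : ∀ p : Polynomial ℂ, Polynomial.aeval Y p * e = p.eval c • e := by
    intro p
    have h2 : Y * e = algebraMap ℂ B c * e := by
      rw [hY, add_mul, hze, zero_add, smul_mul_assoc, he, Algebra.smul_def]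
    rw [aeval_mul_eq h2 (Algebra.commutes c e), Polynomial.aeval_algebraMap_apply,
      ← Algebra.smul_def]
    rfl
  have h3 : ∀ p : Polynomial ℂ, Polynomial.aeval Y p * (1 - e) =
      Polynomial.aeval z p * (1 - e) := by
    intro p
    refine aeval_mul_eq ?_ ?_ p
    · rw [mul_sub, mul_sub, mul_one, mul_one, hze, sub_zero, hY, add_mul, hze, zero_add,
        smul_mul_assoc, he, add_sub_cancel_right]
    · rw [commute_iff_eq, mul_sub, sub_mul, mul_one, one_mul, hze, hez]
  have h4 : ∀ k : ℕ, (c ^ (k + 1) * q.eval c)⁻¹ • (Y ^ (k + 1) * Polynomial.aeval Y q) =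
      e + (c ^ (k + 1) * q.eval c)⁻¹ • (z ^ (k + 1) * (Polynomial.aeval z q * (1 - e))) := by
    intro k
    have h5 : Y ^ (k + 1) * Polynomial.aeval Y q =
        Polynomial.aeval Y (Polynomial.X ^ (k + 1) * q) := by
      rw [map_mul, map_pow, Polynomial.aeval_X]
    have h6 : Polynomial.aeval Y (Polynomial.X ^ (k + 1) * q) =
        (c ^ (k + 1) * q.eval c) • e + z ^ (k + 1) * (Polynomial.aeval z q * (1 - e)) := by
      have h7 : Polynomial.aeval Y (Polynomial.X ^ (k + 1) * q) =
          Polynomial.aeval Y (Polynomial.X ^ (k + 1) * q) * e +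
          Polynomial.aeval Y (Polynomial.X ^ (k + 1) * q) * (1 - e) := by
        rw [← mul_add, add_sub_cancel, mul_one]
      rw [h7, h1, h3, map_mul, map_pow, Polynomial.aeval_X, Polynomial.eval_mul,
        Polynomial.eval_pow, Polynomial.eval_X, mul_assoc]
    have hne : c ^ (k + 1) * q.eval c ≠ 0 := mul_ne_zero (pow_ne_zero _ hc0') hq
    rw [h5, h6, smul_add, smul_smul, inv_mul_cancel₀ hne, one_smul]
  simp only [h4]
  have h8 : Tendsto (fun k : ℕ => (c ^ (k + 1) * q.eval c)⁻¹ •
      (z ^ (k + 1) * (Polynomial.aeval z q * (1 - e)))) atTop (𝓝 0) := by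
    rw [tendsto_zero_iff_norm_tendsto_zero]
    have h9 : Tendsto (fun k : ℕ => (‖z‖ / ‖c‖) ^ (k + 1) *
        (‖q.eval c‖⁻¹ * ‖Polynomial.aeval z q * (1 - e)‖)) atTop (𝓝 0) := by
      have h10 : Tendsto (fun k : ℕ => (‖z‖ / ‖c‖) ^ (k + 1)) atTop (𝓝 0) :=
        (tendsto_pow_atTop_nhds_zero_of_lt_one (by positivity)
          ((div_lt_one hc0).mpr hc)).comp (tendsto_add_atTop_nat 1)
      simpa using h10.mul_const (‖q.eval c‖⁻¹ * ‖Polynomial.aeval z q * (1 - e)‖)
    refine squeeze_zero (fun _ => norm_nonneg _) (fun k => ?_) h9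
    rw [norm_smul, norm_inv, norm_mul, norm_pow, mul_inv, div_pow]
    calc (‖c‖ ^ (k + 1))⁻¹ * ‖q.eval c‖⁻¹ * ‖z ^ (k + 1) * (Polynomial.aeval z q * (1 - e))‖
        ≤ (‖c‖ ^ (k + 1))⁻¹ * ‖q.eval c‖⁻¹ *
            (‖z‖ ^ (k + 1) * ‖Polynomial.aeval z q * (1 - e)‖) := by
          refine mul_le_mul_of_nonneg_left ?_ (by positivity)
          refine (norm_mul_le _ _).trans (mul_le_mul_of_nonneg_right ?_ (norm_nonneg _))
          exact norm_pow_le' _ (Nat.succ_pos k)
      _ = _ := by field_simp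
  simpa using h8.const_add e

end Pool.Agent.Lib.Helper29.HFG
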