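import Pool.Agent.Lib.Helper29.HFG.Stage2

set_option autoImplicit false

open Finset Filter Topology Matrix

namespace Pool.Agent.Lib.Helper29.HFG

attribute [local instance] Matrix.linftyOpNormedAddCommGroup Matrix.linftyOpNormedSpace
  Matrix.linftyOpNormedRing Matrix.linftyOpNormedAlgebra

variable {X : ℕ → Type} [∀ m, Fintype (X m)] [∀ m, DecidableEq (X m)]
variable {A : Subalgebra ℂ (Fam X)} {Δ N : ∀ m, Submodule ℂ (X m → ℂ)}

/-- the elements of `A` that vanish below level `m`, at level `m` -/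
def lvl (A : Subalgebra ℂ (Fam X)) (m : ℕ) : Submodule ℂ (Matrix (X m) (X m) ℂ) where
  carrier := {z | ∃ j ∈ A, (∀ i < m, j i = 0) ∧ j m = z}
  zero_mem' := ⟨0, A.zero_mem, fun _ _ => rfl, rfl⟩
  add_mem' := by
    rintro _ _ ⟨j, hj, hj0, rfl⟩ ⟨j', hj', hj0', rfl⟩
    exact ⟨j + j', A.add_mem hj hj', fun i hi => by
      rw [Pi.add_apply, hj0 i hi, hj0' i hi, add_zero], rfl⟩
  smul_mem' := by
    rintro a _ ⟨j, hj, hj0, rfl⟩
    exact ⟨a • j, A.smul_mem hj a, fun i hi => by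
      rw [Pi.smul_apply, hj0 i hi, smul_zero], rfl⟩

lemma lvl_mul_left {m : ℕ} {x : Fam X} (hx : x ∈ A) {z : Matrix (X m) (X m) ℂ}
    (hz : z ∈ lvl A m) : x m * z ∈ lvl A m := by
  obtain ⟨j, hj, hj0, rfl⟩ := hz
  exact ⟨x * j, A.mul_mem hx hj, fun i hi => by rw [Pi.mul_apply, hj0 i hi, mul_zero], rfl⟩

lemma lvl_mul_right {m : ℕ} {x : Fam X} (hx : x ∈ A) {z : Matrix (X m) (X m) ℂ}
    (hz : z ∈ lvl A m) : z * x m ∈ lvl A m := by
  obtain ⟨j, hj, hj0, rfl⟩ := hz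
  exact ⟨j * x, A.mul_mem hj hx, fun i hi => by rw [Pi.mul_apply, hj0 i hi, zero_mul], rfl⟩

lemma lvl_mul {m : ℕ} {z z' : Matrix (X m) (X m) ℂ}
    (hz : z ∈ lvl A m) (hz' : z' ∈ lvl A m) : z * z' ∈ lvl A m := by
  obtain ⟨j, hj, _, rfl⟩ := hz
  exact lvl_mul_left hj hz'

lemma vecMulVec_sum_mulVec {Y : Type*} [Fintype Y] {d : ℕ} (w φ b : Fin d → Y → ℂ)
    (h : ∀ i j, φ i ⬝ᵥ b j = if i = j then 1 else 0) (j : Fin d) :
    (∑ i, vecMulVec (w i) (φ i)) *ᵥ b j = w j := by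
  rw [Matrix.sum_mulVec]
  rw [Finset.sum_eq_single j]
  · rw [vecMulVec_mulVec, h, if_pos rfl]; simp
  · intro i _ hij; rw [vecMulVec_mulVec, h, if_neg hij]; simp
  · intro h'; exact absurd (Finset.mem_univ j) h'

lemma vecMul_sum_vecMulVec {Y : Type*} [Fintype Y] {d : ℕ} (w φ b : Fin d → Y → ℂ)
    (h : ∀ i j, φ i ⬝ᵥ b j = if i = j then 1 else 0) (j : Fin d) :
    φ j ᵥ* (∑ i, vecMulVec (b i) (w i)) = w j := by
  rw [Matrix.vecMul_sum]
  rw [Finset.sum_eq_single j]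
  · rw [vecMul_vecMulVec, h, if_pos rfl, one_smul]
  · intro i _ hij; rw [vecMul_vecMulVec, h, if_neg (Ne.symm hij), zero_smul]
  · intro h'; exact absurd (Finset.mem_univ j) h'

/-- approximately realised by small elements -/
def App (g : Fin 5 → Fam X) (m : ℕ) (ρ : {ρ : ℝ // 0 < ρ}) (z : Matrix (X m) (X m) ℂ) : Prop :=
  ∃ Y : ℕ → FreeEntire 5, (∀ k, ∀ i < m, ev g (Y k) i = 0) ∧
    Tendsto (fun k => ev g (Y k) m) atTop (𝓝 z) ∧
    Tendsto (fun k => entireNorm 5 ρ (Y k)) atTop (𝓝 0)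

lemma App.add {g : Fin 5 → Fam X} {m : ℕ} {ρ : {ρ : ℝ // 0 < ρ}} {z z' : Matrix (X m) (X m) ℂ}
    (h : App g m ρ z) (h' : App g m ρ z') : App g m ρ (z + z') := by
  obtain ⟨Y, h1, h2, h3⟩ := h
  obtain ⟨Y', h1', h2', h3'⟩ := h'
  refine ⟨fun k => Y k + Y' k, fun k i hi => ?_, ?_, ?_⟩
  · rw [map_add, Pi.add_apply, h1 k i hi, h1' k i hi, add_zero]
  · simpa only [map_add, Pi.add_apply] using h2.add h2'
  · have h4 := h3.add h3'
    rw [add_zero] at h4
    exact squeeze_zero (fun _ => apply_nonneg _ _) (fun k => map_add_le_add _ _ _) h4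

lemma App.smul {g : Fin 5 → Fam X} {m : ℕ} {ρ : {ρ : ℝ // 0 < ρ}} {z : Matrix (X m) (X m) ℂ}
    (h : App g m ρ z) (a : ℂ) : App g m ρ (a • z) := by
  obtain ⟨Y, h1, h2, h3⟩ := h
  refine ⟨fun k => a • Y k, fun k i hi => ?_, ?_, ?_⟩
  · rw [map_smul, Pi.smul_apply, h1 k i hi, smul_zero]
  · simpa only [map_smul, Pi.smul_apply] using h2.const_smul a
  · have h4 := h3.const_mul ‖a‖
    rw [mul_zero] at h4
    simpa only [map_smul_eq_mul] using h4

lemma App.zero {g : Fin 5 → Fam X} {m : ℕ} {ρ : {ρ : ℝ // 0 < ρ}} :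
    App g m ρ (0 : Matrix (X m) (X m) ℂ) :=
  ⟨fun _ => 0, fun _ _ _ => by simp, by simp, by simp⟩

/-- multiplication of approximations by fixed elements -/
lemma App.mul {g : Fin 5 → Fam X} {m : ℕ} {ρ : {ρ : ℝ // 0 < ρ}} {z : Matrix (X m) (X m) ℂ}
    (h : App g m ρ z) (P P' : FreeEntire 5) : App g m ρ (ev g P m * z * ev g P' m) := by
  obtain ⟨Y, h1, h2, h3⟩ := h
  refine ⟨fun k => P * Y k * P', fun k i hi => ?_, ?_, ?_⟩
  · rw [map_mul, map_mul, Pi.mul_apply, Pi.mul_apply, h1 k i hi, mul_zero, zero_mul]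
  · simp only [map_mul, Pi.mul_apply]
    exact (h2.const_mul _).mul_const _
  · have h4 := (h3.const_mul (entireNorm 5 ρ P)).mul_const (entireNorm 5 ρ P')
    rw [mul_zero, zero_mul] at h4
    refine squeeze_zero (fun _ => apply_nonneg _ _) (fun k => ?_) h4
    refine (entireNorm_mul_le ρ _ _).trans (mul_le_mul_of_nonneg_right ?_ (apply_nonneg _ _))
    exact entireNorm_mul_le ρ _ _

/-- exact realisation from approximate realisation -/
lemma exact_of_app {g : Fin 5 → Fam X} {m : ℕ} {ρ : {ρ : ℝ // 0 < ρ}}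
    {z : Matrix (X m) (X m) ℂ} (h : App g m ρ z) {ε : ℝ} (hε : 0 < ε) :
    ∃ P : FreeEntire 5, (∀ i < m, ev g P i = 0) ∧ ev g P m = z ∧ entireNorm 5 ρ P ≤ ε := by
  obtain ⟨Y, h1, h2, h3⟩ := h
  let E : Submodule ℂ (FreeEntire 5) :=
    { carrier := {P | ∀ i < m, ev g P i = 0}
      zero_mem' := fun i _ => by simp
      add_mem' := fun {P Q} hP hQ i hi => by
        rw [map_add, Pi.add_apply, hP i hi, hQ i hi, add_zero]
      smul_mem' := fun a P hP i hi => by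
        rw [map_smul, Pi.smul_apply, hP i hi, smul_zero] }
  let L : E →ₗ[ℂ] Matrix (X m) (X m) ℂ :=
    ((LinearMap.proj m : Fam X →ₗ[ℂ] Matrix (X m) (X m) ℂ) ∘ₗ (ev g).toLinearMap) ∘ₗ E.subtype
  have hL : ∀ P : E, L P = ev g P.1 m := fun P => rfl
  let W := LinearMap.range L
  have hWc : IsClosed (W : Set (Matrix (X m) (X m) ℂ)) := W.closed_of_finiteDimensional
  have hz : z ∈ W := by
    refine hWc.mem_of_tendsto h2 (Eventually.of_forall fun k => ?_)
    exact ⟨⟨Y k, h1 k⟩, rfl⟩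
  obtain ⟨s, hs⟩ := L.rangeRestrict.exists_rightInverse_of_surjective L.range_rangeRestrict
  have hs' : ∀ w : W, ev g (s w).1 m = w.1 := by
    intro w
    have := congrArg (fun f => (f w).1) hs
    exact this
  let T : W →ₗ[ℂ] FreeEntire 5 := E.subtype ∘ₗ s
  have hT : Continuous T := LinearMap.continuous_of_finiteDimensional T
  have hYk : ∀ k, ev g (Y k) m ∈ W := fun k => ⟨⟨Y k, h1 k⟩, rfl⟩
  let w : ℕ → W := fun k => ⟨z, hz⟩ - ⟨ev g (Y k) m, hYk k⟩
  have hw : Tendsto w atTop (𝓝 0) := by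
    rw [tendsto_subtype_rng]
    have h4 := (tendsto_const_nhds (x := z)).sub h2
    rw [sub_self] at h4
    exact h4
  have h5 : Tendsto (fun k => entireNorm 5 ρ (T (w k))) atTop (𝓝 0) := by
    have h6 := ((continuous_entireNorm ρ).comp hT).tendsto (0 : W)
    rw [Function.comp_apply, map_zero, map_zero] at h6
    exact h6.comp hw
  have h7 := h3.add h5
  rw [add_zero] at h7
  obtain ⟨k, hk⟩ := (h7.eventually (gt_mem_nhds hε)).exists
  refine ⟨Y k + T (w k), fun i hi => ?_, ?_, ?_⟩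
  · rw [map_add, Pi.add_apply, h1 k i hi, zero_add]
    exact (s (w k)).2 i hi
  · rw [map_add, Pi.add_apply]
    have h8 : ev g (T (w k)) m = z - ev g (Y k) m := hs' (w k)
    rw [h8]; abel
  · exact (map_add_le_add _ _ _).trans hk.le

end Pool.Agent.Lib.Helper29.HFG
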