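import Pool.Agent.Lib.Helper29.HFG.Stage3

set_option autoImplicit false

open Finset Filter Topology Matrix

namespace Pool.Agent.Lib.Helper29.HFG

attribute [local instance] Matrix.linftyOpNormedAddCommGroup Matrix.linftyOpNormedSpace
  Matrix.linftyOpNormedRing Matrix.linftyOpNormedAlgebra

variable {X : ℕ → Type} [∀ m, Fintype (X m)] [∀ m, DecidableEq (X m)]
variable {A : Subalgebra ℂ (Fam X)} {Δ N : ∀ m, Submodule ℂ (X m → ℂ)}

lemma exists_large {q : Polynomial ℂ} (hq : q ≠ 0) (R : ℝ) : ∃ c : ℂ, R < ‖c‖ ∧ q.eval c ≠ 0 := by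
  by_contra hcon
  push Not at hcon
  apply hq
  apply Polynomial.eq_zero_of_infinite_isRoot
  obtain ⟨K, hK⟩ := exists_nat_gt R
  have h1 : Set.range (fun k : ℕ => ((k + K : ℕ) : ℂ)) ⊆ {x | q.IsRoot x} := by
    rintro _ ⟨k, rfl⟩
    refine hcon _ ?_
    rw [Complex.norm_natCast]
    push_cast
    have : (0 : ℝ) ≤ k := Nat.cast_nonneg k
    linarith
  refine Set.Infinite.mono h1 (Set.infinite_range_of_injective ?_)
  intro a b hab
  have h2 : ((a + K : ℕ) : ℂ) = ((b + K : ℕ) : ℂ) := hab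
  have h3 := Nat.cast_injective h2
  omega

lemma ev_aeval_gen (g : Fin 5 → Fam X) (k : Fin 5) (q : Polynomial ℂ) (i : ℕ) :
    ev g (Polynomial.aeval (gen k) q) i = Polynomial.aeval (g k i) q := by
  have h1 : ev g (Polynomial.aeval (gen k) q) i =
      evalHom (fun k => g k i) (Polynomial.aeval (gen k) q) := rfl
  rw [h1, ← Polynomial.aeval_algHom_apply, evalHom_gen]

lemma Good.left_gen (hA : Good A Δ N) {m : ℕ} {g : Fin 5 → Fam X} (hg : ∀ k, g k ∈ A)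
    (hG : ∀ x ∈ A, ∃ P : FreeEntire 5, ∀ i < m, ev g P i = x i) {d : ℕ} (hd : 0 < d)
    {b φ : Fin d → X m → ℂ} (hbφ : IsDualFam (Δ m) (N m) b φ)
    (hmax : ∀ v ∈ Δ m, ∀ ψ ∈ N m, ψ ⬝ᵥ v = ∑ i, (ψ ⬝ᵥ b i) * (φ i ⬝ᵥ v))
    {r : Fin d → X m → ℂ} (hr1 : ∀ i, r i ∈ radL Δ N m)
    (hr2 : radL Δ N m ≤ Submodule.span ℂ {w | ∃ a ∈ A, ∃ i, w = a m *ᵥ r i})
    (h1 : ∀ i : Fin d, ∀ h : (i : ℕ) + 1 < d, g 1 m *ᵥ b i = b ⟨i + 1, h⟩)
    (h2 : ∀ i, g 2 m *ᵥ b i = r i) :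
    ∀ v ∈ Δ m, ∃ P, ev g P m *ᵥ b ⟨0, hd⟩ = v := by
  let S : Submodule ℂ (X m → ℂ) :=
    { carrier := {v | ∃ P, ev g P m *ᵥ b ⟨0, hd⟩ = v}
      zero_mem' := ⟨0, by simp⟩
      add_mem' := by
        rintro _ _ ⟨P, rfl⟩ ⟨Q, rfl⟩
        exact ⟨P + Q, by rw [map_add, Pi.add_apply, add_mulVec]⟩
      smul_mem' := by
        rintro a _ ⟨P, rfl⟩
        exact ⟨a • P, by rw [map_smul, Pi.smul_apply, smul_mulVec]⟩ }
  have hmul : ∀ (Q : FreeEntire 5) (v : X m → ℂ), v ∈ S → ev g Q m *ᵥ v ∈ S := by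
    rintro Q _ ⟨P, rfl⟩
    exact ⟨Q * P, by rw [map_mul, Pi.mul_apply, mulVec_mulVec]⟩
  have hb : ∀ (i : ℕ) (h : i < d), b ⟨i, h⟩ ∈ S := by
    intro i
    induction i with
    | zero => intro h; exact ⟨1, by simp⟩
    | succ i ih =>
      intro h
      have h3 := hmul (gen 1) _ (ih (by omega))
      rw [ev_gen, h1 ⟨i, by omega⟩ h] at h3
      exact h3
  have hr : ∀ i, r i ∈ S := by
    intro i
    have h3 := hmul (gen 2) _ (hb i i.2)
    rw [ev_gen] at h3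
    rw [← h2 i]; exact h3
  have hrad : radL Δ N m ≤ S := by
    refine hr2.trans (Submodule.span_le.mpr ?_)
    rintro _ ⟨x, hx, i, rfl⟩
    obtain ⟨P, hP⟩ := hG x hx
    have h3 : ev g P - x ∈ A := A.sub_mem (ev_mem hA hg P) hx
    have h4 := hA.kill_radL h3 (m := m) (fun i hi => by
      rw [Pi.sub_apply, hP i hi, sub_self]) (hr1 i)
    rw [Pi.sub_apply, sub_mulVec, sub_eq_zero] at h4
    change x m *ᵥ r i ∈ S
    rw [← h4]
    exact hmul P _ (hr i)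
  intro v hv
  have h5 : v - ∑ i, (φ i ⬝ᵥ v) • b i ∈ radL Δ N m := by
    refine ⟨(Δ m).sub_mem hv ((Δ m).sum_mem fun i _ => (Δ m).smul_mem _ (hbφ.1 i)), ?_⟩
    intro ψ hψ
    rw [dotProduct_sub, dotProduct_sum, hmax v hv ψ hψ, sub_eq_zero]
    refine Finset.sum_congr rfl fun i _ => ?_
    rw [dotProduct_smul, smul_eq_mul, mul_comm]
  have h6 : v = (v - ∑ i, (φ i ⬝ᵥ v) • b i) + ∑ i, (φ i ⬝ᵥ v) • b i := by abel
  have h7 : v ∈ S := by
    rw [h6]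
    exact S.add_mem (hrad h5) (S.sum_mem fun i _ => S.smul_mem _ (hb i i.2))
  exact h7

lemma Good.right_gen (hA : Good A Δ N) {m : ℕ} {g : Fin 5 → Fam X} (hg : ∀ k, g k ∈ A)
    (hG : ∀ x ∈ A, ∃ P : FreeEntire 5, ∀ i < m, ev g P i = x i) {d : ℕ} (hd : 0 < d)
    {b φ : Fin d → X m → ℂ} (hbφ : IsDualFam (Δ m) (N m) b φ)
    (hmax : ∀ v ∈ Δ m, ∀ ψ ∈ N m, ψ ⬝ᵥ v = ∑ i, (ψ ⬝ᵥ b i) * (φ i ⬝ᵥ v))
    {r : Fin d → X m → ℂ} (hr1 : ∀ i, r i ∈ radR Δ N m)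
    (hr2 : radR Δ N m ≤ Submodule.span ℂ {w | ∃ a ∈ A, ∃ i, w = r i ᵥ* a m})
    (h1 : ∀ i : Fin d, ∀ h : (i : ℕ) + 1 < d, φ i ᵥ* g 3 m = φ ⟨i + 1, h⟩)
    (h2 : ∀ i, φ i ᵥ* g 4 m = r i) :
    ∀ ψ ∈ N m, ∃ P, φ ⟨0, hd⟩ ᵥ* ev g P m = ψ := by
  let S : Submodule ℂ (X m → ℂ) :=
    { carrier := {v | ∃ P, φ ⟨0, hd⟩ ᵥ* ev g P m = v}
      zero_mem' := ⟨0, by simp⟩
      add_mem' := by
        rintro _ _ ⟨P, rfl⟩ ⟨Q, rfl⟩
        exact ⟨P + Q, by rw [map_add, Pi.add_apply, vecMul_add]⟩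
      smul_mem' := by
        rintro a _ ⟨P, rfl⟩
        exact ⟨a • P, by rw [map_smul, Pi.smul_apply, vecMul_smul]⟩ }
  have hmul : ∀ (Q : FreeEntire 5) (v : X m → ℂ), v ∈ S → v ᵥ* ev g Q m ∈ S := by
    rintro Q _ ⟨P, rfl⟩
    exact ⟨P * Q, by rw [map_mul, Pi.mul_apply, vecMul_vecMul]⟩
  have hb : ∀ (i : ℕ) (h : i < d), φ ⟨i, h⟩ ∈ S := by
    intro i
    induction i with
    | zero => intro h; exact ⟨1, by simp⟩
    | succ i ih =>
      intro h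
      have h3 := hmul (gen 3) _ (ih (by omega))
      rw [ev_gen, h1 ⟨i, by omega⟩ h] at h3
      exact h3
  have hr : ∀ i, r i ∈ S := by
    intro i
    have h3 := hmul (gen 4) _ (hb i i.2)
    rw [ev_gen] at h3
    rw [← h2 i]; exact h3
  have hrad : radR Δ N m ≤ S := by
    refine hr2.trans (Submodule.span_le.mpr ?_)
    rintro _ ⟨x, hx, i, rfl⟩
    obtain ⟨P, hP⟩ := hG x hx
    have h3 : ev g P - x ∈ A := A.sub_mem (ev_mem hA hg P) hx
    have h4 := hA.kill_radR h3 (m := m) (fun i hi => by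
      rw [Pi.sub_apply, hP i hi, sub_self]) (hr1 i)
    rw [Pi.sub_apply, vecMul_sub, sub_eq_zero] at h4
    change r i ᵥ* x m ∈ S
    rw [← h4]
    exact hmul P _ (hr i)
  intro v hv
  have h5 : v - ∑ i, (v ⬝ᵥ b i) • φ i ∈ radR Δ N m := by
    refine ⟨(N m).sub_mem hv ((N m).sum_mem fun i _ => (N m).smul_mem _ (hbφ.2.1 i)), ?_⟩
    intro w hw
    rw [sub_dotProduct, sum_dotProduct, hmax w hw v hv, sub_eq_zero]
    refine Finset.sum_congr rfl fun i _ => ?_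
    rw [smul_dotProduct, smul_eq_mul]
  have h6 : v = (v - ∑ i, (v ⬝ᵥ b i) • φ i) + ∑ i, (v ⬝ᵥ b i) • φ i := by abel
  have h7 : v ∈ S := by
    rw [h6]
    exact S.add_mem (hrad h5) (S.sum_mem fun i _ => S.smul_mem _ (hb i i.2))
  exact h7

/-- the inductive step -/
theorem Good.stage (hA : Good A Δ N) (m : ℕ) {g : Fin 5 → Fam X} (hg : ∀ k, g k ∈ A)
    (hG : ∀ x ∈ A, ∃ P : FreeEntire 5, ∀ i < m, ev g P i = x i) (ρ : {ρ : ℝ // 0 < ρ}) :
    ∃ g' : Fin 5 → Fam X, (∀ k, g' k ∈ A) ∧ (∀ k, ∀ i < m, g' k i = g k i) ∧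
      ∀ x ∈ A, (∀ i < m, x i = 0) → ∀ ε > 0, ∃ P : FreeEntire 5, (∀ i < m, ev g' P i = 0) ∧
        ev g' P m = x m ∧ entireNorm 5 ρ P ≤ ε := by
  classical
  obtain ⟨d, hd, b, φ, hbφ, hmax, ⟨r, hr1, hr2⟩, ⟨r', hr1', hr2'⟩⟩ := hA.exists_data m
  have hdual := hbφ.2.2
  set b0 := b ⟨0, hd⟩ with hb0
  set φ0 := φ ⟨0, hd⟩ with hφ0
  have h00 : φ0 ⬝ᵥ b0 = 1 := by rw [hb0, hφ0, hdual, if_pos rfl]
  set e : Matrix (X m) (X m) ℂ := vecMulVec b0 φ0 with he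
  have he_lvl : e ∈ lvl A m := hA.rank_one m b0 (hbφ.1 _) φ0 (hbφ.2.1 _)
  have he2 : e * e = e := by
    rw [he, vecMulVec_mul_vecMulVec, h00, one_smul]
  set yh := g 0 m with hyh
  set z := (1 - e) * yh * (1 - e) with hz
  have he1 : e * (1 - e) = 0 := by rw [mul_sub, mul_one, he2, sub_self]
  have he1' : (1 - e) * e = 0 := by rw [sub_mul, one_mul, he2, sub_self]
  have hez : e * z = 0 := by
    rw [hz, ← mul_assoc, ← mul_assoc, he1, zero_mul, zero_mul]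
  have hze : z * e = 0 := by
    rw [hz, mul_assoc, he1', mul_zero]
  -- the polynomial
  set q : Polynomial ℂ := ∏ i ∈ range m, (g 0 i).charpoly with hq
  have hq0 : q ≠ 0 := by
    rw [hq, Finset.prod_ne_zero_iff]
    exact fun i _ => (Matrix.charpoly_monic _).ne_zero
  obtain ⟨c, hc1, hc2⟩ := exists_large hq0 (max ‖z‖ ρ)
  have hcz : ‖z‖ < ‖c‖ := lt_of_le_of_lt (le_max_left _ _) hc1
  have hcρ : (ρ : ℝ) < ‖c‖ := lt_of_le_of_lt (le_max_right _ _) hc1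
  have hc0 : 0 < ‖c‖ := lt_trans ρ.2 hcρ
  have hvm : ∀ v ∈ Δ m, ∀ ψ ∈ N m, vecMulVec v ψ ∈ lvl A m := fun v hv ψ hψ =>
    hA.rank_one m v hv ψ hψ
  -- corrections
  set nb : Fin d → X m → ℂ := fun i => if h : (i : ℕ) + 1 < d then b ⟨i + 1, h⟩ else 0 with hnb
  set nφ : Fin d → X m → ℂ := fun i => if h : (i : ℕ) + 1 < d then φ ⟨i + 1, h⟩ else 0 with hnφ
  have hnbΔ : ∀ i, nb i ∈ Δ m := by
    intro i
    rw [hnb]
    by_cases h : (i : ℕ) + 1 < d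
    · simp only [h, dif_pos]; exact hbφ.1 _
    · simp only [h, dif_neg, not_false_eq_true]; exact (Δ m).zero_mem
  have hnφN : ∀ i, nφ i ∈ N m := by
    intro i
    rw [hnφ]
    by_cases h : (i : ℕ) + 1 < d
    · simp only [h, dif_pos]; exact hbφ.2.1 _
    · simp only [h, dif_neg, not_false_eq_true]; exact (N m).zero_mem
  set δ : Fin 5 → Matrix (X m) (X m) ℂ := ![z + c • e - yh,
    ∑ i, vecMulVec (nb i - g 1 m *ᵥ b i) (φ i),
    ∑ i, vecMulVec (r i - g 2 m *ᵥ b i) (φ i),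
    ∑ i, vecMulVec (b i) (nφ i - φ i ᵥ* g 3 m),
    ∑ i, vecMulVec (b i) (r' i - φ i ᵥ* g 4 m)] with hδ
  have hδlvl : ∀ k, δ k ∈ lvl A m := by
    intro k
    fin_cases k
    · change z + c • e - yh ∈ lvl A m
      have h1 : z + c • e - yh = e * yh * e - e * yh - yh * e + c • e := by
        rw [hz]; noncomm_ring
      rw [h1]
      have h2 : e * yh ∈ lvl A m := lvl_mul_right (hg 0) he_lvl
      have h3 : yh * e ∈ lvl A m := lvl_mul_left (hg 0) he_lvl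
      exact (lvl A m).add_mem ((lvl A m).sub_mem ((lvl A m).sub_mem (lvl_mul h2 he_lvl) h2) h3)
        ((lvl A m).smul_mem c he_lvl)
    · change ∑ i, vecMulVec (nb i - g 1 m *ᵥ b i) (φ i) ∈ lvl A m
      exact (lvl A m).sum_mem fun i _ => hvm _ ((Δ m).sub_mem (hnbΔ i)
        (hA.mulVec_mem (hg 1) (hbφ.1 i))) _ (hbφ.2.1 i)
    · change ∑ i, vecMulVec (r i - g 2 m *ᵥ b i) (φ i) ∈ lvl A m
      exact (lvl A m).sum_mem fun i _ => hvm _ ((Δ m).sub_mem (hr1 i).1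
        (hA.mulVec_mem (hg 2) (hbφ.1 i))) _ (hbφ.2.1 i)
    · change ∑ i, vecMulVec (b i) (nφ i - φ i ᵥ* g 3 m) ∈ lvl A m
      exact (lvl A m).sum_mem fun i _ => hvm _ (hbφ.1 i) _ ((N m).sub_mem (hnφN i)
        (hA.vecMul_mem (hg 3) (hbφ.2.1 i)))
    · change ∑ i, vecMulVec (b i) (r' i - φ i ᵥ* g 4 m) ∈ lvl A m
      exact (lvl A m).sum_mem fun i _ => hvm _ (hbφ.1 i) _ ((N m).sub_mem (hr1' i).1
        (hA.vecMul_mem (hg 4) (hbφ.2.1 i)))
  choose j hjA hj0 hjm using hδlvl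
  have hg'A : ∀ k, g k + j k ∈ A := fun k => A.add_mem (hg k) (hjA k)
  have hlow : ∀ k, ∀ i < m, (g k + j k) i = g k i := fun k i hi => by
    rw [Pi.add_apply, hj0 k i hi, add_zero]
  refine ⟨fun k => g k + j k, hg'A, hlow, ?_⟩
  set g' : Fin 5 → Fam X := fun k => g k + j k with hg'
  have hG' : ∀ x ∈ A, ∃ P : FreeEntire 5, ∀ i < m, ev g' P i = x i := by
    intro x hx
    obtain ⟨P, hP⟩ := hG x hx
    exact ⟨P, fun i hi => by rw [← hP i hi]; exact ev_congr (fun k => hlow k i hi) P⟩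
  have hy' : g' 0 m = z + c • e := by
    change g 0 m + j 0 m = _
    rw [hjm 0]
    change yh + (z + c • e - yh) = _
    abel
  have h1' : ∀ i, g' 1 m *ᵥ b i = nb i := by
    intro i
    change (g 1 m + j 1 m) *ᵥ b i = _
    rw [hjm 1, add_mulVec]
    change g 1 m *ᵥ b i + (∑ i, vecMulVec (nb i - g 1 m *ᵥ b i) (φ i)) *ᵥ b i = _
    rw [vecMulVec_sum_mulVec _ _ _ hdual]; abel
  have h2' : ∀ i, g' 2 m *ᵥ b i = r i := by
    intro i
    change (g 2 m + j 2 m) *ᵥ b i = _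
    rw [hjm 2, add_mulVec]
    change g 2 m *ᵥ b i + (∑ i, vecMulVec (r i - g 2 m *ᵥ b i) (φ i)) *ᵥ b i = _
    rw [vecMulVec_sum_mulVec _ _ _ hdual]; abel
  have h3' : ∀ i, φ i ᵥ* g' 3 m = nφ i := by
    intro i
    change φ i ᵥ* (g 3 m + j 3 m) = _
    rw [hjm 3, vecMul_add]
    change φ i ᵥ* g 3 m + φ i ᵥ* (∑ i, vecMulVec (b i) (nφ i - φ i ᵥ* g 3 m)) = _
    rw [vecMul_sum_vecMulVec _ _ _ hdual]; abel
  have h4' : ∀ i, φ i ᵥ* g' 4 m = r' i := by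
    intro i
    change φ i ᵥ* (g 4 m + j 4 m) = _
    rw [hjm 4, vecMul_add]
    change φ i ᵥ* g 4 m + φ i ᵥ* (∑ i, vecMulVec (b i) (r' i - φ i ᵥ* g 4 m)) = _
    rw [vecMul_sum_vecMulVec _ _ _ hdual]; abel
  have hleft := hA.left_gen hg'A hG' hd hbφ hmax hr1 hr2
    (fun i h => by rw [h1' i, hnb]; simp only [h, dif_pos]) h2'
  have hright := hA.right_gen hg'A hG' hd hbφ hmax hr1' hr2'
    (fun i h => by rw [h3' i, hnφ]; simp only [h, dif_pos]) h4'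
  -- approximate the idempotent
  have happ : App g' m ρ e := by
    refine ⟨fun k => (c ^ (k + 1) * q.eval c)⁻¹ •
      (gen 0 ^ (k + 1) * Polynomial.aeval (gen 0) q), ?_, ?_, ?_⟩
    · intro k i hi
      have h5 : Polynomial.aeval (g' 0 i) q = 0 := by
        have h6 : g' 0 i = g 0 i := hlow 0 i hi
        obtain ⟨t, ht⟩ : (g 0 i).charpoly ∣ q :=
          Finset.dvd_prod_of_mem (fun i => (g 0 i).charpoly) (Finset.mem_range.mpr hi)
        rw [h6, ht, map_mul, Matrix.aeval_self_charpoly, zero_mul]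
      rw [map_smul, map_mul, Pi.smul_apply, Pi.mul_apply, ev_aeval_gen, h5, mul_zero, smul_zero]
    · have h5 := tendsto_idem he2 hez hze hcz hc2
      have h6 : (fun k : ℕ => ev g' ((c ^ (k + 1) * q.eval c)⁻¹ •
          (gen 0 ^ (k + 1) * Polynomial.aeval (gen 0) q)) m) =
          fun k : ℕ => (c ^ (k + 1) * q.eval c)⁻¹ •
            ((z + c • e) ^ (k + 1) * Polynomial.aeval (z + c • e) q) := by
        funext k
        rw [map_smul, map_mul, Pi.smul_apply, Pi.mul_apply, ev_aeval_gen, map_pow, Pi.pow_apply,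
          ev_gen, hy']
      rw [h6]
      exact h5
    · have h5 : Tendsto (fun k : ℕ => ((ρ : ℝ) / ‖c‖) ^ (k + 1) *
          (‖q.eval c‖⁻¹ * entireNorm 5 ρ (Polynomial.aeval (gen 0) q))) atTop (𝓝 0) := by
        have h10 : Tendsto (fun k : ℕ => ((ρ : ℝ) / ‖c‖) ^ (k + 1)) atTop (𝓝 0) :=
          (tendsto_pow_atTop_nhds_zero_of_lt_one (div_nonneg ρ.2.le hc0.le)
            ((div_lt_one hc0).mpr hcρ)).comp (tendsto_add_atTop_nat 1)
        simpa using h10.mul_const (‖q.eval c‖⁻¹ * entireNorm 5 ρ (Polynomial.aeval (gen 0) q))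
      refine squeeze_zero (fun _ => apply_nonneg _ _) (fun k => ?_) h5
      rw [map_smul_eq_mul, norm_inv, norm_mul, norm_pow, mul_inv, div_pow]
      calc (‖c‖ ^ (k + 1))⁻¹ * ‖q.eval c‖⁻¹ *
            entireNorm 5 ρ (gen 0 ^ (k + 1) * Polynomial.aeval (gen 0) q)
          ≤ (‖c‖ ^ (k + 1))⁻¹ * ‖q.eval c‖⁻¹ *
            ((ρ : ℝ) ^ (k + 1) * entireNorm 5 ρ (Polynomial.aeval (gen 0) q)) := by
            refine mul_le_mul_of_nonneg_left ?_ (by positivity)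
            refine (entireNorm_mul_le ρ _ _).trans
              (mul_le_mul_of_nonneg_right ?_ (apply_nonneg _ _))
            refine (entireNorm_pow_le ρ _ _).trans ?_
            rw [entireNorm_gen]
        _ = _ := by field_simp
  have happ2 : ∀ v ∈ Δ m, ∀ ψ ∈ N m, App g' m ρ (vecMulVec v ψ) := by
    intro v hv ψ hψ
    obtain ⟨P, hP⟩ := hleft v hv
    obtain ⟨Q, hQ⟩ := hright ψ hψ
    have h5 := happ.mul P Q
    rw [he, mul_vecMulVec, vecMulVec_mul, hP, hQ] at h5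
    exact h5
  intro x hx hx0 ε hε
  refine exact_of_app ?_ hε
  have h6 := mem_span_rank_one (Δ m) (N m) (x m) (hA.col_mem m x hx hx0) (hA.row_mem m x hx hx0)
  refine Submodule.span_induction (p := fun y _ => App g' m ρ y) ?_ App.zero ?_ ?_ h6
  · rintro _ ⟨v, hv, ψ, hψ, rfl⟩
    exact happ2 v hv ψ hψ
  · intro y y' _ _ hy hy'
    exact hy.add hy'
  · intro a y _ hy
    exact hy.smul a

end Pool.Agent.Lib.Helper29.HFG
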