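import Pool.Agent.Lib.Helper29.HFG.Stage4

set_option autoImplicit false

open Finset Filter Topology Matrix

namespace Pool.Agent.Lib.Helper29.HFG

attribute [local instance] Matrix.linftyOpNormedAddCommGroup Matrix.linftyOpNormedSpace
  Matrix.linftyOpNormedRing Matrix.linftyOpNormedAlgebra

variable {X : ℕ → Type} [∀ m, Fintype (X m)] [∀ m, DecidableEq (X m)]
variable {A : Subalgebra ℂ (Fam X)} {Δ N : ∀ m, Submodule ℂ (X m → ℂ)}

/-- the radius used at level `m` -/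
noncomputable def rho (m : ℕ) : {ρ : ℝ // 0 < ρ} := ⟨m + 1, by positivity⟩

lemma rho_mono {m m' : ℕ} (h : m ≤ m') : (rho m).1 ≤ (rho m').1 := by
  unfold rho
  have : (m : ℝ) ≤ m' := by exact_mod_cast h
  simpa using this

/-- the property obtained at level `m` -/
def Lev (A : Subalgebra ℂ (Fam X)) (g : Fin 5 → Fam X) (m : ℕ) : Prop :=
  ∀ x ∈ A, (∀ i < m, x i = 0) → ∀ ε > 0, ∃ P : FreeEntire 5, (∀ i < m, ev g P i = 0) ∧
    ev g P m = x m ∧ entireNorm 5 (rho m) P ≤ ε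

/-- states of the induction -/
def St (A : Subalgebra ℂ (Fam X)) (m : ℕ) : Type :=
  {g : Fin 5 → Fam X // (∀ k, g k ∈ A) ∧ ∀ x ∈ A, ∃ P : FreeEntire 5, ∀ i < m, ev g P i = x i}

lemma exists_next (hA : Good A Δ N) (m : ℕ) (s : St A m) :
    ∃ s' : St A (m + 1), (∀ k, ∀ i < m, s'.1 k i = s.1 k i) ∧ Lev A s'.1 m := by
  obtain ⟨g, hg, hG⟩ := s
  obtain ⟨g', hg', hlow, hlev⟩ := hA.stage m hg hG (rho m)
  refine ⟨⟨g', hg', ?_⟩, hlow, hlev⟩
  intro x hx
  obtain ⟨P, hP⟩ := hG x hx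
  have hP' : ∀ i < m, ev g' P i = x i := fun i hi => by
    rw [← hP i hi]; exact ev_congr (fun k => hlow k i hi) P
  obtain ⟨Q, hQ0, hQm, _⟩ := hlev (x - ev g' P) (A.sub_mem hx (ev_mem hA hg' P))
    (fun i hi => by rw [Pi.sub_apply, hP' i hi, sub_self]) 1 one_pos
  refine ⟨P + Q, fun i hi => ?_⟩
  rw [map_add, Pi.add_apply]
  rcases Nat.lt_succ_iff_lt_or_eq.mp hi with h | h
  · rw [hP' i h, hQ0 i h, add_zero]
  · subst h; rw [hQm, Pi.sub_apply]; abel

lemma exists_gens (hA : Good A Δ N) : ∃ g : Fin 5 → Fam X, (∀ k, g k ∈ A) ∧ ∀ m, Lev A g m := by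
  have hstep : ∀ m (s : St A m), ∃ s' : St A (m + 1), (∀ k, ∀ i < m, s'.1 k i = s.1 k i) ∧
    Lev A s'.1 m := exists_next hA
  choose nxt hnxt1 hnxt2 using hstep
  let s0 : St A 0 := ⟨fun _ => 0, fun _ => A.zero_mem, fun x _ => ⟨0, fun i hi => by omega⟩⟩
  let sq : ∀ m, St A m := fun m => Nat.rec s0 (fun m s => nxt m s) m
  have hsq : ∀ m, sq (m + 1) = nxt m (sq m) := fun m => rfl
  have hagree : ∀ i m, i < m → ∀ k, (sq m).1 k i = (sq (i + 1)).1 k i := by
    intro i m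
    induction m with
    | zero => intro h; omega
    | succ m ih =>
      intro h k
      rcases Nat.lt_succ_iff_lt_or_eq.mp h with h' | h'
      · rw [hsq, hnxt1 m (sq m) k i h', ih h' k]
      · subst h'; rfl
  let g : Fin 5 → Fam X := fun k i => (sq (i + 1)).1 k i
  have hglow : ∀ m, ∀ i < m, ∀ k, g k i = (sq m).1 k i := fun m i hi k => (hagree i m hi k).symm
  refine ⟨g, fun k => ?_, fun m => ?_⟩
  · refine hA.closed _ fun m => ⟨(sq m).1 k, (sq m).2.1 k, fun i hi => (hglow m i hi k).symm⟩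
  · intro x hx hx0 ε hε
    obtain ⟨P, hP0, hPm, hPn⟩ := hnxt2 m (sq m) x hx hx0 ε hε
    refine ⟨P, fun i hi => ?_, ?_, hPn⟩
    · rw [← hP0 i hi]
      exact ev_congr (fun k => hglow (m + 1) i (by omega) k) P
    · rw [← hPm]
      exact ev_congr (fun k => hglow (m + 1) m (by omega) k) P

/-- The main abstract theorem. -/
theorem Good.main (hA : Good A Δ N) : ∃ g : Fin 5 → Fam X, (∀ k, g k ∈ A) ∧
    ∀ m₀ : ℕ, ∀ h ∈ A, (∀ i < m₀, h i = 0) → ∀ ε > 0, ∃ P : FreeEntire 5, ev g P = h ∧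
      entireNorm 5 (rho m₀) P ≤ ε := by
  obtain ⟨g, hg, hlev⟩ := exists_gens hA
  refine ⟨g, hg, ?_⟩
  intro m₀ h hh hh0 ε hε
  -- states
  let T : ℕ → Type := fun k => {x : Fam X // x ∈ A ∧ ∀ i < m₀ + k, x i = 0}
  have hstep : ∀ k (x : T k), ∃ P : FreeEntire 5, ∃ y : T (k + 1), y.1 = x.1 - ev g P ∧
      entireNorm 5 (rho (m₀ + k)) P ≤ ε / 2 / 2 ^ k := by
    intro k x
    obtain ⟨P, hP0, hPm, hPn⟩ := hlev (m₀ + k) x.1 x.2.1 x.2.2 (ε / 2 / 2 ^ k) (by positivity)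
    refine ⟨P, ⟨x.1 - ev g P, A.sub_mem x.2.1 (ev_mem hA hg P), fun i hi => ?_⟩, rfl, hPn⟩
    rw [Pi.sub_apply]
    rcases Nat.lt_succ_iff_lt_or_eq.mp (show i < (m₀ + k) + 1 by omega) with h | h
    · rw [x.2.2 i h, hP0 i h, sub_self]
    · subst h; rw [hPm, sub_self]
  choose PP nx hnx1 hnx2 using hstep
  let t0 : T 0 := ⟨h, hh, fun i hi => hh0 i (by omega)⟩
  let tq : ∀ k, T k := fun k => Nat.rec t0 (fun k t => nx k t) k
  have htq : ∀ k, tq (k + 1) = nx k (tq k) := fun k => rfl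
  let P : ℕ → FreeEntire 5 := fun k => PP k (tq k)
  have hPn : ∀ k, entireNorm 5 (rho (m₀ + k)) (P k) ≤ ε / 2 / 2 ^ k := fun k => hnx2 k (tq k)
  have hsum : ∀ K, (tq K).1 = h - ev g (∑ k ∈ range K, P k) := by
    intro K
    induction K with
    | zero => simp [tq, t0]
    | succ K ih =>
      rw [htq, hnx1, ih, Finset.sum_range_succ, map_add]
      change h - ev g (∑ k ∈ range K, P k) - ev g (P K) = _
      abel
  have hgeo : Summable fun k : ℕ => ε / 2 / 2 ^ k := summable_geometric_two' ε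
  have hS : ∀ ρ : {ρ : ℝ // 0 < ρ}, Summable fun k => entireNorm 5 ρ (P k) := by
    intro ρ
    obtain ⟨K, hK⟩ := exists_nat_ge (ρ : ℝ)
    rw [← summable_nat_add_iff K]
    refine Summable.of_nonneg_of_le (fun _ => apply_nonneg _ _) (fun k => ?_)
      ((summable_nat_add_iff K).mpr hgeo)
    refine le_trans (entireNorm_mono ?_ _) (hPn (k + K))
    unfold rho
    change (ρ : ℝ) ≤ ((m₀ + (k + K) : ℕ) : ℝ) + 1
    push_cast
    have h1 : (0 : ℝ) ≤ m₀ := Nat.cast_nonneg _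
    have h2 : (0 : ℝ) ≤ k := Nat.cast_nonneg _
    linarith
  obtain ⟨Q, hQ1, _, hQ3⟩ := exists_entire_tsum hS
  refine ⟨Q, ?_, ?_⟩
  · funext i
    have h1 : Tendsto (fun K => ev g (Q - ∑ k ∈ range K, P k) i) atTop (𝓝 0) := by
      refine tendsto_zero_iff_norm_tendsto_zero.mpr ?_
      have h2 := (hQ3 ⟨rad (fun k => g k i), rad_pos _⟩).const_mul
        ‖(1 : Matrix (X i) (X i) ℂ)‖
      rw [mul_zero] at h2
      exact squeeze_zero (fun _ => norm_nonneg _) (fun K => norm_evalHom_le _ _) h2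
    have h3 : (fun K => ev g (Q - ∑ k ∈ range K, P k) i) =ᶠ[atTop] fun _ => ev g Q i - h i := by
      filter_upwards [eventually_ge_atTop (i + 1)] with K hK
      have h4 := (tq K).2.2 i (by omega)
      rw [hsum K, Pi.sub_apply, sub_eq_zero] at h4
      rw [map_sub, Pi.sub_apply, ← h4]
    have h5 := (tendsto_congr' h3).mp h1
    have h6 := tendsto_nhds_unique h5 tendsto_const_nhds
    exact (sub_eq_zero.mp h6.symm)
  · refine (hQ1 _).trans ?_
    have h1 : ∀ k, entireNorm 5 (rho m₀) (P k) ≤ ε / 2 / 2 ^ k := fun k =>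
      (entireNorm_mono (rho_mono (by omega)) _).trans (hPn k)
    refine ((hS _).tsum_le_tsum h1 hgeo).trans (le_of_eq ?_)
    exact tsum_geometric_two' ε

end Pool.Agent.Lib.Helper29.HFG
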