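import Pool.Agent.Lib.Helper29.HFG.Entire

/-!
# The notions used in the statement

Complete locally convex spaces over `ℂ`, their complete projective tensor product, Hopf algebras in
this symmetric monoidal category, the algebra `F_n` of free entire functions, and holomorphically
finitely generated algebras.
-/

set_option autoImplicit false

open Topology

namespace Pool.Agent.Lib.Helper29.HFG

/-- `E` is a complete Hausdorff locally convex space over `ℂ`: the uniform structure is compatible
with the addition, the multiplication by scalars is continuous, the topology is defined by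
seminorms, and `E` is complete and Hausdorff. -/
class CLCS (E : Type) [AddCommGroup E] [Module ℂ E] [UniformSpace E] : Prop where
  isUniformAddGroup : IsUniformAddGroup E
  continuousSMul : ContinuousSMul ℂ E
  polynormable : PolynormableSpace ℂ E
  complete : CompleteSpace E
  t2 : T2Space E

attribute [instance] CLCS.isUniformAddGroup CLCS.continuousSMul CLCS.polynormable CLCS.complete
  CLCS.t2

section Tensor

variable {E F G P : Type} [AddCommGroup E] [Module ℂ E] [UniformSpace E]
  [AddCommGroup F] [Module ℂ F] [UniformSpace F] [AddCommGroup G] [Module ℂ G] [UniformSpace G]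
  [AddCommGroup P] [Module ℂ P] [UniformSpace P]

/-- `L` is a continuous linear map. -/
structure IsCL (L : E → F) : Prop where
  linear : IsLinearMap ℂ L
  continuous : Continuous L

/-- `b` is a (jointly) continuous bilinear map. -/
structure IsCB (b : E → F → G) : Prop where
  linear_left : ∀ y, IsLinearMap ℂ fun x => b x y
  linear_right : ∀ x, IsLinearMap ℂ fun y => b x y
  continuous : Continuous fun p : E × F => b p.1 p.2

/-- Every continuous bilinear map `b : E × F → G` is of the form `(x, y) ↦ L (t x y)` for a unique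
continuous linear map `L : P → G`. -/
def Factors (t : E → F → P) (G : Type) [AddCommGroup G] [Module ℂ G] [UniformSpace G] : Prop :=
  ∀ b : E → F → G, IsCB b → ∃! L : P → G, IsCL L ∧ ∀ x y, L (t x y) = b x y

/-- `P`, with the bilinear map `t : E × F → P`, is the complete projective tensor product of `E` and
`F`: `P` is a complete Hausdorff locally convex space, `t` is continuous and bilinear, and it is
universal among the continuous bilinear maps from `E × F` to complete Hausdorff locally convex
spaces. -/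
structure IsTensor (t : E → F → P) : Prop where
  clcs : CLCS P
  isCB : IsCB t
  factors : ∀ (G : Type) [AddCommGroup G] [Module ℂ G] [UniformSpace G] [CLCS G], Factors t G

end Tensor

section Hopf

variable {H H2 H3 : Type} [Ring H] [Algebra ℂ H] [UniformSpace H]
  [AddCommGroup H2] [Module ℂ H2] [UniformSpace H2]
  [AddCommGroup H3] [Module ℂ H3] [UniformSpace H3]

/-- `H` is an algebra in the category of complete locally convex spaces, `t2 : H × H → H2` is its
complete projective tensor square, and `m2` is the multiplication of the algebra `H2`: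
`(a ⊗ b) (c ⊗ d) = a c ⊗ b d`. -/
structure IsAlgSquare (t2 : H → H → H2) (m2 : H2 → H2 → H2) : Prop where
  clcs : CLCS H
  continuous_mul : Continuous fun p : H × H => p.1 * p.2
  isTensor : IsTensor t2
  isCB : IsCB m2
  mul_tmul : ∀ a b c d, m2 (t2 a b) (t2 c d) = t2 (a * c) (b * d)

/-- The comultiplication `Δ` and the counit `ε` are continuous algebra homomorphisms. -/
structure AreAlgHoms (t2 : H → H → H2) (m2 : H2 → H2 → H2) (Δ : H → H2) (ε : H → ℂ) : Prop where
  comul_isCL : IsCL Δ
  comul_mul : ∀ a b, Δ (a * b) = m2 (Δ a) (Δ b)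
  comul_one : Δ 1 = t2 1 1
  counit_isCL : IsCL ε
  counit_mul : ∀ a b, ε (a * b) = ε a * ε b
  counit_one : ε 1 = 1

/-- Coassociativity `(id ⊗ Δ) Δ = (Δ ⊗ id) Δ`, where `t3 : H × H2 → H3` is the complete projective
tensor product of `H` and `H2`, that is, the tensor cube of `H`. Here `L` is `id ⊗ Δ`, `R` is
`Δ ⊗ id`, and `r c` is the map `a ⊗ b ↦ a ⊗ b ⊗ c`. -/
def IsCoassoc (t2 : H → H → H2) (t3 : H → H2 → H3) (Δ : H → H2) : Prop :=
  ∃ (L R : H2 → H3) (r : H → H2 → H3), IsCL L ∧ IsCL R ∧ (∀ c, IsCL (r c)) ∧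
    (∀ a b, L (t2 a b) = t3 a (Δ b)) ∧
    (∀ a b c, r c (t2 a b) = t3 a (t2 b c)) ∧
    (∀ a b, R (t2 a b) = r b (Δ a)) ∧
    ∀ h, L (Δ h) = R (Δ h)

/-- The counit axioms `(ε ⊗ id) Δ = id = (id ⊗ ε) Δ`. -/
def IsCounital (t2 : H → H → H2) (Δ : H → H2) (ε : H → ℂ) : Prop :=
  (∃ L : H2 → H, IsCL L ∧ (∀ a b, L (t2 a b) = ε a • b) ∧ ∀ h, L (Δ h) = h) ∧
  ∃ L : H2 → H, IsCL L ∧ (∀ a b, L (t2 a b) = ε b • a) ∧ ∀ h, L (Δ h) = h

/-- The antipode axioms `m (S ⊗ id) Δ = u ε = m (id ⊗ S) Δ`. -/
def IsAntipode (t2 : H → H → H2) (Δ : H → H2) (ε : H → ℂ) (S : H → H) : Prop :=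
  (∃ L : H2 → H, IsCL L ∧ (∀ a b, L (t2 a b) = S a * b) ∧ ∀ h, L (Δ h) = ε h • (1 : H)) ∧
  ∃ L : H2 → H, IsCL L ∧ (∀ a b, L (t2 a b) = a * S b) ∧ ∀ h, L (Δ h) = ε h • (1 : H)

/-- `H`, with the comultiplication `Δ`, the counit `ε` and the antipode `S`, is a Hopf algebra in
the symmetric monoidal category of complete locally convex spaces with the complete projective
tensor product (a Hopf `⊗̂`-algebra). -/
structure IsHopf (t2 : H → H → H2) (m2 : H2 → H2 → H2) (t3 : H → H2 → H3)
    (Δ : H → H2) (ε : H → ℂ) (S : H → H) : Prop where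
  square : IsAlgSquare t2 m2
  cube : IsTensor t3
  algHoms : AreAlgHoms t2 m2 Δ ε
  coassoc : IsCoassoc t2 t3 Δ
  counital : IsCounital t2 Δ ε
  isCL : IsCL S
  antipode : IsAntipode t2 Δ ε S

/-- The map `S` is the antipode of a structure of Hopf `⊗̂`-algebra on the topological algebra
`H`. -/
def IsHopfAntipode (S : H → H) : Prop :=
  ∃ (H2 : Type) (_ : AddCommGroup H2) (_ : Module ℂ H2) (_ : UniformSpace H2)
    (H3 : Type) (_ : AddCommGroup H3) (_ : Module ℂ H3) (_ : UniformSpace H3)
    (t2 : H → H → H2) (m2 : H2 → H2 → H2) (t3 : H → H2 → H3) (Δ : H → H2) (ε : H → ℂ),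
    IsHopf t2 m2 t3 Δ ε S

end Hopf

/-- The algebra `F_n` of free entire functions: the formal series `∑ c α ζ_α` over the words `α` in
the letters `0, …, n - 1`, with `∑ |c α| ρ ^ |α| < ∞` for every `ρ > 0`. -/
structure FreeEnt (n : ℕ) : Type where
  /-- the coefficients -/
  coeff : List (Fin n) → ℂ
  summable : ∀ ρ : ℝ, 0 < ρ → Summable fun α => ‖coeff α‖ * ρ ^ α.length

namespace FreeEnt

variable {n : ℕ}

lemma summable_add (c d : FreeEnt n) (ρ : ℝ) (hρ : 0 < ρ) :
    Summable fun α => ‖c.coeff α + d.coeff α‖ * ρ ^ α.length :=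
  ((⟨c.coeff, c.summable⟩ : FreeEntire n) + (⟨d.coeff, d.summable⟩ : FreeEntire n)).2 ρ hρ

lemma summable_smul (a : ℂ) (c : FreeEnt n) (ρ : ℝ) (hρ : 0 < ρ) :
    Summable fun α => ‖a * c.coeff α‖ * ρ ^ α.length :=
  (a • (⟨c.coeff, c.summable⟩ : FreeEntire n)).2 ρ hρ

lemma summable_mul (c d : FreeEnt n) (ρ : ℝ) (hρ : 0 < ρ) :
    Summable fun α : List (Fin n) => ‖∑ i ∈ Finset.range (α.length + 1),
      c.coeff (α.take i) * d.coeff (α.drop i)‖ * ρ ^ α.length :=
  summable_conv hρ (c.summable ρ hρ) (d.summable ρ hρ)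

lemma summable_one (ρ : ℝ) (hρ : 0 < ρ) :
    Summable fun α : List (Fin n) => ‖(if α = [] then 1 else 0 : ℂ)‖ * ρ ^ α.length :=
  (oneFn_mem (n := n)) ρ hρ

/-- coefficientwise addition -/
instance : Add (FreeEnt n) := ⟨fun c d => ⟨fun α => c.coeff α + d.coeff α, summable_add c d⟩⟩

/-- coefficientwise multiplication by scalars -/
instance : SMul ℂ (FreeEnt n) := ⟨fun a c => ⟨fun α => a * c.coeff α, summable_smul a c⟩⟩

/-- The product of formal series: the coefficient of the word `α` of the product is the sum of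
`c β * d γ` over the decompositions `α = β ++ γ`. -/
instance : Mul (FreeEnt n) := ⟨fun c d => ⟨fun α => ∑ i ∈ Finset.range (α.length + 1),
  c.coeff (α.take i) * d.coeff (α.drop i), summable_mul c d⟩⟩

/-- the unit -/
instance : One (FreeEnt n) := ⟨⟨fun α => if α = [] then 1 else 0, summable_one⟩⟩

/-- The topology of `F_n` is generated by the open balls of the norms
`‖c‖_ρ = ∑ |c α| ρ ^ |α|`, for `ρ > 0`. -/
instance : TopologicalSpace (FreeEnt n) :=
  TopologicalSpace.generateFrom {B | ∃ (c : FreeEnt n) (ρ ε : ℝ), 0 < ρ ∧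
    B = {d | ∑' α, ‖d.coeff α - c.coeff α‖ * ρ ^ α.length < ε}}

end FreeEnt

/-- `φ : F_n → A` is a homomorphism of unital complex algebras. -/
structure IsAlgMap {n : ℕ} {A : Type} [Ring A] [Algebra ℂ A] (φ : FreeEnt n → A) : Prop where
  map_add : ∀ c d, φ (c + d) = φ c + φ d
  map_smul : ∀ (a : ℂ) (c : FreeEnt n), φ (a • c) = a • φ c
  map_mul : ∀ c d, φ (c * d) = φ c * φ d
  map_one : φ 1 = 1

/-- The topological algebra `A` is holomorphically finitely generated: for some `n` there is an
algebra homomorphism from the algebra `F_n` of free entire functions to `A` that is a topological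
quotient map (it is surjective and `A` has the quotient topology). Equivalently, `A` is
topologically isomorphic to the quotient of `F_n` by a two-sided ideal, which is closed when `A` is
Hausdorff. -/
def IsHolFG (A : Type) [Ring A] [Algebra ℂ A] [TopologicalSpace A] : Prop :=
  ∃ (n : ℕ) (φ : FreeEnt n → A), IsAlgMap φ ∧ IsQuotientMap φ

end Pool.Agent.Lib.Helper29.HFG
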