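import Pool.Agent.Lib.Helper29.HFG.Defs
import Pool.Agent.Lib.Helper29.HFG.RepAlg

set_option autoImplicit false

open Finset Filter Topology

namespace Pool.Agent.Lib.Helper29.HFG

/-- structure coefficients of the reduction to normal form -/
lemma exists_coef : ∃ c : List Lt → (List Lt →₀ ℂ), (∀ m n, c m n ≠ 0 → Normal n) ∧
    ∀ (G : Type) [AddCommGroup G] [Module ℂ G] (F : List Lt → G), IsRep F →
      ∀ m, F m = (c m).sum fun n a => a • F n := by
  have key : ∀ m : List Lt, ∃ c : List Lt →₀ ℂ, (∀ n, c n ≠ 0 → Normal n) ∧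
      ∀ (G : Type) [AddCommGroup G] [Module ℂ G] (F : List Lt → G), IsRep F →
        F m = c.sum fun n a => a • F n := by
    intro m
    induction hm : wt m using Nat.strong_induction_on generalizing m with
    | _ B ih =>
      by_cases hn : Normal m
      · refine ⟨Finsupp.single m 1, fun n h => ?_, fun G _ _ F _ => by simp⟩
        have : n = m := by
          by_contra hne
          exact h (Finsupp.single_eq_of_ne hne)
        rw [this]; exact hn
      · unfold Normal at hn
        push Not at hn
        obtain ⟨o, rfl⟩ := hn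
        obtain ⟨c0, h1, h2⟩ := ih _ (by rw [← hm]; exact o.wt_del_lt) o.del rfl
        have hrep : ∀ l : {l : Ix // l ≠ aa o.k}, ∃ c : List Lt →₀ ℂ, (∀ n, c n ≠ 0 → Normal n) ∧
          ∀ (G : Type) [AddCommGroup G] [Module ℂ G] (F : List Lt → G), IsRep F →
          F (o.rep l) = c.sum fun n a => a • F n := fun l =>
          ih _ (by rw [← hm]; exact o.wt_rep_lt l.2) (o.rep l) rfl
        choose cl h3 h4 using hrep
        refine ⟨(if o.i = o.j then c0 else 0) - ∑ l, cl l, ?_, ?_⟩
        · intro n hn
          by_contra hcon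
          apply hn
          have e0 : c0 n = 0 := by
            by_contra h; exact hcon (h1 n h)
          have e1 : ∀ l, cl l n = 0 := fun l => by
            by_contra h; exact hcon (h3 l n h)
          rw [Finsupp.sub_apply, Finsupp.finsetSum_apply]
          simp only [e1, Finset.sum_const_zero, sub_zero]
          split_ifs
          · exact e0
          · rfl
        · intro G _ _ F hF
          rw [hF.eq_rhs o, rhs]
          rw [Finsupp.sum_sub_index (fun n a b => sub_smul a b (F n))]
          congr 1
          · split_ifs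
            · exact h2 G F hF
            · simp
          · rw [← Finsupp.sum_finsetSum_index (fun n => zero_smul ℂ (F n))
              (fun n a b => add_smul a b (F n))]
            exact Finset.sum_congr rfl fun l _ => h4 l G F hF
  choose c h1 h2 using key
  exact ⟨c, h1, fun G _ _ F hF m => h2 m G F hF⟩

/-- the element of `RT ℂ` attached to a word -/
noncomputable def dl (n : List Lt) : RT ℂ := ⟨ext (fun m => if m = n then 1 else 0), isRep_ext _⟩

lemma dl_normal {n m : List Lt} (hm : Normal m) : (dl n).1 m = if m = n then 1 else 0 :=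
  ext_normal _ hm

lemma exists_coef' : ∃ c : List Lt → (List Lt →₀ ℂ), (∀ n m, (dl n).1 m = c m n) ∧
    ∀ (G : Type) [AddCommGroup G] [Module ℂ G] (F : List Lt → G), IsRep F →
      ∀ m, F m = (c m).sum fun n a => a • F n := by
  obtain ⟨c, hc1, hc2⟩ := exists_coef
  refine ⟨c, ?_, hc2⟩
  intro n m
  rw [hc2 ℂ (dl n).1 (dl n).2 m, Finsupp.sum]
  have h1 : ∀ n' ∈ (c m).support, c m n' • (dl n).1 n' = if n' = n then c m n' else 0 := by
    intro n' hn'
    rw [dl_normal (hc1 m n' (Finsupp.mem_support_iff.mp hn'))]
    split_ifs <;> simp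
  rw [Finset.sum_congr rfl h1, Finset.sum_ite_eq']
  split_ifs with h2
  · rfl
  · exact (Finsupp.notMem_support_iff.mp h2).symm

lemma exists_finset_dl (m : List Lt) : ∃ s : Finset (List Lt), ∀ n, n ∉ s → (dl n).1 m = 0 := by
  obtain ⟨c, hc1, -⟩ := exists_coef'
  exact ⟨(c m).support, fun n hn => by rw [hc1, Finsupp.notMem_support_iff.mp hn]⟩

section

variable {G : Type} [AddCommGroup G] [Module ℂ G]

/-- the canonical bilinear map -/
def tm (G : Type) [AddCommGroup G] [Module ℂ G] : RT ℂ →ₗ[ℂ] G →ₗ[ℂ] RT G :=
  LinearMap.mk₂ ℂ (fun f g => ⟨fun m => f.1 m • g, fun u v d k i j => by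
      rw [← Finset.sum_smul, f.2 u v d k i j]
      split_ifs <;> simp⟩)
    (fun f f' g => RT.ext (funext fun m => add_smul _ _ _))
    (fun a f g => RT.ext (funext fun m => by
      change (a • f.1 m) • g = a • f.1 m • g
      rw [smul_assoc]))
    (fun f g g' => RT.ext (funext fun m => smul_add _ _ _))
    (fun a f g => RT.ext (funext fun m => smul_comm _ _ _))

lemma tm_apply (f : RT ℂ) (g : G) (m : List Lt) : (tm G f g).1 m = f.1 m • g := rfl

variable [UniformSpace G]

instance instUniformSpaceRT : UniformSpace (RT G) :=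
  UniformSpace.comap (fun f : RT G => f.1) inferInstance

lemma isUniformInducing_val : IsUniformInducing fun f : RT G => f.1 := ⟨rfl⟩

lemma continuous_val : Continuous fun f : RT G => f.1 :=
  isUniformInducing_val.uniformContinuous.continuous

lemma continuous_mk {X : Type*} [TopologicalSpace X] {F : X → RT G}
    (h : ∀ m, Continuous fun x => (F x).1 m) : Continuous F :=
  isUniformInducing_val.isInducing.continuous_iff.mpr (continuous_pi h)

lemma continuous_coord (m : List Lt) : Continuous fun f : RT G => f.1 m :=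
  (continuous_apply m).comp continuous_val

lemma isClosed_rep [CLCS G] : IsClosed {f : List Lt → G | IsRep f} := by
  have : {f : List Lt → G | IsRep f} =
      ⋂ (u : List Lt), ⋂ (v : List Lt), ⋂ (d : Bool), ⋂ (k : ℕ), ⋂ (i : Ix), ⋂ (j : Ix),
        {f | ∑ l, f (u ++ px d k i l :: py d k j l :: v) = if i = j then f (u ++ v) else 0} := by
    ext f
    simp only [Set.mem_iInter]
    rfl
  rw [this]
  refine isClosed_iInter fun u => isClosed_iInter fun v => isClosed_iInter fun d =>
    isClosed_iInter fun k => isClosed_iInter fun i => isClosed_iInter fun j => ?_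
  refine isClosed_eq (continuous_finsetSum _ fun l _ => continuous_apply _) ?_
  split_ifs
  · exact continuous_apply _
  · exact continuous_const

/-- the inclusion -/
def valL : RT G →ₗ[ℂ] (List Lt → G) where
  toFun f := f.1
  map_add' _ _ := rfl
  map_smul' _ _ := rfl

instance instCLCSRT [CLCS G] : CLCS (RT G) where
  isUniformAddGroup := IsUniformInducing.isUniformAddGroup (valL (G := G)) isUniformInducing_val
  continuousSMul := ⟨continuous_mk fun m =>
    (continuous_fst : Continuous fun x : ℂ × RT G => x.1).smul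
      ((continuous_coord m).comp continuous_snd)⟩
  polynormable := IsInducing.polynormableSpace (f := valL (G := G)) ⟨rfl⟩
  complete := by
    rw [completeSpace_iff_isComplete_range (isUniformInducing_val (G := G))]
    have : Set.range (fun f : RT G => f.1) = {f : List Lt → G | IsRep f} := by
      ext f
      exact ⟨fun ⟨g, hg⟩ => hg ▸ g.2, fun hf => ⟨⟨f, hf⟩, rfl⟩⟩
    rw [this]
    exact (isClosed_rep (G := G)).isComplete
  t2 := T2Space.of_injective_continuous (f := fun f : RT G => f.1) (fun _ _ h => RT.ext h)
    continuous_val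

lemma hasSum_dl [CLCS G] (F : RT G) : HasSum (fun n : List Lt => tm G (dl n) (F.1 n)) F := by
  obtain ⟨c, hdl, hc2⟩ := exists_coef'
  have h1 : HasSum (fun n : List Lt => (tm G (dl n) (F.1 n)).1) F.1 := by
    rw [Pi.hasSum]
    intro m
    have h2 : F.1 m = ∑ n ∈ (c m).support, (tm G (dl n) (F.1 n)).1 m := by
      rw [hc2 G F.1 F.2 m, Finsupp.sum]
      exact Finset.sum_congr rfl fun n _ => by rw [tm_apply, hdl]
    rw [h2]
    refine hasSum_sum_of_ne_finset_zero fun n hn => ?_
    rw [tm_apply, hdl, Finsupp.notMem_support_iff.mp hn, zero_smul]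
  rw [HasSum, (isUniformInducing_val (G := G)).isInducing.tendsto_nhds_iff]
  have h3 : ((fun f : RT G => f.1) ∘ fun s : Finset (List Lt) => ∑ n ∈ s, tm G (dl n) (F.1 n)) =
      fun s => ∑ n ∈ s, (tm G (dl n) (F.1 n)).1 := by
    funext s
    exact map_sum (valL (G := G)) _ _
  rw [h3]
  exact h1

end

lemma rep_sum_coe {G : Type} [AddCommGroup G] {ι : Type*} (s : Finset ι) (F : ι → RT G)
    (m : List Lt) : (∑ l ∈ s, F l).1 m = ∑ l ∈ s, (F l).1 m := by
  let T : RT G →+ G :=
    { toFun := fun f => f.1 m
      map_zero' := rfl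
      map_add' := fun _ _ => rfl }
  exact map_sum T _ _

lemma exists_seminorm_ball {K : Type} [AddCommGroup K] [Module ℂ K] [UniformSpace K] [CLCS K]
    {e : Set K} (he : e ∈ 𝓝 (0 : K)) :
    ∃ q : Seminorm ℂ K, Continuous q ∧ ∃ r > 0, q.ball 0 r ⊆ e := by
  obtain ⟨s, r, hr, hs⟩ := ((PolynormableSpace.withSeminorms ℂ K).mem_nhds_iff 0 e).mp he
  exact ⟨_, Seminorm.continuous_finsetSup fun i _ => i.2, r, hr, hs⟩

end Pool.Agent.Lib.Helper29.HFG
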