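import Pool.Agent.Lib.Helper29.HFG.Tensor

set_option autoImplicit false

open Finset Filter Topology

namespace Pool.Agent.Lib.Helper29.HFG

instance instCLCSComplex : CLCS ℂ where
  isUniformAddGroup := inferInstance
  continuousSMul := inferInstance
  polynormable := inferInstance
  complete := inferInstance
  t2 := inferInstance

variable {G : Type} [AddCommGroup G] [Module ℂ G] [UniformSpace G] [CLCS G]

lemma continuous_tm : Continuous fun x : RT ℂ × G => tm G x.1 x.2 := by
  refine continuous_mk fun m => ?_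
  exact ((continuous_coord m).comp continuous_fst).smul continuous_snd

variable {K : Type} [AddCommGroup K] [Module ℂ K] [UniformSpace K] [CLCS K]

/-- a nonnegative real bounded by `1` after all dilations vanishes -/
lemma eq_zero_of_forall_mul_lt {x : ℝ} (hx : 0 ≤ x) (h : ∀ a : ℝ, 0 < a → a * x < 1) : x = 0 := by
  by_contra hne
  have hpos : 0 < x := lt_of_le_of_ne hx (Ne.symm hne)
  have := h (1 / x) (by positivity)
  rw [one_div, inv_mul_cancel₀ hne] at this
  exact lt_irrefl _ this

lemma exists_vanish (b : RT ℂ →ₗ[ℂ] G →ₗ[ℂ] K) (hb : Continuous fun x : RT ℂ × G => b x.1 x.2)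
    (q : Seminorm ℂ K) (hq : Continuous q) :
    ∃ M : Finset (List Lt), ∀ f : RT ℂ, (∀ m ∈ M, f.1 m = 0) → ∀ g, q (b f g) = 0 := by
  have h0 : (fun x : RT ℂ × G => b x.1 x.2) ⁻¹' (q.ball 0 1) ∈ 𝓝 (0 : RT ℂ × G) := by
    refine hb.continuousAt.preimage_mem_nhds ?_
    change q.ball 0 1 ∈ 𝓝 (b (0 : RT ℂ) (0 : G))
    rw [map_zero]
    exact Seminorm.ball_mem_nhds hq one_pos
  rw [show (0 : RT ℂ × G) = ((0 : RT ℂ), (0 : G)) from rfl, nhds_prod_eq, Filter.mem_prod_iff] at h0
  obtain ⟨U, hU, V, hV, hUV⟩ := h0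
  rw [nhds_induced, Filter.mem_comap] at hU
  obtain ⟨U', hU', hU2⟩ := hU
  rw [nhds_pi, Filter.mem_pi] at hU'
  obtain ⟨I, hI, t, ht, htU⟩ := hU'
  refine ⟨hI.toFinset, fun f hf g => ?_⟩
  -- small multiples of g are in V
  have hV2 : ∃ r : ℝ, 0 < r ∧ ((r : ℂ)) • g ∈ V := by
    have h1 : Tendsto (fun r : ℝ => (r : ℂ) • g) (𝓝[>] 0) (𝓝 0) := by
      have h2 : Continuous fun r : ℝ => (r : ℂ) • g := by fun_prop
      have h3 := h2.tendsto 0
      simp only [Complex.ofReal_zero, zero_smul] at h3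
      exact h3.mono_left nhdsWithin_le_nhds
    have h4 := (h1.eventually hV).and self_mem_nhdsWithin
    obtain ⟨r, hr1, hr2⟩ := h4.exists
    exact ⟨r, hr2, hr1⟩
  obtain ⟨r, hr, hrV⟩ := hV2
  refine eq_zero_of_forall_mul_lt (apply_nonneg q _) fun a ha => ?_
  have hfU : ((a / r : ℝ) : ℂ) • f ∈ U := by
    apply hU2
    apply htU
    intro m hm
    have : (((a / r : ℝ) : ℂ) • f : RT ℂ).1 m = 0 := by
      change ((a / r : ℝ) : ℂ) • f.1 m = 0
      rw [hf m (hI.mem_toFinset.mpr hm), smul_zero]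
    change (((a / r : ℝ) : ℂ) • f : RT ℂ).1 m ∈ t m
    rw [this]
    exact mem_of_mem_nhds (ht m)
  have h5 : ((((a / r : ℝ) : ℂ) • f : RT ℂ), (r : ℂ) • g) ∈
      (fun x : RT ℂ × G => b x.1 x.2) ⁻¹' (q.ball 0 1) := hUV ⟨hfU, hrV⟩
  rw [Set.mem_preimage, Seminorm.mem_ball_zero] at h5
  simp only [map_smul, LinearMap.smul_apply] at h5
  rw [smul_smul, map_smul_eq_mul, norm_mul, Complex.norm_real, Complex.norm_real,
    Real.norm_of_nonneg hr.le, Real.norm_of_nonneg (div_pos ha hr).le] at h5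
  rwa [mul_comm r, div_mul_cancel₀ _ hr.ne'] at h5

lemma exists_finset_vanish (b : RT ℂ →ₗ[ℂ] G →ₗ[ℂ] K)
    (hb : Continuous fun x : RT ℂ × G => b x.1 x.2) (q : Seminorm ℂ K) (hq : Continuous q) :
    ∃ S : Finset (List Lt), ∀ n, n ∉ S → ∀ g, q (b (dl n) g) = 0 := by
  classical
  obtain ⟨M, hM⟩ := exists_vanish b hb q hq
  choose s hs using exists_finset_dl
  refine ⟨M.biUnion s, fun n hn g => hM _ (fun m hm => hs m n fun h => hn ?_) g⟩
  exact Finset.mem_biUnion.mpr ⟨m, hm, h⟩

lemma seminorm_sum_eq_zero (q : Seminorm ℂ K) {ι : Type*} (s : Finset ι) (f : ι → K)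
    (h : ∀ i ∈ s, q (f i) = 0) : q (∑ i ∈ s, f i) = 0 := by
  classical
  induction s using Finset.induction_on with
  | empty => simp
  | insert a s ha ih =>
    rw [Finset.sum_insert ha]
    refine le_antisymm ?_ (apply_nonneg q _)
    refine (map_add_le_add q _ _).trans ?_
    rw [h a (Finset.mem_insert_self _ _), ih fun i hi => h i (Finset.mem_insert_of_mem hi), add_zero]

lemma summable_lift (b : RT ℂ →ₗ[ℂ] G →ₗ[ℂ] K)
    (hb : Continuous fun x : RT ℂ × G => b x.1 x.2) (F : List Lt → G) :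
    Summable fun n => b (dl n) (F n) := by
  classical
  rw [summable_iff_vanishing]
  intro e he
  obtain ⟨q, hq, r, hr, hre⟩ := exists_seminorm_ball he
  obtain ⟨S, hS⟩ := exists_finset_vanish b hb q hq
  refine ⟨S, fun t ht => hre ?_⟩
  rw [Seminorm.mem_ball_zero, seminorm_sum_eq_zero q t _ fun i hi => ?_]
  · exact hr
  · exact hS i (fun h => Finset.disjoint_left.mp ht hi h) _

lemma lift_bound (b : RT ℂ →ₗ[ℂ] G →ₗ[ℂ] K)
    (hb : Continuous fun x : RT ℂ × G => b x.1 x.2) (q : Seminorm ℂ K) (hq : Continuous q) :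
    ∃ S : Finset (List Lt), ∀ F : List Lt → G,
      q (∑' n, b (dl n) (F n)) ≤ q (∑ n ∈ S, b (dl n) (F n)) := by
  classical
  obtain ⟨S, hS⟩ := exists_finset_vanish b hb q hq
  refine ⟨S, fun F => ?_⟩
  have h1 := (summable_lift b hb F).hasSum
  have h2 : Tendsto (fun T : Finset (List Lt) => q (∑ n ∈ T, b (dl n) (F n))) atTop
      (𝓝 (q (∑' n, b (dl n) (F n)))) := (hq.tendsto _).comp h1
  refine le_of_tendsto h2 ?_
  filter_upwards [eventually_ge_atTop S] with T hT
  rw [← Finset.sum_sdiff (show S ⊆ T from hT)]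
  refine (map_add_le_add q _ _).trans ?_
  rw [seminorm_sum_eq_zero q (T \ S) _ fun i hi => hS i (Finset.mem_sdiff.mp hi).2 _, zero_add]

/-- the linear map attached to a continuous bilinear map -/
noncomputable def liftL (b : RT ℂ →ₗ[ℂ] G →ₗ[ℂ] K)
    (hb : Continuous fun x : RT ℂ × G => b x.1 x.2) : RT G →ₗ[ℂ] K where
  toFun F := ∑' n, b (dl n) (F.1 n)
  map_add' F F' := by
    rw [← (summable_lift b hb F.1).tsum_add (summable_lift b hb F'.1)]
    exact tsum_congr fun n => map_add _ _ _
  map_smul' a F := by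
    rw [RingHom.id_apply, ← (summable_lift b hb F.1).tsum_const_smul]
    exact tsum_congr fun n => map_smul _ _ _

lemma continuous_liftL (b : RT ℂ →ₗ[ℂ] G →ₗ[ℂ] K)
    (hb : Continuous fun x : RT ℂ × G => b x.1 x.2) : Continuous (liftL b hb) := by
  refine WithSeminorms.continuous_of_continuous_comp (PolynormableSpace.withSeminorms ℂ K) _ fun q => ?_
  obtain ⟨S, hS⟩ := lift_bound b hb q.1 q.2
  let T : RT G →ₗ[ℂ] K :=
    { toFun := fun F => ∑ n ∈ S, b (dl n) (F.1 n)
      map_add' := fun F F' => by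
        rw [← Finset.sum_add_distrib]
        exact Finset.sum_congr rfl fun n _ => map_add _ _ _
      map_smul' := fun a F => by
        rw [RingHom.id_apply, Finset.smul_sum]
        exact Finset.sum_congr rfl fun n _ => map_smul _ _ _ }
  have hT : Continuous T := by
    change Continuous fun F : RT G => ∑ n ∈ S, b (dl n) (F.1 n)
    refine continuous_finsetSum _ fun n _ => ?_
    exact hb.comp (continuous_const.prodMk (continuous_coord n))
  have hqT : Continuous (q.1.comp T) := q.2.comp hT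
  exact Seminorm.continuous_of_le hqT fun F => hS F.1

theorem isCompletedTensor_tm : IsCompletedTensor (tm G) where
  continuous := continuous_tm
  existsUnique_lift := by
    intro K _ _ _ _ b hb
    refine ⟨⟨liftL b hb, continuous_liftL b hb⟩, ?_, ?_⟩
    · intro f g
      change ∑' n, b (dl n) (f.1 n • g) = b f g
      have h1 : HasSum (fun n : List Lt => tm ℂ (dl n) (f.1 n)) f := hasSum_dl f
      let B : RT ℂ →L[ℂ] K := ⟨b.flip g, by
        change Continuous fun f => b f g
        exact hb.comp (continuous_id.prodMk continuous_const)⟩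
      have h2 := B.hasSum h1
      have h3 : ∀ n, B (tm ℂ (dl n) (f.1 n)) = b (dl n) (f.1 n • g) := by
        intro n
        have h4 : tm ℂ (dl n) (f.1 n) = f.1 n • dl n := by
          apply RT.ext
          funext m
          rw [tm_apply]
          change (dl n).1 m • f.1 n = f.1 n • (dl n).1 m
          rw [smul_eq_mul, smul_eq_mul, mul_comm]
        rw [h4, map_smul, map_smul]
        rfl
      simp only [h3] at h2
      exact h2.tsum_eq
    · intro L hL
      apply ContinuousLinearMap.ext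
      intro F
      have h1 := L.hasSum (hasSum_dl F)
      have h2 := h1.tsum_eq
      rw [← h2]
      exact tsum_congr fun n => hL _ _

end Pool.Agent.Lib.Helper29.HFG
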