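import Pool.Agent.Lib.Helper29.HFG.Hopf2
import Pool.Agent.Lib.Helper29.HFG.Stage5

set_option autoImplicit false

open Finset Filter Topology

namespace Pool.Agent.Lib.Helper29.HFG

/-! ### enumeration of shapes -/

/-- code of a shape -/
def cd (w : List ℕ) : ℕ := Encodable.encode w

/-- the shape of given code -/
def sh (m : ℕ) : List ℕ := Denumerable.ofNat (List ℕ) m

lemma sh_cd (w : List ℕ) : sh (cd w) = w := Denumerable.ofNat_encode w
lemma cd_sh (m : ℕ) : cd (sh m) = m := Denumerable.encode_ofNat m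

lemma cd_cons_lt (a : ℕ) {l l' : List ℕ} (h : cd l < cd l') : cd (a :: l) < cd (a :: l') := by
  unfold cd at *
  rw [Encodable.encode_list_cons, Encodable.encode_list_cons]
  exact Nat.succ_lt_succ (Nat.pair_lt_pair_right _ h)

lemma cd_lt_cons (a : ℕ) (l : List ℕ) : cd l < cd (a :: l) := by
  unfold cd
  rw [Encodable.encode_list_cons]
  exact Nat.lt_succ_of_le (Nat.right_le_pair _ _)

lemma cd_append_lt (u v : List ℕ) (a b : ℕ) : cd (u ++ v) < cd (u ++ a :: b :: v) := by
  induction u with
  | nil => exact (cd_lt_cons b v).trans (cd_lt_cons a _)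
  | cons c u ih => exact cd_cons_lt c ih

/-! ### sums over words of given length -/

section

variable {M : Type*} [AddCommMonoid M]

/-- sum over all words of length `r` -/
def sv (r : ℕ) (F : List Ix → M) : M := ∑ I : List.Vector Ix r, F I.1

lemma sv_zero (F : List Ix → M) : sv 0 F = F [] := by
  unfold sv
  have : (Finset.univ : Finset (List.Vector Ix 0)) = {List.Vector.nil} := by
    ext I
    simp [List.Vector.eq_nil]
  rw [this, Finset.sum_singleton]
  rfl

/-- words of length `r + 1` -/
def consE (r : ℕ) : Ix × List.Vector Ix r ≃ List.Vector Ix (r + 1) where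
  toFun p := List.Vector.cons p.1 p.2
  invFun v := (v.head, v.tail)
  left_inv p := by simp
  right_inv v := by simp

lemma sv_succ (r : ℕ) (F : List Ix → M) : sv (r + 1) F = ∑ i, sv r (fun I => F (i :: I)) := by
  unfold sv
  rw [← Fintype.sum_equiv (consE r) (fun p => F (p.1 :: p.2.1)) (fun I => F I.1) (fun p => rfl),
    Fintype.sum_prod_type]

lemma sv_congr (r : ℕ) {F F' : List Ix → M} (h : ∀ I, I.length = r → F I = F' I) :
    sv r F = sv r F' :=
  Finset.sum_congr rfl fun I _ => h I.1 I.2

end

/-! ### words from shapes, rows and columns -/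

/-- the word with given shape, rows and columns -/
def z3 : List ℕ → List Ix → List Ix → List Lt
  | (k :: w), (i :: I), (j :: J) => (k, i, j) :: z3 w I J
  | _, _, _ => []

/-- shape of a word -/
def shp (m : List Lt) : List ℕ := m.map fun x => x.1
/-- rows of a word -/
def rw3 (m : List Lt) : List Ix := m.map fun x => x.2.1
/-- columns of a word -/
def cl3 (m : List Lt) : List Ix := m.map fun x => x.2.2

lemma length_rw3 (m : List Lt) : (rw3 m).length = (shp m).length := by simp [rw3, shp]
lemma length_cl3 (m : List Lt) : (cl3 m).length = (shp m).length := by simp [cl3, shp]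

lemma z3_cons (k : ℕ) (w : List ℕ) (i j : Ix) (I J : List Ix) :
    z3 (k :: w) (i :: I) (j :: J) = (k, i, j) :: z3 w I J := rfl

lemma z3_self (m : List Lt) : z3 (shp m) (rw3 m) (cl3 m) = m := by
  induction m with
  | nil => rfl
  | cons x m ih =>
    change (x.1, x.2.1, x.2.2) :: z3 (shp m) (rw3 m) (cl3 m) = x :: m
    rw [ih]

lemma z3_proj (w : List ℕ) (I J : List Ix) (hI : I.length = w.length) (hJ : J.length = w.length) :
    shp (z3 w I J) = w ∧ rw3 (z3 w I J) = I ∧ cl3 (z3 w I J) = J := by
  induction w generalizing I J with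
  | nil =>
    rw [List.length_nil, List.length_eq_zero_iff] at hI hJ
    subst hI hJ
    exact ⟨rfl, rfl, rfl⟩
  | cons k w ih =>
    rcases I with _ | ⟨i, I⟩
    · simp at hI
    rcases J with _ | ⟨j, J⟩
    · simp at hJ
    simp only [List.length_cons, Nat.add_right_cancel_iff] at hI hJ
    obtain ⟨h1, h2, h3⟩ := ih I J hI hJ
    rw [z3_cons]
    refine ⟨?_, ?_, ?_⟩
    · change k :: shp (z3 w I J) = _
      rw [h1]
    · change i :: rw3 (z3 w I J) = _
      rw [h2]
    · change j :: cl3 (z3 w I J) = _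
      rw [h3]

lemma z3_append (u w : List ℕ) (I1 I2 J1 J2 : List Ix) (hI : I1.length = u.length)
    (hJ : J1.length = u.length) : z3 (u ++ w) (I1 ++ I2) (J1 ++ J2) = z3 u I1 J1 ++ z3 w I2 J2 := by
  induction u generalizing I1 J1 with
  | nil =>
    rw [List.length_nil, List.length_eq_zero_iff] at hI hJ
    subst hI hJ
    rfl
  | cons k u ih =>
    rcases I1 with _ | ⟨i, I1⟩
    · simp at hI
    rcases J1 with _ | ⟨j, J1⟩
    · simp at hJ
    simp only [List.length_cons, Nat.add_right_cancel_iff] at hI hJ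
    simp only [List.cons_append, z3_cons]
    rw [ih I1 J1 hI hJ]

lemma shp_append (u v : List Lt) : shp (u ++ v) = shp u ++ shp v := by simp [shp]
lemma rw3_append (u v : List Lt) : rw3 (u ++ v) = rw3 u ++ rw3 v := by simp [rw3]
lemma cl3_append (u v : List Lt) : cl3 (u ++ v) = cl3 u ++ cl3 v := by simp [cl3]
lemma shp_cons (x : Lt) (v : List Lt) : shp (x :: v) = x.1 :: shp v := rfl
lemma rw3_cons (x : Lt) (v : List Lt) : rw3 (x :: v) = x.2.1 :: rw3 v := rfl
lemma cl3_cons (x : Lt) (v : List Lt) : cl3 (x :: v) = x.2.2 :: cl3 v := rfl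

/-- the product is the matrix product -/
lemma cvA_z3 (w : List ℕ) (I J : List Ix) (hI : I.length = w.length) (hJ : J.length = w.length)
    (f g : List Lt → ℂ) :
    cvA (z3 w I J) f g = sv w.length (fun L => f (z3 w I L) * g (z3 w L J)) := by
  induction w generalizing I J f g with
  | nil =>
    rw [List.length_nil, List.length_eq_zero_iff] at hI hJ
    subst hI hJ
    rw [List.length_nil, sv_zero]
    rfl
  | cons k w ih =>
    rcases I with _ | ⟨i, I⟩
    · simp at hI
    rcases J with _ | ⟨j, J⟩
    · simp at hJ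
    simp only [List.length_cons, Nat.add_right_cancel_iff] at hI hJ
    rw [z3_cons, cvA_cons, List.length_cons, sv_succ]
    refine Finset.sum_congr rfl fun l _ => ?_
    rw [ih I J hI hJ]
    rfl

lemma oneR_z3 (w : List ℕ) (I J : List Ix) (hI : I.length = w.length) (hJ : J.length = w.length) :
    (oneR (z3 w I J) : ℂ) = if I = J then 1 else 0 := by
  induction w generalizing I J with
  | nil =>
    rw [List.length_nil, List.length_eq_zero_iff] at hI hJ
    subst hI hJ
    simp [z3, oneR]
  | cons k w ih =>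
    rcases I with _ | ⟨i, I⟩
    · simp at hI
    rcases J with _ | ⟨j, J⟩
    · simp at hJ
    simp only [List.length_cons, Nat.add_right_cancel_iff] at hI hJ
    rw [z3_cons]
    change (if i = j then oneR (z3 w I J) else 0 : ℂ) = _
    rw [ih I J hI hJ]
    by_cases h1 : i = j
    · by_cases h2 : I = J <;> simp [h1, h2]
    · simp [h1]

/-! ### the algebra of families -/

/-- index types of the matrices -/
abbrev XX (m : ℕ) : Type := List.Vector Ix (sh m).length

/-- the families of matrices attached to functions on words -/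
def toFamL : RT ℂ →ₗ[ℂ] Fam XX where
  toFun f m I J := f.1 (z3 (sh m) I.1 J.1)
  map_add' _ _ := rfl
  map_smul' _ _ := rfl

lemma toFamL_apply (f : RT ℂ) (m : ℕ) (I J : XX m) : toFamL f m I J = f.1 (z3 (sh m) I.1 J.1) := rfl

lemma toFamL_one : toFamL 1 = 1 := by
  funext m
  ext I J
  rw [toFamL_apply, rep_coe_one, oneR_z3 _ _ _ I.2 J.2, Pi.one_apply, Matrix.one_apply]
  by_cases h : I = J
  · rw [if_pos h, if_pos (congrArg Subtype.val h)]
  · rw [if_neg h, if_neg (fun h' => h (Subtype.ext h'))]

lemma toFamL_mul (f g : RT ℂ) : toFamL (f * g) = toFamL f * toFamL g := by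
  funext m
  ext I J
  rw [toFamL_apply, rep_coe_mul, cv, cvA_z3 _ _ _ I.2 J.2, Pi.mul_apply, Matrix.mul_apply]
  rfl

/-- the algebra homomorphism -/
def toFam : RT ℂ →ₐ[ℂ] Fam XX := AlgHom.ofLinearMap toFamL toFamL_one toFamL_mul

lemma toFam_apply (f : RT ℂ) (m : ℕ) (I J : XX m) : toFam f m I J = f.1 (z3 (sh m) I.1 J.1) := rfl

/-- the function on words attached to a family -/
def valF (x : Fam XX) (q : List Lt) : ℂ :=
  x (cd (shp q)) ⟨rw3 q, by rw [sh_cd, length_rw3]⟩ ⟨cl3 q, by rw [sh_cd, length_cl3]⟩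

lemma valF_toFam (f : RT ℂ) (q : List Lt) : valF (toFam f) q = f.1 q := by
  unfold valF
  rw [toFam_apply]
  simp only
  rw [sh_cd, z3_self]

lemma fam_cast (x : Fam XX) {m m' : ℕ} (h : m = m') (I J : XX m) (I' J' : XX m') (hI : I.1 = I'.1)
    (hJ : J.1 = J'.1) : x m I J = x m' I' J' := by
  subst h
  rw [Subtype.ext hI, Subtype.ext hJ]

lemma valF_z3 (x : Fam XX) (m : ℕ) (I J : XX m) : valF x (z3 (sh m) I.1 J.1) = x m I J := by
  unfold valF
  obtain ⟨h1, h2, h3⟩ := z3_proj (sh m) I.1 J.1 I.2 J.2
  exact fam_cast x (by rw [h1, cd_sh]) _ _ _ _ h2 h3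

lemma valF_congr {x y : Fam XX} {q : List Lt} (h : x (cd (shp q)) = y (cd (shp q))) :
    valF x q = valF y q := by
  unfold valF
  rw [h]

lemma toFam_injective : Function.Injective toFam := by
  intro f g h
  apply RT.ext
  funext q
  rw [← valF_toFam f, ← valF_toFam g, h]

/-- the algebra of families -/
def AA : Subalgebra ℂ (Fam XX) := toFam.range

lemma AA_closed (x : Fam XX) (hx : ∀ m, ∃ a ∈ AA, ∀ i < m, a i = x i) : x ∈ AA := by
  have hrep : IsRep (valF x) := by
    intro u v d k i j
    have h1 : ∀ l, shp (u ++ px d k i l :: py d k j l :: v) =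
        shp u ++ (px d k i i).1 :: (py d k j j).1 :: shp v := by
      intro l
      rw [shp_append, shp_cons, shp_cons]
      cases d <;> rfl
    obtain ⟨a, ⟨f, hf⟩, ha⟩ := hx (max (cd (shp (u ++ v)))
      (cd (shp u ++ (px d k i i).1 :: (py d k j j).1 :: shp v)) + 1)
    have h2 : ∀ q, cd (shp q) ≤ max (cd (shp (u ++ v)))
      (cd (shp u ++ (px d k i i).1 :: (py d k j j).1 :: shp v)) → valF x q = f.1 q := by
      intro q hq
      rw [← valF_toFam f]
      refine valF_congr ?_
      rw [← ha _ (Nat.lt_succ_of_le hq), ← hf]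
      rfl
    have h3 := f.2 u v d k i j
    rw [h2 (u ++ v) (le_max_left _ _), ← h3]
    refine Finset.sum_congr rfl fun l _ => h2 _ ?_
    rw [h1]
    exact le_max_right _ _
  refine ⟨⟨valF x, hrep⟩, ?_⟩
  funext m
  ext I J
  exact valF_z3 x m I J

end Pool.Agent.Lib.Helper29.HFG
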