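import Pool.Agent.Lib.Helper29.HFG.Words

set_option autoImplicit false

open Finset Filter Topology Matrix

namespace Pool.Agent.Lib.Helper29.HFG

/-- shape of the first letter of a pair -/
def sx (d : Bool) (k : ℕ) : ℕ := if d then k else k + 1
/-- shape of the second letter of a pair -/
def sy (d : Bool) (k : ℕ) : ℕ := if d then k + 1 else k

lemma px_fst (d : Bool) (k : ℕ) (i l : Ix) : (px d k i l).1 = sx d k := by cases d <;> rfl
lemma py_fst (d : Bool) (k : ℕ) (j l : Ix) : (py d k j l).1 = sy d k := by cases d <;> rfl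

lemma shp_pair (u v : List Lt) (d : Bool) (k : ℕ) (i j l : Ix) :
    shp (u ++ px d k i l :: py d k j l :: v) = shp u ++ sx d k :: sy d k :: shp v := by
  rw [shp_append, shp_cons, shp_cons, px_fst, py_fst]

lemma shp_rep (o : Occ) (l : Ix) : shp (o.rep l) = shp o.u ++ sx o.d o.k :: sy o.d o.k :: shp o.v :=
  shp_pair _ _ _ _ _ _ _

lemma cd_del (o : Occ) (l : Ix) : cd (shp o.del) < cd (shp (o.rep l)) := by
  rw [shp_rep]
  unfold Occ.del
  rw [shp_append]
  exact cd_append_lt _ _ _ _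

/-- extension by zero -/
def xt {r : ℕ} (v : List.Vector Ix r → ℂ) (I : List Ix) : ℂ := if h : I.length = r then v ⟨I, h⟩ else 0

lemma xt_coe {r : ℕ} (v : List.Vector Ix r → ℂ) (I : List.Vector Ix r) : xt v I.1 = v I := by
  unfold xt
  rw [dif_pos I.2]
  rfl

/-- vectors killed by the contractions of type `d` -/
def VV (d : Bool) (m : ℕ) : Submodule ℂ (XX m → ℂ) where
  carrier := {v | ∀ (u w : List ℕ) (k : ℕ), sh m = u ++ sx d k :: sy d k :: w →
    ∀ I1 I2 : List Ix, I1.length = u.length → I2.length = w.length →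
      ∑ l, xt v (I1 ++ l :: l :: I2) = 0}
  zero_mem' := by
    intro u w k h I1 I2 h1 h2
    refine Finset.sum_eq_zero fun l _ => ?_
    unfold xt
    split_ifs <;> rfl
  add_mem' := by
    intro v v' hv hv' u w k h I1 I2 h1 h2
    have e1 : ∀ l, xt (v + v') (I1 ++ l :: l :: I2) = xt v (I1 ++ l :: l :: I2) +
        xt v' (I1 ++ l :: l :: I2) := by
      intro l
      unfold xt
      split_ifs
      · rfl
      · rw [add_zero]
    simp only [e1, Finset.sum_add_distrib]
    rw [hv u w k h I1 I2 h1 h2, hv' u w k h I1 I2 h1 h2, add_zero]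
  smul_mem' := by
    intro a v hv u w k h I1 I2 h1 h2
    have e1 : ∀ l, xt (a • v) (I1 ++ l :: l :: I2) = a * xt v (I1 ++ l :: l :: I2) := by
      intro l
      unfold xt
      split_ifs
      · rfl
      · rw [mul_zero]
    simp only [e1, ← Finset.mul_sum]
    rw [hv u w k h I1 I2 h1 h2, mul_zero]

/-- the function on normal words attached to a rank one matrix -/
def rk (m : ℕ) (v φ : XX m → ℂ) (q : List Lt) : ℂ :=
  if shp q = sh m then xt v (rw3 q) * xt φ (cl3 q) else 0

lemma rk_sum (m : ℕ) {v φ : XX m → ℂ} (hv : v ∈ VV false m) (hφ : φ ∈ VV true m) (o : Occ) :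
    ∑ l, rk m v φ (o.rep l) = 0 := by
  obtain ⟨u, d, k, i, j, w⟩ := o
  unfold rk
  simp only [shp_rep]
  split_ifs with h
  · have h' : sh m = shp u ++ sx d k :: sy d k :: shp w := h.symm
    cases d
    · have e1 : ∀ l, xt v (rw3 (Occ.rep ⟨u, false, k, i, j, w⟩ l)) *
          xt φ (cl3 (Occ.rep ⟨u, false, k, i, j, w⟩ l)) =
          xt v (rw3 u ++ l :: l :: rw3 w) * xt φ (cl3 u ++ i :: j :: cl3 w) := by
        intro l
        unfold Occ.rep
        rw [rw3_append, cl3_append]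
        rfl
      simp only [e1]
      rw [← Finset.sum_mul, hv (shp u) (shp w) k h' _ _ (length_rw3 _) (length_rw3 _), zero_mul]
    · have e1 : ∀ l, xt v (rw3 (Occ.rep ⟨u, true, k, i, j, w⟩ l)) *
          xt φ (cl3 (Occ.rep ⟨u, true, k, i, j, w⟩ l)) =
          xt v (rw3 u ++ i :: j :: rw3 w) * xt φ (cl3 u ++ l :: l :: cl3 w) := by
        intro l
        unfold Occ.rep
        rw [rw3_append, cl3_append]
        rfl
      simp only [e1]
      rw [← Finset.mul_sum, hφ (shp u) (shp w) k h' _ _ (length_cl3 _) (length_cl3 _), mul_zero]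
  · simp

lemma rk_del (m : ℕ) (v φ : XX m → ℂ) (o : Occ) (l : Ix) (h : cd (shp (o.rep l)) ≤ m) :
    rk m v φ o.del = 0 := by
  unfold rk
  rw [if_neg]
  intro h1
  have h2 := cd_del o l
  rw [h1, cd_sh] at h2
  omega

lemma ext_rk (m : ℕ) {v φ : XX m → ℂ} (hv : v ∈ VV false m) (hφ : φ ∈ VV true m) (q : List Lt)
    (hq : cd (shp q) ≤ m) : ext (rk m v φ) q = rk m v φ q := by
  refine rep_unique {q | cd (shp q) ≤ m} ?_ ?_ ?_ ?_ ?_ q hq
  · intro o ho
    exact (cd_del o (aa o.k)).le.trans ho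
  · intro o ho l
    change cd (shp (o.rep l)) ≤ m
    have h1 : cd (shp (o.rep (aa o.k))) ≤ m := ho
    rw [shp_rep] at h1 ⊢
    exact h1
  · intro o _
    exact (isRep_ext _).eq_rhs o
  · intro o ho
    rw [rhs_eq_erase, rk_del m v φ o (aa o.k) ho, ite_self, eq_sub_iff_add_eq]
    have h1 := rk_sum m hv hφ o
    rw [← Finset.add_sum_erase univ _ (Finset.mem_univ (aa o.k))] at h1
    exact h1
  · intro q _ hn
    exact ext_normal _ hn

lemma AA_rank_one (m : ℕ) {v φ : XX m → ℂ} (hv : v ∈ VV false m) (hφ : φ ∈ VV true m) :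
    ∃ j ∈ AA, (∀ i < m, j i = 0) ∧ j m = vecMulVec v φ := by
  refine ⟨toFam ⟨ext (rk m v φ), isRep_ext _⟩, ⟨_, rfl⟩, ?_, ?_⟩
  · intro i hi
    ext I J
    rw [toFam_apply]
    obtain ⟨h1, h2, h3⟩ := z3_proj (sh i) I.1 J.1 I.2 J.2
    have h4 := ext_rk m hv hφ (z3 (sh i) I.1 J.1) (by rw [h1, cd_sh]; exact hi.le)
    change ext (rk m v φ) (z3 (sh i) I.1 J.1) = 0
    rw [h4, rk, if_neg]
    rw [h1]
    intro h5
    have h6 := congrArg cd h5
    rw [cd_sh, cd_sh] at h6
    omega
  · ext I J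
    rw [toFam_apply]
    obtain ⟨h1, h2, h3⟩ := z3_proj (sh m) I.1 J.1 I.2 J.2
    have h4 := ext_rk m hv hφ (z3 (sh m) I.1 J.1) (by rw [h1, cd_sh])
    change ext (rk m v φ) (z3 (sh m) I.1 J.1) = _
    rw [h4, rk, if_pos h1, h2, h3, xt_coe, xt_coe, vecMulVec_apply]

lemma split_list (J : List Ix) (a b : ℕ) (h : J.length = a + (b + 2)) :
    ∃ J1 i j J2, J = J1 ++ i :: j :: J2 ∧ J1.length = a ∧ J2.length = b := by
  induction a generalizing J with
  | zero =>
    rcases J with _ | ⟨i, _ | ⟨j, J2⟩⟩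
    · simp at h
    · simp at h
    · refine ⟨[], i, j, J2, rfl, rfl, ?_⟩
      simp only [List.length_cons, zero_add] at h
      omega
  | succ a ih =>
    rcases J with _ | ⟨c, J⟩
    · simp only [List.length_nil] at h
      omega
    · simp only [List.length_cons] at h
      obtain ⟨J1, i, j, J2, h1, h2, h3⟩ := ih J (by omega)
      refine ⟨c :: J1, i, j, J2, by rw [h1]; rfl, ?_, h3⟩
      rw [List.length_cons, h2]

lemma eq_zero_of_fam {f : RT ℂ} {m : ℕ} (h : ∀ i < m, toFam f i = 0) (q : List Lt)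
    (hq : cd (shp q) < m) : f.1 q = 0 := by
  rw [← valF_toFam f, valF, h _ hq]
  rfl

lemma AA_col (m : ℕ) (j : Fam XX) (hj : j ∈ AA) (hj0 : ∀ i < m, j i = 0) (J : XX m) :
    (fun I => j m I J) ∈ VV false m := by
  obtain ⟨f, rfl⟩ := hj
  intro u w k h I1 I2 h1 h2
  obtain ⟨J1, a, b, J2, h3, h4, h5⟩ := split_list J.1 u.length w.length (by
    rw [J.2, h, List.length_append]
    rfl)
  have e1 : ∀ l, xt (fun I => (toFam.toRingHom f : Fam XX) m I J) (I1 ++ l :: l :: I2) =
      f.1 (z3 u I1 J1 ++ px false k a l :: py false k b l :: z3 w I2 J2) := by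
    intro l
    have hlen : (I1 ++ l :: l :: I2).length = (sh m).length := by
      rw [h, List.length_append, List.length_append, h1]
      simp [h2]
    rw [xt, dif_pos hlen]
    change f.1 (z3 (sh m) (I1 ++ l :: l :: I2) J.1) = _
    rw [h3, h, z3_append _ _ _ _ _ _ h1 h4]
    rfl
  have h6 : ∑ l, xt (fun I => (toFam.toRingHom f : Fam XX) m I J) (I1 ++ l :: l :: I2) = 0 := by
    simp only [e1]
    rw [f.2 (z3 u I1 J1) (z3 w I2 J2) false k a b]
    have h7 : f.1 (z3 u I1 J1 ++ z3 w I2 J2) = 0 := by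
      refine eq_zero_of_fam hj0 _ ?_
      rw [shp_append, (z3_proj u I1 J1 h1 h4).1, (z3_proj w I2 J2 h2 h5).1]
      have h8 := cd_append_lt u w (sx false k) (sy false k)
      rw [← h, cd_sh] at h8
      exact h8
    rw [h7, ite_self]
  exact h6

lemma AA_row (m : ℕ) (j : Fam XX) (hj : j ∈ AA) (hj0 : ∀ i < m, j i = 0) (I : XX m) :
    (fun J => j m I J) ∈ VV true m := by
  obtain ⟨f, rfl⟩ := hj
  intro u w k h J1 J2 h1 h2
  obtain ⟨I1, a, b, I2, h3, h4, h5⟩ := split_list I.1 u.length w.length (by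
    rw [I.2, h, List.length_append]
    rfl)
  have e1 : ∀ l, xt (fun J => (toFam.toRingHom f : Fam XX) m I J) (J1 ++ l :: l :: J2) =
      f.1 (z3 u I1 J1 ++ px true k a l :: py true k b l :: z3 w I2 J2) := by
    intro l
    have hlen : (J1 ++ l :: l :: J2).length = (sh m).length := by
      rw [h, List.length_append, List.length_append, h1]
      simp [h2]
    rw [xt, dif_pos hlen]
    change f.1 (z3 (sh m) I.1 (J1 ++ l :: l :: J2)) = _
    rw [h3, h, z3_append _ _ _ _ _ _ h4 h1]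
    rfl
  have h6 : ∑ l, xt (fun J => (toFam.toRingHom f : Fam XX) m I J) (J1 ++ l :: l :: J2) = 0 := by
    simp only [e1]
    rw [f.2 (z3 u I1 J1) (z3 w I2 J2) true k a b]
    have h7 : f.1 (z3 u I1 J1 ++ z3 w I2 J2) = 0 := by
      refine eq_zero_of_fam hj0 _ ?_
      rw [shp_append, (z3_proj u I1 J1 h4 h1).1, (z3_proj w I2 J2 h5 h2).1]
      have h8 := cd_append_lt u w (sx true k) (sy true k)
      rw [← h, cd_sh] at h8
      exact h8
    rw [h7, ite_self]
  exact h6

end Pool.Agent.Lib.Helper29.HFG
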