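import Pool.Agent.Lib.Helper29.HFG.Words2

set_option autoImplicit false

open Finset Filter Topology Matrix

namespace Pool.Agent.Lib.Helper29.HFG

/-! ### reduction of rows -/

/-- adjacent entries are different -/
def prp : List Ix → Prop
  | [] => True
  | i :: I => I.head? ≠ some i ∧ prp I

instance decPrp : DecidablePred prp
  | [] => isTrue trivial
  | i :: I =>
    haveI := decPrp I
    inferInstanceAs (Decidable (I.head? ≠ some i ∧ prp I))

/-- push or pop -/
def stp (i : Ix) (s : List Ix) : List Ix := if s.head? = some i then s.tail else i :: s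

/-- reduction -/
def red : List Ix → List Ix
  | [] => []
  | i :: I => stp i (red I)

lemma prp_stp {i : Ix} {s : List Ix} (hs : prp s) : prp (stp i s) := by
  unfold stp
  split_ifs with h
  · rcases s with _ | ⟨a, s⟩
    · exact hs
    · exact hs.2
  · exact ⟨h, hs⟩

lemma prp_red (I : List Ix) : prp (red I) := by
  induction I with
  | nil => trivial
  | cons i I ih => exact prp_stp ih

lemma stp_stp {i : Ix} {s : List Ix} (hs : prp s) : stp i (stp i s) = s := by
  unfold stp
  by_cases h : s.head? = some i
  · rw [if_pos h]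
    rcases s with _ | ⟨a, s⟩
    · simp at h
    · simp only [List.head?_cons, Option.some.injEq] at h
      subst h
      rw [if_neg]
      · rfl
      · exact hs.1
  · rw [if_neg h]
    simp

lemma red_pair (u : List Ix) (i : Ix) (v : List Ix) : red (u ++ i :: i :: v) = red (u ++ v) := by
  induction u with
  | nil =>
    change stp i (stp i (red v)) = red v
    exact stp_stp (prp_red v)
  | cons a u ih =>
    change stp a (red (u ++ i :: i :: v)) = stp a (red (u ++ v))
    rw [ih]

lemma not_prp_pair (u : List Ix) (i : Ix) (v : List Ix) : ¬ prp (u ++ i :: i :: v) := by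
  induction u with
  | nil =>
    intro h
    exact h.1 rfl
  | cons a u ih =>
    intro h
    exact ih h.2

/-! ### colour projections -/

/-- the function on words -/
def pgF (γ : List Ix) (q : List Lt) : ℂ := if rw3 q = cl3 q ∧ red (rw3 q) = γ then 1 else 0

lemma eq_append_iff (u : List Lt) (x y : Lt) (v : List Lt) :
    rw3 (u ++ x :: y :: v) = cl3 (u ++ x :: y :: v) ↔
      (rw3 (u ++ v) = cl3 (u ++ v)) ∧ x.2.1 = x.2.2 ∧ y.2.1 = y.2.2 := by
  induction u with
  | nil =>
    simp only [List.nil_append, rw3_cons, cl3_cons, List.cons.injEq]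
    tauto
  | cons a u ih =>
    simp only [List.cons_append, rw3_cons, cl3_cons, List.cons.injEq]
    rw [ih]
    tauto

lemma pgF_pair (γ : List Ix) (u v : List Lt) (d : Bool) (k : ℕ) (i j l : Ix) :
    pgF γ (u ++ px d k i l :: py d k j l :: v) =
      if l = i then (if i = j then pgF γ (u ++ v) else 0) else 0 := by
  unfold pgF
  simp only [eq_append_iff]
  have h1 : ((px d k i l).2.1 = (px d k i l).2.2) ↔ l = i := by
    cases d
    · rfl
    · exact eq_comm
  have h2 : ((py d k j l).2.1 = (py d k j l).2.2) ↔ l = j := by
    cases d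
    · rfl
    · exact eq_comm
  simp only [h1, h2]
  by_cases hl : l = i
  · subst hl
    by_cases hj : l = j
    · subst hj
      have h3 : rw3 (u ++ px d k l l :: py d k l l :: v) = rw3 u ++ l :: l :: rw3 v := by
        rw [rw3_append]
        cases d <;> rfl
      rw [h3, red_pair, ← rw3_append]
      simp
    · simp [hj]
  · simp [hl]

lemma isRep_pgF (γ : List Ix) : IsRep (pgF γ) := by
  intro u v d k i j
  simp only [pgF_pair]
  rw [Finset.sum_ite_eq']
  simp

lemma pgF_fam (γ : List Ix) (m : ℕ) :
    toFam ⟨pgF γ, isRep_pgF γ⟩ m = diagonal (fun I : XX m => if red I.1 = γ then 1 else 0) := by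
  ext I J
  rw [toFam_apply, diagonal_apply]
  obtain ⟨_, h2, h3⟩ := z3_proj (sh m) I.1 J.1 I.2 J.2
  change pgF γ (z3 (sh m) I.1 J.1) = _
  unfold pgF
  rw [h2, h3]
  by_cases h : I = J
  · subst h
    simp
  · rw [if_neg, if_neg h]
    rintro ⟨h4, _⟩
    exact h (Subtype.ext h4)

/-! ### counting -/

/-- number of words of length `r` with reduction `s` -/
def cnt (r : ℕ) (s : List Ix) : ℕ := sv r (fun I => if red I = s then 1 else 0)

/-- number of proper words of length `r` -/
def prc (r : ℕ) : ℕ := sv r (fun I => if prp I then 1 else 0)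

lemma sv_le (r : ℕ) {F F' : List Ix → ℕ} (h : ∀ I, F I ≤ F' I) : sv r F ≤ sv r F' :=
  Finset.sum_le_sum fun _ _ => h _

lemma sv_add (r : ℕ) (F F' : List Ix → ℕ) : sv r (fun I => F I + F' I) = sv r F + sv r F' :=
  Finset.sum_add_distrib

lemma cnt_step (r : ℕ) (i : Ix) (s : List Ix) :
    sv r (fun I => if red (i :: I) = s then 1 else 0) ≤
      cnt r (i :: s) + if s.head? = some i then cnt r s.tail else 0 := by
  have h1 : ∀ I : List Ix, (if red (i :: I) = s then 1 else 0) ≤
      (if red I = i :: s then 1 else 0) +
        (if s.head? = some i then (if red I = s.tail then 1 else 0) else 0) := by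
    intro I
    by_cases h : red (i :: I) = s
    · rw [if_pos h]
      change stp i (red I) = s at h
      unfold stp at h
      split_ifs at h with h2
      · have h3 : red I = i :: s := by
          rcases hr : red I with _ | ⟨a, t⟩
          · rw [hr] at h2; simp at h2
          · rw [hr] at h2 h
            simp only [List.head?_cons, Option.some.injEq] at h2
            simp only [List.tail_cons] at h
            rw [h2, h]
        rw [if_pos h3]
        omega
      · subst h
        simp
    · rw [if_neg h]
      exact Nat.zero_le _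
  refine (sv_le r h1).trans ?_
  rw [sv_add]
  refine Nat.add_le_add le_rfl ?_
  split_ifs
  · exact le_rfl
  · unfold sv
    simp

lemma cnt_bound (r : ℕ) (s : List Ix) : cnt r s * 3 ^ s.length ≤ 6 ^ r := by
  induction r generalizing s with
  | zero =>
    unfold cnt
    rw [sv_zero]
    by_cases h : red [] = s
    · rw [if_pos h, ← h]
      simp [red]
    · rw [if_neg h]
      simp
  | succ r ih =>
    have h1 : cnt (r + 1) s ≤ ∑ i, cnt r (i :: s) +
        ∑ i, (if s.head? = some i then cnt r s.tail else 0) := by
      rw [← Finset.sum_add_distrib]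
      unfold cnt
      rw [sv_succ]
      exact Finset.sum_le_sum fun i _ => cnt_step r i s
    have h2 : (∑ i, cnt r (i :: s)) * 3 ^ (s.length + 1) ≤ 9 * 6 ^ r := by
      rw [Finset.sum_mul]
      have h3 : ∀ i ∈ (univ : Finset Ix), cnt r (i :: s) * 3 ^ (s.length + 1) ≤ 6 ^ r :=
        fun i _ => ih (i :: s)
      have h4 := Finset.sum_le_card_nsmul _ _ _ h3
      simpa using h4
    have h5 : (∑ i, (if s.head? = some i then cnt r s.tail else 0)) * 3 ^ s.length ≤
        3 * 6 ^ r := by
      rcases s with _ | ⟨a, s⟩
      · simp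
      · simp only [List.head?_cons, Option.some.injEq, List.tail_cons, List.length_cons]
        rw [Finset.sum_ite_eq, if_pos (Finset.mem_univ _)]
        have := ih s
        rw [pow_succ]
        nlinarith
    have h6 : (∑ i, cnt r (i :: s)) * 3 ^ s.length ≤ 3 * 6 ^ r := by
      rw [pow_succ] at h2
      nlinarith
    calc cnt (r + 1) s * 3 ^ s.length ≤ (∑ i, cnt r (i :: s) +
          ∑ i, (if s.head? = some i then cnt r s.tail else 0)) * 3 ^ s.length :=
          Nat.mul_le_mul_right _ h1
      _ = (∑ i, cnt r (i :: s)) * 3 ^ s.length +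
          (∑ i, (if s.head? = some i then cnt r s.tail else 0)) * 3 ^ s.length := by ring
      _ ≤ 3 * 6 ^ r + 3 * 6 ^ r := Nat.add_le_add h6 h5
      _ = 6 ^ (r + 1) := by ring

lemma cnt_le (r : ℕ) (s : List Ix) : cnt r s ≤ 6 ^ r := by
  have h1 := cnt_bound r s
  have h2 : 1 ≤ 3 ^ s.length := Nat.one_le_pow _ _ (by norm_num)
  nlinarith

lemma prc_ge (r : ℕ) : 8 ^ r ≤ prc r := by
  induction r with
  | zero =>
    unfold prc
    rw [sv_zero]
    simp [prp]
  | succ r ih =>
    have h1 : prc (r + 1) = sv r (fun I => ∑ i : Ix, if prp (i :: I) then 1 else 0) := by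
      unfold prc
      rw [sv_succ]
      exact Finset.sum_comm
    have h2 : ∀ I : List Ix, (if prp I then 8 else 0) ≤ ∑ i : Ix, if prp (i :: I) then 1 else 0 := by
      intro I
      by_cases h : prp I
      · rw [if_pos h]
        have h3 : ∀ i : Ix, prp (i :: I) ↔ I.head? ≠ some i := fun i =>
          ⟨fun h4 => h4.1, fun h4 => ⟨h4, h⟩⟩
        simp only [h3]
        rcases I with _ | ⟨a, I⟩
        · simp
        · simp only [List.head?_cons, ne_eq, Option.some.injEq, ite_not]
          rw [← Finset.add_sum_erase univ _ (Finset.mem_univ a)]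
          have h5 : ∀ i ∈ univ.erase a, (if a = i then 0 else 1 : ℕ) = 1 := by
            intro i hi
            rw [if_neg (Finset.ne_of_mem_erase hi).symm]
          rw [Finset.sum_congr rfl h5]
          simp
      · rw [if_neg h]
        exact Nat.zero_le _
    rw [h1]
    refine le_trans ?_ (sv_le r h2)
    have h3 : sv r (fun I => if prp I then 8 else 0) = 8 * prc r := by
      unfold prc sv
      rw [Finset.mul_sum]
      refine Finset.sum_congr rfl fun I _ => ?_
      change (if prp I.1 then 8 else 0) = 8 * (if prp I.1 then 1 else 0)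
      split_ifs <;> rfl
    rw [h3, pow_succ, mul_comm]
    exact Nat.mul_le_mul_left _ ih

lemma cnt_le_prc (r : ℕ) (s : List Ix) : cnt r s ≤ prc r :=
  (cnt_le r s).trans ((Nat.pow_le_pow_left (by norm_num) r).trans (prc_ge r))

/-! ### verification of the hypotheses -/

lemma single_mem (d : Bool) (m : ℕ) (I : XX m) (hI : prp I.1) :
    (Pi.single I (1 : ℂ) : XX m → ℂ) ∈ VV d m := by
  intro u w k h I1 I2 h1 h2
  refine Finset.sum_eq_zero fun l _ => ?_
  unfold xt
  split_ifs with h3
  · rw [Pi.single_apply, if_neg]
    intro h4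
    have h5 := congrArg Subtype.val h4
    simp only at h5
    rw [← h5] at hI
    exact not_prp_pair _ _ _ hI
  · rfl

theorem good_AA : Good AA (VV false) (VV true) where
  closed := AA_closed
  rank_one := fun m v hv φ hφ => AA_rank_one m hv hφ
  col_mem := AA_col
  row_mem := AA_row
  color := by
    intro m
    let P := {I : XX m // prp I.1}
    have hcard : Fintype.card P = prc (sh m).length := by
      rw [Fintype.card_subtype, Finset.card_filter]
      rfl
    let e : Fin (prc (sh m).length) ≃ P := (Fintype.equivFinOfCardEq hcard).symm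
    refine ⟨prc (sh m).length, lt_of_lt_of_le (by positivity) (prc_ge _), ⟨fun k =>
      Pi.single (e k).1 1, fun k => Pi.single (e k).1 1, fun k => single_mem _ _ _ (e k).2,
      fun k => single_mem _ _ _ (e k).2, ?_⟩, List Ix, inferInstance, fun I => red I.1, ?_, ?_⟩
    · intro i j
      rw [single_dotProduct, one_mul]
      change (Pi.single (e j).1 1 : XX m → ℂ) (e i).1 = _
      rw [Pi.single_apply]
      by_cases h : i = j
      · rw [if_pos h, if_pos (by rw [h])]
      · rw [if_neg h, if_neg]
        intro h2
        exact h (e.injective (Subtype.ext h2))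
    · intro γ
      rw [Finset.card_filter]
      exact cnt_le_prc _ γ
    · intro γ
      exact ⟨_, ⟨⟨pgF γ, isRep_pgF γ⟩, rfl⟩, pgF_fam γ m⟩

end Pool.Agent.Lib.Helper29.HFG
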